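import Pool.Agent.Lib.MP_531058_lc.EMC.Base

/-!
# Induction and least number principles
-/

namespace EMC

open Classical
open Pool.Agent.Lib.MP_531058_lc.RCA

variable {M : Type*} [DSR M] {s : Sys M} {α β γ : Type*} [Cd s α] [Cd s β] [Cd s γ]

theorem eq_zero_or_succ (x : M) : x = 0 ∨ ∃ y, x = y + 1 := by
  by_cases h : x = 0
  · exact Or.inl h
  · right
    have h1 : (0 : M) + 1 ≤ x := DSR.succ_le_of_lt 0 x (pos_iff_ne_zero.2 h)
    obtain ⟨c, hc⟩ := exists_add_of_le h1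
    exact ⟨c, by rw [hc, zero_add, add_comm]⟩

theorem pos_iff_one_le (x : M) : 0 < x ↔ 1 ≤ x := by
  constructor
  · intro h
    have h1 : (0 : M) + 1 ≤ x := DSR.succ_le_of_lt 0 x h
    rwa [zero_add] at h1
  · intro h
    exact lt_of_lt_of_le one_pos h

theorem ApiB2_lt_succ {a b : M} : a < b + 1 ↔ a ≤ b := DSR.lt_succ_iff

theorem ApiB2_not_lt_zero (a : M) : ¬ a < 0 := not_lt.2 zero_le

/-- least number principle for decidable predicates -/
theorem dec_least {P : M → Prop} (hP : FP s P) (h : ∃ n, P n) :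
    ∃ n, P n ∧ ∀ m, m < n → ¬ P m := by
  by_contra hcon
  push Not at hcon
  have hP' : FP s (fun x : M × M => ¬ P x.2) := FP.not (FP.comp hP FR.snd)
  have h1 : FP s (fun n : M => ∀ m, m < n → ¬ P m) := FP.ballc (FR.id (α := M)) hP'
  have h2 := FP.ind h1 (fun m hm => absurd hm (ApiB2_not_lt_zero m)) (fun n hn m hm hPm => by
    rcases lt_or_eq_of_le (ApiB2_lt_succ.1 hm) with h' | h'
    · exact hn m h' hPm
    · subst h'
      obtain ⟨m', hm', hPm'⟩ := hcon m hPm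
      exact hn m' hm' hPm')
  obtain ⟨n, hn⟩ := h
  exact h2 (n + 1) n (lt_add_one n) hn

/-- greatest number principle below a bound -/
theorem dec_greatest {P : M → Prop} (hP : FP s P) (K : M) (h : ∃ n, n ≤ K ∧ P n) :
    ∃ n, n ≤ K ∧ P n ∧ ∀ m, n < m → m ≤ K → ¬ P m := by
  have h1 : FP s (fun j : M => ∃ n, n < K + 1 ∧ (n + j = K ∧ P n)) := by
    refine FP.bexc (FR.const (β := M) (K + 1)) (p := fun j n => n + j = K ∧ P n) ?_
    exact FP.and (FP.eqM (FR.add FR.snd FR.fst) (FR.const (β := M) K)) (FP.comp hP FR.snd)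
  obtain ⟨n, hn, hPn⟩ := h
  obtain ⟨j, hj⟩ := exists_add_of_le hn
  obtain ⟨i, ⟨k, hk, hki, hPk⟩, hmin⟩ := dec_least h1
    ⟨j, n, ApiB2_lt_succ.2 hn, hj.symm, hPn⟩
  refine ⟨k, ApiB2_lt_succ.1 hk, hPk, fun m hkm hmK hPm => ?_⟩
  obtain ⟨l, hl⟩ := exists_add_of_le hmK
  have hli : l < i := by
    by_contra hcon
    have h2 : i ≤ l := not_lt.1 hcon
    have h3 : k + i < m + l := add_lt_add_of_lt_of_le hkm h2
    rw [hki, ← hl] at h3
    exact lt_irrefl _ h3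
  exact hmin l hli ⟨m, ApiB2_lt_succ.2 hmK, hl.symm, hPm⟩

/-- `Σ⁰₁`-induction. Proof: let `P n ↔ ∃ m, Q (n, m)`. By `FR.prec` there is a computable `c`
with `c 0 = 0`, `c (t+1) = c t + 1` if `∃ m ≤ t, Q (c t + 1, m)` and `c (t+1) = c t` otherwise. `P (c t)`
holds for all `t` (decidable: `c t = 0 ∨ ∃ m ≤ t, Q (c t, m)`, `FP.ind`), hence for all `t` there is `t' > t`
with `c t' ≥ c t + 1`; `FR.mu` gives a computable `g` with `t < g t`, `c t + 1 ≤ c (g t)`; iterate `g`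
(`FR.prec`), `FP.ind` gives `k ≤ c (g^k 0)`; then every value `k` is attained by `c` (`c` has steps `≤ 1`). -/
theorem sig_induction {P : M → Prop} (hP : Sig s P) (h0 : P 0) (hs : ∀ n, P n → P (n + 1)) :
    ∀ n, P n := by
  obtain ⟨Q, hQ, hPQ⟩ := hP
  -- the counting function
  have hstepP : FP s (fun x : M × M × M => ∃ m, m < x.2.1 + 1 ∧ Q (x.2.2 + 1, m)) := by
    refine FP.bexc (b := fun x : M × M × M => x.2.1 + 1)
      (p := fun (x : M × M × M) (m : M) => Q (x.2.2 + 1, m)) ?_ ?_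
    · exact FR.succ (FR.fst' FR.snd)
    · refine FP.comp hQ (FR.pair (FR.succ ?_) FR.snd)
      exact FR.snd' (FR.snd' FR.fst)
  obtain ⟨c0, hc, hc0, hcs⟩ := FR.prec (s := s) (α := M) (β := M) (f := fun _ => (0 : M))
    (g := fun x : M × M × M => sel (∃ m, m < x.2.1 + 1 ∧ Q (x.2.2 + 1, m)) (x.2.2 + 1) x.2.2)
    (FR.const (β := M) 0)
    (FR.sel hstepP (FR.succ (FR.snd' FR.snd)) (FR.snd' FR.snd))
  let c : M → M := c0 0
  have hcR : FR s c := FR.comp (g := fun x : M × M => c0 x.1 x.2) (f := fun t : M => ((0 : M), t))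
    hc (FR.pair (FR.const (β := M) 0) FR.id)
  have c_zero : c 0 = 0 := hc0 0
  have c_pos : ∀ t, (∃ m, m < t + 1 ∧ Q (c t + 1, m)) → c (t + 1) = c t + 1 := by
    intro t ht
    show c0 0 (t + 1) = _
    rw [hcs]; exact sel_pos ht _ _
  have c_neg : ∀ t, ¬ (∃ m, m < t + 1 ∧ Q (c t + 1, m)) → c (t + 1) = c t := by
    intro t ht
    show c0 0 (t + 1) = _
    rw [hcs]; exact sel_neg ht _ _
  -- (1)
  have h1 : ∀ t, c t = 0 ∨ ∃ m, m < t + 1 ∧ Q (c t, m) := by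
    have hF : FP s (fun t : M => c t = 0 ∨ ∃ m, m < t + 1 ∧ Q (c t, m)) := by
      refine FP.or (FP.eqM hcR (FR.const (β := M) 0)) ?_
      refine FP.bexc (b := fun t : M => t + 1) (p := fun t m => Q (c t, m)) (FR.succ FR.id) ?_
      exact FP.comp hQ (FR.pair (FR.comp hcR FR.fst) FR.snd)
    refine FP.ind hF (Or.inl c_zero) fun t ht => ?_
    by_cases hc' : ∃ m, m < t + 1 ∧ Q (c t + 1, m)
    · rw [c_pos t hc']
      obtain ⟨m, hm, hQm⟩ := hc'
      exact Or.inr ⟨m, hm.trans (lt_add_one _), hQm⟩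
    · rw [c_neg t hc']
      rcases ht with ht | ⟨m, hm, hQm⟩
      · exact Or.inl ht
      · exact Or.inr ⟨m, hm.trans (lt_add_one _), hQm⟩
  have hPc : ∀ t, P (c t) := by
    intro t
    rcases h1 t with h | ⟨m, _, h⟩
    · rw [h]; exact h0
    · exact (hPQ _).2 ⟨m, h⟩
  have c_le : ∀ t, c t ≤ c (t + 1) ∧ c (t + 1) ≤ c t + 1 := by
    intro t
    by_cases hc' : ∃ m, m < t + 1 ∧ Q (c t + 1, m)
    · rw [c_pos t hc']; exact ⟨(lt_add_one _).le, le_refl _⟩
    · rw [c_neg t hc']; exact ⟨le_refl _, (lt_add_one _).le⟩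
  -- monotone
  have hmono : ∀ d t : M, c t ≤ c (t + d) := by
    intro d t
    have hF : FP s (fun d : M => c t ≤ c (t + d)) :=
      FP.le (FR.const (β := M) (c t)) (FR.comp hcR (FR.add (FR.const (β := M) t) FR.id))
    refine FP.ind hF (by simp) (fun n hn => ?_) d
    rw [← add_assoc]
    exact hn.trans (c_le _).1
  -- (2)
  have h2 : ∀ t, ∃ t', t < t' ∧ c t + 1 ≤ c t' := by
    intro t
    obtain ⟨m, hm⟩ := (hPQ _).1 (hs _ (hPc t))
    have hle : c t ≤ c (t + m) := hmono m t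
    rcases lt_or_eq_of_le hle with h | h
    · refine ⟨t + m, ?_, DSR.succ_le_of_lt _ _ h⟩
      rcases lt_or_eq_of_le (le_self_add : t ≤ t + m) with h' | h'
      · exact h'
      · exfalso; rw [← h'] at h; exact lt_irrefl _ h
    · refine ⟨t + m + 1, ?_, ?_⟩
      · exact lt_of_le_of_lt le_self_add (lt_add_one _)
      · rw [c_pos (t + m) ⟨m, lt_of_le_of_lt le_add_self (lt_add_one _), by rw [← h]; exact hm⟩, ← h]
  obtain ⟨g, hg, hgp, -⟩ := FR.mu (s := s) (α := M) (p := fun t t' => t < t' ∧ c t + 1 ≤ c t')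
    (FP.and (FP.lt FR.fst FR.snd)
      (FP.le (FR.succ (FR.comp hcR FR.fst)) (FR.comp hcR FR.snd))) h2
  obtain ⟨i0, hi, hi0, his⟩ := FR.prec (s := s) (α := M) (β := M) (f := fun _ => (0 : M))
    (g := fun x : M × M × M => g x.2.2) (FR.const (β := M) 0) (FR.comp hg (FR.snd' FR.snd))
  have hiR : FR s (fun k : M => i0 0 k) := FR.comp (g := fun x : M × M => i0 x.1 x.2)
    (f := fun t : M => ((0 : M), t)) hi (FR.pair (FR.const (β := M) 0) FR.id)
  have h3 : ∀ k : M, k ≤ c (i0 0 k) := by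
    refine FP.ind (FP.le FR.id (FR.comp hcR hiR)) zero_le fun k hk => ?_
    rw [his]
    exact (add_le_add_left hk 1).trans (hgp _).2
  -- (4)
  intro k
  obtain ⟨t, ht, hmin⟩ := dec_least (s := s) (P := fun t => k ≤ c t)
    (FP.le (FR.const (β := M) k) hcR) ⟨_, h3 k⟩
  have hk : c t = k := by
    rcases eq_zero_or_succ t with h | ⟨t', rfl⟩
    · rw [h, c_zero] at ht ⊢
      exact (le_antisymm ht zero_le).symm
    · have hlt : c t' < k := not_le.1 (hmin t' (lt_add_one _))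
      exact le_antisymm ((c_le t').2.trans (DSR.succ_le_of_lt _ _ hlt)) ht
  rw [← hk]; exact hPc t

/-- `Π⁰₁`-induction (apply `sig_induction` to `n ↦ ¬ P (K - n)`, i.e. `n ↦ ∃ j, j + n = K ∧ ¬ P j` ∨ `K < n`) -/
theorem pi_induction {P : M → Prop} (hP : Sig s (fun n => ¬ P n)) (h0 : P 0)
    (hs : ∀ n, P n → P (n + 1)) : ∀ n, P n := by
  obtain ⟨Q, hQ, hPQ⟩ := hP
  intro K
  by_contra hK
  have hS : Sig s (fun j : M => K < j ∨ ∃ i, i + j = K ∧ ¬ P i) := by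
    refine ⟨fun x : M × M => K < x.1 ∨ ∃ i, i < K + 1 ∧ (i + x.1 = K ∧ Q (i, x.2)), ?_, fun j => ?_⟩
    · refine FP.or (FP.lt (FR.const (β := M) K) FR.fst) ?_
      refine FP.bexc (b := fun _ : M × M => K + 1) (p := fun (x : M × M) (i : M) =>
        i + x.1 = K ∧ Q (i, x.2)) (FR.const (β := M) (K + 1)) ?_
      exact FP.and (FP.eqM (FR.add FR.snd (FR.fst' FR.fst)) (FR.const (β := M) K))
        (FP.comp hQ (FR.pair FR.snd (FR.snd' FR.fst)))
    · constructor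
      · rintro (h | ⟨i, hi, hPi⟩)
        · exact ⟨0, Or.inl h⟩
        · obtain ⟨m, hm⟩ := (hPQ i).1 hPi
          refine ⟨m, Or.inr ⟨i, ?_, hi, hm⟩⟩
          rw [ApiB2_lt_succ, ← hi]; exact le_self_add
      · rintro ⟨m, h | ⟨i, _, hi, hQi⟩⟩
        · exact Or.inl h
        · exact Or.inr ⟨i, hi, (hPQ i).2 ⟨m, hQi⟩⟩
  have key := sig_induction hS (Or.inr ⟨K, add_zero K, hK⟩) (fun j hj => by
    rcases hj with h | ⟨i, hi, hPi⟩
    · exact Or.inl (h.trans (lt_add_one j))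
    · rcases eq_zero_or_succ i with h | ⟨i', rfl⟩
      · rw [h] at hPi; exact absurd h0 hPi
      · refine Or.inr ⟨i', ?_, fun hp => hPi (hs _ hp)⟩
        rw [← hi]; ring) K
  rcases key with h | ⟨i, hi, hPi⟩
  · exact lt_irrefl _ h
  · have : i = 0 := by
      have h' : i + K = 0 + K := by rw [hi, zero_add]
      exact add_right_cancel h'
    rw [this] at hPi; exact hPi h0

/-- least number principle for `Σ⁰₁` predicates -/
theorem sig_least {P : M → Prop} (hP : Sig s P) (h : ∃ n, P n) :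
    ∃ n, P n ∧ ∀ m, m < n → ¬ P m := by
  obtain ⟨Q, hQ, hPQ⟩ := hP
  by_contra hcon
  push Not at hcon
  have hS : Sig s (fun n : M => ¬ ∀ m, m < n → ¬ P m) := by
    refine ⟨fun x : M × M => ∃ m, m < x.1 ∧ Q (m, x.2), ?_, fun n => ?_⟩
    · exact FP.bexc (b := fun x : M × M => x.1) (p := fun (x : M × M) (m : M) => Q (m, x.2))
        FR.fst (FP.comp hQ (FR.pair FR.snd (FR.snd' FR.fst)))
    · push Not
      constructor
      · rintro ⟨m, hm, hPm⟩
        obtain ⟨w, hw⟩ := (hPQ m).1 hPm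
        exact ⟨w, m, hm, hw⟩
      · rintro ⟨w, m, hm, hw⟩
        exact ⟨m, hm, (hPQ m).2 ⟨w, hw⟩⟩
  have key := pi_induction hS (fun m hm => absurd hm (ApiB2_not_lt_zero m)) (fun n hn m hm hPm => by
    rcases lt_or_eq_of_le (ApiB2_lt_succ.1 hm) with h' | h'
    · exact hn m h' hPm
    · subst h'
      obtain ⟨m', hm', hPm'⟩ := hcon m hPm
      exact hn m' hm' hPm')
  obtain ⟨n, hn⟩ := h
  exact key (n + 1) n (lt_add_one n) hn

/-- least number principle for `Π⁰₁` predicates -/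
theorem pi_least {P : M → Prop} (hP : Sig s (fun n => ¬ P n)) (h : ∃ n, P n) :
    ∃ n, P n ∧ ∀ m, m < n → ¬ P m := by
  obtain ⟨Q, hQ, hPQ⟩ := hP
  by_contra hcon
  push Not at hcon
  have hS : Sig s (fun n : M => ∃ B, ∀ m, m < n → ∃ w, w < B ∧ Q (m, w)) := by
    refine ⟨fun x : M × M => ∀ m, m < x.1 → ∃ w, w < x.2 ∧ Q (m, w), ?_, fun n => Iff.rfl⟩
    refine FP.ballc (b := fun x : M × M => x.1) (p := fun (x : M × M) (m : M) =>
      ∃ w, w < x.2 ∧ Q (m, w)) FR.fst ?_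
    refine FP.bexc (b := fun x : (M × M) × M => x.1.2) (p := fun (x : (M × M) × M) (w : M) =>
      Q (x.2, w)) (FR.snd' FR.fst) ?_
    exact FP.comp hQ (FR.pair (FR.snd' FR.fst) FR.snd)
  have key := sig_induction hS ⟨0, fun m hm => absurd hm (ApiB2_not_lt_zero m)⟩ (fun n hn => by
    obtain ⟨B, hB⟩ := hn
    have hnP : ¬ P n := by
      intro hPn
      obtain ⟨m, hm, hPm⟩ := hcon n hPn
      obtain ⟨w, _, hw⟩ := hB m hm
      exact (hPQ m).2 ⟨w, hw⟩ hPm
    obtain ⟨w, hw⟩ := (hPQ n).1 hnP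
    refine ⟨B + w + 1, fun m hm => ?_⟩
    rcases lt_or_eq_of_le (ApiB2_lt_succ.1 hm) with h' | h'
    · obtain ⟨w', hw', hQ'⟩ := hB m h'
      exact ⟨w', lt_of_lt_of_le hw' ((le_self_add).trans le_self_add), hQ'⟩
    · subst h'
      exact ⟨w, ApiB2_lt_succ.2 le_add_self, hw⟩)
  obtain ⟨n, hn⟩ := h
  obtain ⟨B, hB⟩ := key (n + 1)
  obtain ⟨w, _, hw⟩ := hB n (lt_add_one n)
  exact (hPQ n).2 ⟨w, hw⟩ hn

end EMC
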