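import Pool.Agent.Lib.MP_531058_lc.EMC.ApiB2

/-!
# Closure of Σ⁰₁ predicates, bounding
-/

namespace EMC

open Classical
open Pool.Agent.Lib.MP_531058_lc.RCA

variable {M : Type*} [DSR M] {s : Sys M} {α β γ : Type*} [Cd s α] [Cd s β] [Cd s γ]

theorem Sig.of_iff {P Q : α → Prop} (hP : Sig s P) (h : ∀ a, P a ↔ Q a) : Sig s Q := by
  obtain ⟨R, hR, hRP⟩ := hP
  exact ⟨R, hR, fun a => (h a).symm.trans (hRP a)⟩

theorem Sig.of_dec {P : α → Prop} (hP : FP s P) : Sig s P := by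
  refine ⟨fun x => P x.1, FP.comp hP FR.fst, fun a => ?_⟩
  exact ⟨fun h => ⟨0, h⟩, fun ⟨_, h⟩ => h⟩

theorem Sig.comp {P : β → Prop} {g : α → β} (hP : Sig s P) (hg : FR s g) :
    Sig s (fun a => P (g a)) := by
  obtain ⟨R, hR, hRP⟩ := hP
  refine ⟨fun x => R (g x.1, x.2), ?_, fun a => hRP (g a)⟩
  exact FP.comp₂ hR (FR.comp hg FR.fst) FR.snd

/-- decoding is in the class -/
theorem ApiC1.dec_mem : FR s (fun m : M => (Cd.dec s m : β)) := Cd.mem (s := s) (α := β)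

/-- unbounded existential over a coded type -/
theorem Sig.ex' {P : α × β → Prop} (hP : Sig s P) : Sig s (fun a => ∃ b, P (a, b)) := by
  obtain ⟨R, hR, hRP⟩ := hP
  refine ⟨fun x => R ((x.1, Cd.dec s (s.lf x.2)), s.rt x.2), ?_, fun a => ?_⟩
  · have h1 : FR s (fun x : α × M => s.lf x.2) :=
      FR.comp (FR.of_mem (s := s) s.lf_mem) FR.snd
    have h2 : FR s (fun x : α × M => s.rt x.2) :=
      FR.comp (FR.of_mem (s := s) s.rt_mem) FR.snd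
    have h3 : FR s (fun x : α × M => (Cd.dec s (s.lf x.2) : β)) := FR.comp ApiC1.dec_mem h1
    exact FP.comp₂ hR (FR.pair FR.fst h3) h2
  · constructor
    · rintro ⟨b, hb⟩
      obtain ⟨m, hm⟩ := (hRP _).1 hb
      refine ⟨s.pr (Cd.enc s b) m, ?_⟩
      simp only [s.lf_pr, s.rt_pr, Cd.dec_enc]
      exact hm
    · rintro ⟨m, hm⟩
      exact ⟨Cd.dec s (s.lf m), (hRP _).2 ⟨s.rt m, hm⟩⟩

theorem Sig.ex {P : α × M → Prop} (hP : Sig s P) : Sig s (fun a => ∃ m, P (a, m)) :=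
  Sig.ex' hP

theorem Sig.and {P Q : α → Prop} (hP : Sig s P) (hQ : Sig s Q) : Sig s (fun a => P a ∧ Q a) := by
  obtain ⟨R, hR, hRP⟩ := hP
  obtain ⟨T, hT, hTQ⟩ := hQ
  refine ⟨fun x => R (x.1, s.lf x.2) ∧ T (x.1, s.rt x.2), ?_, fun a => ?_⟩
  · have h1 : FR s (fun x : α × M => s.lf x.2) :=
      FR.comp (FR.of_mem (s := s) s.lf_mem) FR.snd
    have h2 : FR s (fun x : α × M => s.rt x.2) :=
      FR.comp (FR.of_mem (s := s) s.rt_mem) FR.snd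
    exact FP.and (FP.comp₂ hR FR.fst h1) (FP.comp₂ hT FR.fst h2)
  · constructor
    · rintro ⟨h1, h2⟩
      obtain ⟨m, hm⟩ := (hRP _).1 h1
      obtain ⟨n, hn⟩ := (hTQ _).1 h2
      refine ⟨s.pr m n, ?_⟩
      simp only [s.lf_pr, s.rt_pr]
      exact ⟨hm, hn⟩
    · rintro ⟨m, hm, hn⟩
      exact ⟨(hRP _).2 ⟨_, hm⟩, (hTQ _).2 ⟨_, hn⟩⟩

theorem Sig.or {P Q : α → Prop} (hP : Sig s P) (hQ : Sig s Q) : Sig s (fun a => P a ∨ Q a) := by
  obtain ⟨R, hR, hRP⟩ := hP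
  obtain ⟨T, hT, hTQ⟩ := hQ
  refine ⟨fun x => R x ∨ T x, FP.or hR hT, fun a => ?_⟩
  show P a ∨ Q a ↔ ∃ m, R (a, m) ∨ T (a, m)
  rw [hRP, hTQ]
  constructor
  · rintro (⟨m, hm⟩ | ⟨m, hm⟩)
    · exact ⟨m, Or.inl hm⟩
    · exact ⟨m, Or.inr hm⟩
  · rintro ⟨m, hm | hm⟩
    · exact Or.inl ⟨m, hm⟩
    · exact Or.inr ⟨m, hm⟩

/-- `BΣ⁰₁` -/
theorem sig_bound {Q : M × M → Prop} (hQ : FP s Q) (K : M)
    (h : ∀ x, x < K → ∃ m, Q (x, m)) : ∃ B, ∀ x, x < K → ∃ m, m < B ∧ Q (x, m) := by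
  have h1 : FP s (fun x : M × M => x.1 < K → Q (x.1, x.2)) :=
    FP.imp (FP.lt FR.fst (FR.const K)) hQ
  obtain ⟨f, hf, hf1, -⟩ := FR.mu (s := s) (p := fun x m : M => x < K → Q (x, m)) h1 (fun x => by
    by_cases hx : x < K
    · obtain ⟨m, hm⟩ := h x hx
      exact ⟨m, fun _ => hm⟩
    · exact ⟨0, fun h => absurd h hx⟩)
  obtain ⟨H, hH, hH0, hH1⟩ := FR.prec (s := s) (α := M) (β := M) (f := fun _ => 0)
    (g := fun x => x.2.2 + f x.2.1 + 1) (FR.const 0)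
    (FR.succ (FR.add (FR.snd' FR.snd) (FR.comp hf (FR.fst' FR.snd))))
  have h2 : ∀ n : M, ∀ x < n, f x < H 0 n := by
    refine FP.ind (s := s) ?_ ?_ ?_
    · refine FP.ballc (s := s) FR.id (p := fun n x : M => f x < H 0 n) ?_
      refine FP.lt (FR.comp hf FR.snd) ?_
      exact FR.comp₂ hH (FR.const 0) FR.fst
    · intro x hx
      exact absurd hx (not_lt.2 zero_le)
    · intro n ih x hx
      have e : H 0 (n + 1) = H 0 n + f n + 1 := hH1 0 n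
      rw [e, DSR.lt_succ_iff]
      rcases (DSR.lt_succ_iff.1 hx).lt_or_eq with h3 | h3
      · exact (ih x h3).le.trans le_self_add
      · rw [h3]; exact le_add_self
  exact ⟨H 0 K, fun x hx => ⟨f x, h2 K x hx, hf1 x hx⟩⟩

/-- bounded universal quantifier in front of a `Σ⁰₁` predicate -/
theorem Sig.ball {P : α × M → Prop} {b : α → M} (hP : Sig s P) (hb : FR s b) :
    Sig s (fun a => ∀ x, x < b a → P (a, x)) := by
  obtain ⟨R, hR, hRP⟩ := hP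
  refine ⟨fun z => ∀ x < b z.1, ∃ m < z.2, R ((z.1, x), m), ?_, fun a => ?_⟩
  · refine FP.ballc (s := s) (FR.comp hb FR.fst)
      (p := fun z x => ∃ m < z.2, R ((z.1, x), m)) ?_
    refine FP.bexc (s := s) (α := (α × M) × M) (b := fun z => z.1.2)
      (p := fun z m => R ((z.1.1, z.2), m)) (FR.snd' FR.fst) ?_
    exact FP.comp hR (FR.pair (FR.pair (FR.fst' (FR.fst' FR.fst)) (FR.snd' FR.fst)) FR.snd)
  · constructor
    · intro h
      have h1 : FP s (fun z : M × M => R ((a, z.1), z.2)) :=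
        FP.comp hR (FR.pair (FR.pair (FR.const a) FR.fst) FR.snd)
      exact sig_bound h1 (b a) fun x hx => (hRP _).1 (h x hx)
    · rintro ⟨B, hB⟩ x hx
      obtain ⟨m, -, hm⟩ := hB x hx
      exact (hRP _).2 ⟨m, hm⟩

/-- `BΣ⁰₁` for `Σ⁰₁` predicates -/
theorem sig_bound' {P : M × M → Prop} (hP : Sig s P) (K : M)
    (h : ∀ x, x < K → ∃ m, P (x, m)) : ∃ B, ∀ x, x < K → ∃ m, m < B ∧ P (x, m) := by
  obtain ⟨R, hR, hRP⟩ := hP
  have h1 : FP s (fun z : M × M => ∃ m ≤ z.2, ∃ w ≤ z.2, R ((z.1, m), w)) := by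
    refine FP.bexc_le (s := s) FR.snd (p := fun z m => ∃ w ≤ z.2, R ((z.1, m), w)) ?_
    refine FP.bexc_le (s := s) (FR.snd' FR.fst) (p := fun z w => R ((z.1.1, z.2), w)) ?_
    exact FP.comp hR (FR.pair (FR.pair (FR.fst' (FR.fst' FR.fst)) (FR.snd' FR.fst)) FR.snd)
  obtain ⟨B, hB⟩ := sig_bound h1 K (fun x hx => by
    obtain ⟨m, hm⟩ := h x hx
    obtain ⟨w, hw⟩ := (hRP _).1 hm
    exact ⟨m + w, m, le_self_add, w, le_add_self, hw⟩)
  refine ⟨B, fun x hx => ?_⟩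
  obtain ⟨z, hz, m, hm, w, -, hw⟩ := hB x hx
  exact ⟨m, lt_of_le_of_lt hm hz, (hRP _).2 ⟨w, hw⟩⟩

end EMC
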