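import Pool.Agent.Lib.MP_531058_lc.EMC.ApiC1

/-!
# Powers of 2, codes of patterns, stable steps
-/

namespace EMC

open Classical
open Pool.Agent.Lib.MP_531058_lc.RCA

variable {M : Type*} [DSR M] {s : Sys M} {α β γ : Type*} [Cd s α] [Cd s β] [Cd s γ]

/-- the function `2 ^ n` -/
theorem exists_pow (s : Sys M) : ∃ pw : M → M, FR s pw ∧ pw 0 = 1 ∧ (∀ n, pw (n + 1) = 2 * pw n) ∧
    ∀ n, 1 ≤ pw n := by
  obtain ⟨h, hh, h0, hs⟩ := FR.prec (s := s) (α := M) (β := M) (f := fun _ => (1 : M))
    (g := fun x : M × M × M => 2 * x.2.2) (FR.const (β := M) 1)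
    (FR.mul (FR.const (β := M) 2) (FR.snd' FR.snd))
  have hR : FR s (fun n : M => h 0 n) := FR.comp (g := fun x : M × M => h x.1 x.2)
    (f := fun n : M => ((0 : M), n)) hh (FR.pair (FR.const (β := M) 0) FR.id)
  refine ⟨fun n => h 0 n, hR, h0 0, fun n => hs 0 n, ?_⟩
  refine FP.ind (FP.le (FR.const (β := M) 1) hR) ?_ ?_
  · show (1 : M) ≤ h 0 0
    rw [h0]
  · intro n hn
    show (1 : M) ≤ h 0 (n + 1)
    rw [hs, two_mul]
    exact hn.trans le_self_add

/-- codes of bounded patterns (`g a n = ∑_{j<n, Q (a,j)} 2^j`): two objects have the same code iff they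
have the same pattern; the code is monotone in the pattern. -/
theorem exists_code {Q : α × M → Prop} (hQ : FP s Q) :
    ∃ (g : α → M → M) (P : M → M), FR s (fun x : α × M => g x.1 x.2) ∧ FR s P ∧
      (∀ a n, g a n < P n) ∧
      (∀ a b n, g a n = g b n ↔ ∀ j, j < n → (Q (a, j) ↔ Q (b, j))) ∧
      (∀ a b n, (∀ j, j < n → Q (a, j) → Q (b, j)) → g a n ≤ g b n) := by
  obtain ⟨pw, hpw, pw0, pws, pw1⟩ := exists_pow s
  obtain ⟨g, hg, hg0, hgs⟩ := FR.prec (s := s) (α := α) (β := M) (f := fun _ => (0 : M))
    (g := fun x : α × M × M => sel (Q (x.1, x.2.1)) (x.2.2 + pw x.2.1) x.2.2)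
    (FR.const (β := M) 0)
    (FR.sel (FP.comp hQ (FR.pair FR.fst (FR.fst' FR.snd)))
      (FR.add (FR.snd' FR.snd) (FR.comp hpw (FR.fst' FR.snd))) (FR.snd' FR.snd))
  have gR : ∀ a : α, FR s (fun n : M => g a n) := fun a =>
    FR.comp (g := fun x : α × M => g x.1 x.2) (f := fun n : M => (a, n)) hg
      (FR.pair (FR.const (β := α) a) FR.id)
  have QR : ∀ a : α, FP s (fun j : M => Q (a, j)) := fun a =>
    FP.comp (f := fun j : M => (a, j)) hQ (FR.pair (FR.const (β := α) a) FR.id)
  have gpos : ∀ a n, Q (a, n) → g a (n + 1) = g a n + pw n := fun a n h => by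
    rw [hgs]; exact sel_pos h _ _
  have gneg : ∀ a n, ¬ Q (a, n) → g a (n + 1) = g a n := fun a n h => by
    rw [hgs]; exact sel_neg h _ _
  have hlt : ∀ a n, g a n < pw n := by
    intro a
    refine FP.ind (FP.lt (gR a) hpw) ?_ fun n hn => ?_
    · rw [hg0, pw0]; exact one_pos
    · rw [pws, two_mul]
      by_cases h : Q (a, n)
      · rw [gpos a n h]; exact add_lt_add_left hn _
      · rw [gneg a n h]; exact lt_of_lt_of_le hn le_self_add
  have hball : ∀ a b : α, FP s (fun n : M => ∀ j, j < n → (Q (a, j) ↔ Q (b, j))) := fun a b =>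
    FP.ballc (b := fun n : M => n) (p := fun _ j => (Q (a, j) ↔ Q (b, j))) FR.id
      (FP.comp (f := fun x : M × M => x.2) (FP.iff (QR a) (QR b)) FR.snd)
  have hballi : ∀ a b : α, FP s (fun n : M => ∀ j, j < n → Q (a, j) → Q (b, j)) := fun a b =>
    FP.ballc (b := fun n : M => n) (p := fun _ j => (Q (a, j) → Q (b, j))) FR.id
      (FP.comp (f := fun x : M × M => x.2) (FP.imp (QR a) (QR b)) FR.snd)
  refine ⟨g, pw, hg, hpw, hlt, fun a b n => ⟨?_, ?_⟩, fun a b n => ?_⟩
  · revert n
    refine FP.ind (FP.imp (FP.eqM (gR a) (gR b)) (hball a b)) ?_ fun n ih h => ?_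
    · intro _ j hj; exact absurd hj (ApiB2_not_lt_zero j)
    · by_cases ha : Q (a, n) <;> by_cases hb : Q (b, n)
      · rw [gpos a n ha, gpos b n hb] at h
        have h' := ih (add_right_cancel h)
        intro j hj
        rcases lt_or_eq_of_le (ApiB2_lt_succ.1 hj) with h1 | h1
        · exact h' j h1
        · subst h1; exact ⟨fun _ => hb, fun _ => ha⟩
      · exfalso
        rw [gpos a n ha, gneg b n hb] at h
        have := hlt b n
        rw [← h] at this
        exact absurd this (not_lt.2 le_add_self)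
      · exfalso
        rw [gneg a n ha, gpos b n hb] at h
        have := hlt a n
        rw [h] at this
        exact absurd this (not_lt.2 le_add_self)
      · rw [gneg a n ha, gneg b n hb] at h
        have h' := ih h
        intro j hj
        rcases lt_or_eq_of_le (ApiB2_lt_succ.1 hj) with h1 | h1
        · exact h' j h1
        · subst h1; exact ⟨fun h => absurd h ha, fun h => absurd h hb⟩
  · revert n
    refine FP.ind (FP.imp (hball a b) (FP.eqM (gR a) (gR b))) ?_ fun n ih h => ?_
    · intro _; rw [hg0, hg0]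
    · have h' := ih fun j hj => h j (hj.trans (lt_add_one n))
      by_cases ha : Q (a, n)
      · rw [gpos a n ha, gpos b n ((h n (lt_add_one n)).1 ha), h']
      · rw [gneg a n ha, gneg b n (fun hb => ha ((h n (lt_add_one n)).2 hb)), h']
  · revert n
    refine FP.ind (FP.imp (hballi a b) (FP.le (gR a) (gR b))) ?_ fun n ih h => ?_
    · intro _; rw [hg0, hg0]
    · have h' := ih fun j hj => h j (hj.trans (lt_add_one n))
      by_cases ha : Q (a, n)
      · rw [gpos a n ha, gpos b n (h n (lt_add_one n) ha)]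
        exact add_le_add_left h' _
      · rw [gneg a n ha]
        by_cases hb : Q (b, n)
        · rw [gpos b n hb]; exact h'.trans le_self_add
        · rw [gneg b n hb]; exact h'

/-- a function with values `< K` which never increases does not change at some step `r < K` -/
theorem stable_step {f : M → M} (hf : FR s f) {K : M} (h0 : f 0 < K)
    (hdec : ∀ r, f (r + 1) ≤ f r) : ∃ r, r < K ∧ f (r + 1) = f r := by
  by_contra hcon
  push Not at hcon
  have key : ∀ r : M, K < r ∨ f r + r ≤ f 0 := by
    refine FP.ind (FP.or (FP.lt (FR.const (β := M) K) FR.id)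
      (FP.le (FR.add hf FR.id) (FR.const (β := M) (f 0)))) ?_ fun r hr => ?_
    · right; rw [add_zero]
    · rcases hr with h | h
      · exact Or.inl (h.trans (lt_add_one r))
      · rcases lt_or_ge r K with hrK | hrK
        · right
          have h1 : f (r + 1) + 1 ≤ f r :=
            DSR.succ_le_of_lt _ _ (lt_of_le_of_ne (hdec r) (hcon r hrK))
          calc f (r + 1) + (r + 1) = (f (r + 1) + 1) + r := by ring
            _ ≤ f r + r := add_le_add_left h1 r
            _ ≤ f 0 := h
        · left; exact lt_of_le_of_lt hrK (lt_add_one r)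
  rcases key K with h | h
  · exact lt_irrefl _ h
  · exact absurd (lt_of_le_of_lt (le_add_self.trans h) h0) (lt_irrefl _)

/-- the same for nondecreasing functions bounded by `K` -/
theorem stable_step_up {f : M → M} (hf : FR s f) {K : M} (h0 : ∀ r, f r < K)
    (hdec : ∀ r, f r ≤ f (r + 1)) : ∃ r, r < K ∧ f (r + 1) = f r := by
  by_contra hcon
  push Not at hcon
  have key : ∀ r : M, K < r ∨ r ≤ f r := by
    refine FP.ind (FP.or (FP.lt (FR.const (β := M) K) FR.id) (FP.le FR.id hf)) ?_ fun r hr => ?_
    · right; exact zero_le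
    · rcases hr with h | h
      · exact Or.inl (h.trans (lt_add_one r))
      · rcases lt_or_ge r K with hrK | hrK
        · right
          have h1 : f r + 1 ≤ f (r + 1) :=
            DSR.succ_le_of_lt _ _ (lt_of_le_of_ne (hdec r) (Ne.symm (hcon r hrK)))
          exact (add_le_add_left h 1).trans h1
        · left; exact lt_of_le_of_lt hrK (lt_add_one r)
  rcases key K with h | h
  · exact lt_irrefl _ h
  · exact absurd (lt_of_le_of_lt h (h0 K)) (lt_irrefl _)

end EMC
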