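import Pool.Agent.Lib.MP_531058_lc.EMC.ApiC2

/-!
# Strong bounding
-/

namespace EMC

open Classical
open Pool.Agent.Lib.MP_531058_lc.RCA

variable {M : Type*} [DSR M] {s : Sys M} {α β γ : Type*} [Cd s α] [Cd s β] [Cd s γ]

/-- strong `Σ⁰₁` bounding.  Proof: let `g B` be the code (`exists_code`, `n = K`) of the set
`{x < K : ∃ m < B, Q (x, m)}`; `g` is nondecreasing and bounded by `P K`.  If no `B` works then for all `B`
there is `B' > B` with `g B < g B'` (`FR.mu` gives a computable `B ↦ B'`); iterate it and use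
`stable_step_up`. -/
theorem strong_bound {Q : M × M → Prop} (hQ : FP s Q) (K : M) :
    ∃ B, ∀ x, x < K → (∃ m, Q (x, m)) → ∃ m, m < B ∧ Q (x, m) := by
  by_contra hcon
  push Not at hcon
  have hR : FP s (fun x : M × M => ∃ i < x.1, Q (x.2, i)) :=
    FP.bex (b := fun x : M × M => x.1) (p := fun z : (M × M) × M => Q (z.1.2, z.2)) FR.fst
      (FP.comp₂ hQ (FR.snd' FR.fst) FR.snd)
  obtain ⟨g, P, hg, hP, hb, he, hm⟩ := exists_code hR
  have hmono : ∀ B B', B ≤ B' → g B K ≤ g B' K := by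
    intro B B' hBB
    refine hm B B' K fun j _ h => ?_
    obtain ⟨i, hi, hq⟩ := h
    exact ⟨i, lt_of_lt_of_le hi hBB, hq⟩
  have hf : FR s (fun B : M => g B K) :=
    FR.comp₂ (g := fun x : M × M => g x.1 x.2) hg FR.id (FR.const K)
  have hstep : ∀ B : M, ∃ B', g B K < g B' K := by
    intro B
    obtain ⟨x, hxK, ⟨m, hm1⟩, hx⟩ := hcon B
    refine ⟨B + m + 1, ?_⟩
    have h1 : B ≤ B + m + 1 := by
      rw [add_assoc]
      exact le_self_add
    refine lt_of_le_of_ne (hmono _ _ h1) fun heq => ?_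
    have h2 := ((he B (B + m + 1) K).1 heq x hxK).2 ⟨m, ?_, hm1⟩
    · obtain ⟨i, hi, hq⟩ := h2
      exact hx i hi hq
    · refine DSR.lt_succ_iff.2 ?_
      exact le_add_self
  obtain ⟨h, hh, hh1, -⟩ := FR.mu (s := s) (α := M) (p := fun B B' => g B K < g B' K)
    (FP.lt (f := fun x : M × M => g x.1 K) (g := fun x : M × M => g x.2 K)
      (FR.comp hf FR.fst) (FR.comp hf FR.snd)) hstep
  obtain ⟨e, he1, he2, he3⟩ := FR.prec (s := s) (α := M) (β := M) (f := fun a => a)
    (g := fun z => h z.2.2) FR.id (FR.comp hh (FR.snd' FR.snd))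
  have hF : FR s (fun r : M => g (e 0 r) K) :=
    FR.comp hf (FR.comp₂ (g := fun x : M × M => e x.1 x.2) he1 (FR.const 0) FR.id)
  have hlt : ∀ r, g (e 0 r) K < g (e 0 (r + 1)) K := by
    intro r
    rw [he3]
    exact hh1 _
  obtain ⟨r, -, hr⟩ := stable_step_up hF (K := P K) (fun r => hb _ K) (fun r => (hlt r).le)
  exact absurd hr (hlt r).ne'

/-- bounded `Σ⁰₁` comprehension: the set `{x < K : P x}` is decidable -/
theorem sig_comprehension {P : M → Prop} (hP : Sig s P) (K : M) :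
    FP s (fun x => x < K ∧ P x) := by
  obtain ⟨Q, hQ, hPQ⟩ := hP
  obtain ⟨B, hB⟩ := strong_bound hQ K
  have h1 : FP s (fun x : M => x < K ∧ ∃ m < B, Q (x, m)) :=
    FP.and (FP.lt FR.id (FR.const K))
      (FP.bex (b := fun _ : M => B) (p := Q) (FR.const B) hQ)
  refine h1.congr fun x => and_congr_right fun hx => ?_
  rw [hPQ]
  constructor
  · intro h
    obtain ⟨m, hm, hq⟩ := hB x hx h
    exact ⟨m, hm, hq⟩
  · rintro ⟨m, -, hq⟩
    exact ⟨m, hq⟩

end EMC
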