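import Mathlib

/-!
# The finite semigroup of words in two symbols (first symbol, last symbol, alternations mod 4)

A word over `{<, >}` is read from the NEWEST symbol to the oldest.  `false` is `<`, `true` is `>`.
`none` is the empty word.
-/

namespace EMC

/-- class of a word: `none` = empty, `some (first, last, number of alternations mod 4)` -/
abbrev W := Option (Bool × Bool × Fin 4)

/-- number of alternations created at a junction -/
def jn (a b : Bool) : Fin 4 := if a = b then 0 else 1

/-- product: the left factor is the newer one -/
def mulW : W → W → W
  | none, b => b
  | a, none => a
  | some (f, l, k), some (f', l', k') => some (f, l', k + jn l f' + k')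

/-- exchange of the two symbols -/
def barW : W → W
  | none => none
  | some (f, l, k) => some (!f, !l, k)

/-- class of a one-letter word -/
def oneW (b : Bool) : W := some (b, b, 0)

/-- the value of the tournament: `first = <` xor `⌊k/2⌋` odd -/
def theta : W → Bool
  | none => true
  | some (f, _, k) => xor (!f) (decide (2 ≤ k.val))

/-- admissible classes: the parity of the number of alternations is determined by first and last -/
def okW : W → Prop
  | none => True
  | some (f, l, k) => (k.val % 2 = 1 ↔ f ≠ l)

instance (w : W) : Decidable (okW w) := by
  cases w with
  | none => exact isTrue trivial
  | some p => obtain ⟨f, l, k⟩ := p; unfold okW; infer_instance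

end EMC
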