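import Pool.Agent.Lib.MP_531058_lc.EMC.Base
import Pool.Agent.Lib.MP_531058_lc.EMC.Word

/-!
# Finite types are coded types and all functions on them are computable
-/

namespace EMC

open Classical
open Pool.Agent.Lib.MP_531058_lc.RCA

variable {M : Type*} [DSR M] {s : Sys M} {α β γ : Type*} [Cd s α] [Cd s β] [Cd s γ]

/-- numerals: the cast `ℕ → M` is injective -/
theorem natCast_inj' {m n : ℕ} : ((m : M) = (n : M)) ↔ m = n := Nat.cast_inj

/-- a function which is constant off a finite set is in the class -/
theorem ApiF_fin (s : Sys M) (A : Finset M) : ∀ (g : M → M) (d : M), (∀ m ∉ A, g m = d) →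
    g ∈ s.F := by
  induction A using Finset.induction_on with
  | empty =>
    intro g d h
    have : g = fun _ => d := funext fun m => h m (Finset.notMem_empty m)
    rw [this]
    exact s.const_mem d
  | insert a A ha ih =>
    intro g d h
    have h1 : FR s (fun m : M => if m = a then d else g m) := by
      refine ih _ d fun m hm => ?_
      by_cases hma : m = a
      · exact if_pos hma
      · show (if m = a then d else g m) = d
        rw [if_neg hma]
        refine h m fun hmA => ?_
        rcases Finset.mem_insert.1 hmA with h2 | h2
        · exact hma h2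
        · exact hm h2
    have h2 : FP s (fun m : M => m = a) := FP.eqM FR.id (FR.const (β := M) a)
    have h3 : FR s (fun m : M => sel (m = a) (g a) (if m = a then d else g m)) :=
      FR.sel h2 (FR.const (β := M) (g a)) h1
    have h4 : FR s g := by
      refine h3.congr fun m => ?_
      by_cases hma : m = a
      · rw [sel_pos hma, hma]
      · rw [sel_neg hma, if_neg hma]
    exact h4

/-- the code of an element of a finite type -/
noncomputable def ApiF_enc (M : Type*) [DSR M] (α : Type*) [Finite α] (a : α) : M :=
  ((Finite.equivFin α a).val : M)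

theorem ApiF_enc_inj {α : Type*} [Finite α] {a b : α} (h : ApiF_enc M α a = ApiF_enc M α b) :
    a = b := by
  unfold ApiF_enc at h
  rw [natCast_inj'] at h
  exact (Finite.equivFin α).injective (Fin.ext h)

/-- decoding -/
noncomputable def ApiF_dec (M : Type*) [DSR M] (α : Type*) [Finite α] [Nonempty α] (m : M) : α :=
  if h : ∃ a : α, ApiF_enc M α a = m then h.choose else Classical.arbitrary α

/-- a finite nonempty type is a coded type -/
@[reducible] noncomputable def cdOfFinite (s : Sys M) (α : Type*) [Finite α] [Nonempty α] : Cd s α where
  enc := ApiF_enc M α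
  dec := ApiF_dec M α
  dec_enc := fun a => by
    have h : ∃ b : α, ApiF_enc M α b = ApiF_enc M α a := ⟨a, rfl⟩
    unfold ApiF_dec
    rw [dif_pos h]
    exact ApiF_enc_inj h.choose_spec
  mem := by
    have : Fintype α := Fintype.ofFinite α
    refine ApiF_fin s (Finset.univ.image (ApiF_enc M α)) _
      (ApiF_enc M α (Classical.arbitrary α)) fun m hm => ?_
    have h : ¬ ∃ a : α, ApiF_enc M α a = m := by
      rintro ⟨a, ha⟩
      exact hm (Finset.mem_image.2 ⟨a, Finset.mem_univ a, ha⟩)
    show ApiF_enc M α (ApiF_dec M α m) = _
    unfold ApiF_dec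
    rw [dif_neg h]

noncomputable instance cdW : Cd s W := cdOfFinite s W

noncomputable instance cdBool : Cd s Bool := cdOfFinite s Bool

noncomputable instance cdUnit : Cd s Unit := cdOfFinite s Unit

theorem ApiF_left (a0 : α) (A : Finset α) : ∀ f : α × β → γ,
    (∀ a, FR s (fun b => f (a, b))) → (∀ a ∉ A, ∀ b, f (a, b) = f (a0, b)) → FR s f := by
  induction A using Finset.induction_on with
  | empty =>
    intro f h h0
    refine (FR.comp (h a0) FR.snd).congr fun x => ?_
    exact h0 x.1 (Finset.notMem_empty _) x.2
  | insert a1 A ha ih =>
    intro f h h0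
    have h1 : FR s (fun x : α × β => if x.1 = a1 then f (a0, x.2) else f x) := by
      refine ih _ (fun a => ?_) fun a haA b => ?_
      · by_cases haa : a = a1
        · refine (h a0).congr fun b => ?_
          exact if_pos haa
        · refine (h a).congr fun b => ?_
          exact if_neg haa
      · have e0 : (if a0 = a1 then f (a0, b) else f (a0, b)) = f (a0, b) := by
          split_ifs <;> rfl
        show (if a = a1 then f (a0, b) else f (a, b)) = if a0 = a1 then f (a0, b) else f (a0, b)
        rw [e0]
        by_cases haa : a = a1
        · exact if_pos haa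
        · rw [if_neg haa]
          refine h0 a (fun hmem => ?_) b
          rcases Finset.mem_insert.1 hmem with h2 | h2
          · exact haa h2
          · exact haA h2
    have h2 : FP s (fun x : α × β => x.1 = a1) := FP.eq FR.fst (FR.const a1)
    have h3 : FR s (fun x : α × β => f (a1, x.2)) :=
      FR.comp (g := fun b => f (a1, b)) (h a1) FR.snd
    refine (FR.sel h2 h3 h1).congr fun x => ?_
    by_cases hx : x.1 = a1
    · rw [sel_pos hx, ← hx]
    · rw [sel_neg hx, if_neg hx]

/-- a function on a finite type times a coded type is computable if all its sections are -/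
theorem FR.fin_left [Finite α] {f : α × β → γ} (h : ∀ a, FR s (fun b => f (a, b))) :
    FR s f := by
  have : Fintype α := Fintype.ofFinite α
  exact ApiF_left (Cd.dec s (0 : M)) Finset.univ f h fun a ha => absurd (Finset.mem_univ a) ha

theorem FR.of_finite [Finite α] (f : α → β) : FR s f := by
  have h : FR s (fun x : α × M => f x.1) :=
    EMC.FR.fin_left fun a => FR.const (f a)
  exact FR.comp (g := fun x : α × M => f x.1) h (FR.pair FR.id (FR.const (0 : M)))

theorem FR.of_finite₂ [Finite α] [Finite β] (f : α → β → γ) : FR s (fun p : α × β => f p.1 p.2) :=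
  EMC.FR.of_finite _

theorem FP.of_finite [Finite α] (P : α → Prop) : FP s P := by
  have h : FR s (fun a => (chi (P a) : M)) := EMC.FR.of_finite _
  exact h

theorem FP.fin_left [Finite α] {P : α × β → Prop} (h : ∀ a, FP s (fun b => P (a, b))) :
    FP s P := by
  have h1 : FR s (fun x : α × β => (chi (P x) : M)) := EMC.FR.fin_left fun a => h a
  exact h1

end EMC
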