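import Pool.Agent.Lib.MP_531058_lc.RCA.Api

/-!
# EM implies COH: basic definitions over the interface `Sys`
-/

namespace EMC

open Classical
open Pool.Agent.Lib.MP_531058_lc.RCA

variable {M : Type*} [DSR M]

/-- `Σ⁰₁` predicates -/
def Sig (s : Sys M) {α : Type*} [Cd s α] (P : α → Prop) : Prop :=
  ∃ Q : α × M → Prop, FP s Q ∧ ∀ a, P a ↔ ∃ m, Q (a, m)

/-- `BΣ⁰₂` in the form: `Π⁰₁` bounding for monotone predicates -/
def BSig2 (s : Sys M) : Prop :=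
  ∀ Q : M × M × M → Prop, FP s Q → (∀ n w w', w ≤ w' → (∀ x, Q (n, w, x)) → ∀ x, Q (n, w', x)) →
    ∀ K : M, (∀ n, n < K → ∃ w, ∀ x, Q (n, w, x)) → ∃ w, ∀ n, n < K → ∀ x, Q (n, w, x)

/-- unbounded set -/
def Unb (H : Set M) : Prop := ∀ N : M, ∃ y ∈ H, N ≤ y

/-- `H` is transitive for the tournament `x → y iff T (x,y)` (`x < y`) -/
def TrH (T : M × M → Prop) (H : Set M) : Prop :=
  ∀ x ∈ H, ∀ y ∈ H, ∀ z ∈ H, x < y → y < z →
    ¬ (T (x, y) ∧ T (y, z) ∧ ¬ T (x, z)) ∧ ¬ (¬ T (x, y) ∧ ¬ T (y, z) ∧ T (x, z))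

/-- the Erdős–Moser principle for a `Sys` -/
def EMS (s : Sys M) : Prop :=
  ∀ T : M × M → Prop, FP s T → ∃ H : Set M, FP s (fun x => x ∈ H) ∧ Unb H ∧ TrH T H

/-- cohesiveness of `C` for the sequence `p` -/
def Cohesive (p : M × M → Prop) (C : Set M) : Prop :=
  ∀ i, (∃ N, ∀ c ∈ C, N ≤ c → p (c, i)) ∨ (∃ N, ∀ c ∈ C, N ≤ c → ¬ p (c, i))

/-- the cohesiveness principle for a `Sys` -/
def COHS (s : Sys M) : Prop :=
  ∀ p : M × M → Prop, FP s p → ∃ C : Set M, FP s (fun x => x ∈ C) ∧ Unb C ∧ Cohesive p C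

end EMC
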