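import Pool.Agent.Lib.MP_531058_lc.EMC.TD

/-!
# Claim A, part 1: letters of the same node; the predicted direction

The letter `n = s.pr i c` stands for the node (prefix of length `i` of row `c`).
`B` is a computable function with `a ≤ B a`; we look at the intervals `[a, B a]`.
-/

namespace EMC

open Classical
open Pool.Agent.Lib.MP_531058_lc.RCA

variable {M : Type*} [DSR M] {s : Sys M}

/-- rows `c`, `c'` agree below `i` -/
def agr (p : M × M → Prop) (c c' i : M) : Prop := ∀ j, j < i → (p (c, j) ↔ p (c', j))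

theorem FP.agr {α : Type*} [Cd s α] {p : M × M → Prop} (hp : FP s p) {f g h : α → M} (hf : FR s f)
    (hg : FR s g) (hh : FR s h) : FP s (fun a => agr p (f a) (g a) (h a)) := by
  unfold EMC.agr
  refine FP.ballc (b := h) (p := fun (a : α) (j : M) => (p (f a, j) ↔ p (g a, j))) hh ?_
  exact FP.iff (FP.comp hp (FR.pair (FR.comp hf FR.fst) FR.snd))
    (FP.comp hp (FR.pair (FR.comp hg FR.fst) FR.snd))

theorem vis_pr {p : M × M → Prop} {t i c : M} : vis s p t (s.pr i c) ↔ agr p t c i := by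
  unfold vis agr
  rw [s.lf_pr, s.rt_pr]

/-- equal nodes have equal values -/
theorem vOf_congr {p : M × M → Prop} {i c c' : M} (h : agr p c c' i) (t : M) :
    vOf s p t (s.pr i c) = vOf s p t (s.pr i c') := by
  have hv : ∀ r, vis s p r (s.pr i c) = vis s p r (s.pr i c') := by
    intro r
    rw [vis_pr, vis_pr]
    refine propext (forall_congr' fun j => forall_congr' fun hj => ?_)
    rw [h j hj]
  unfold vOf
  simp only [hv, s.lf_pr]

/-- if a row `r0 ≤ t` visits the node `(i,c)` and all rows in `[r0, t]` which visit it go in the direction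
`b` (`b = true` iff `p (r,i)`) then the value at time `t` is `bv M b` -/
theorem vOf_eq {p : M × M → Prop} (hp : FP s p) {i c r0 t : M} {b : Bool} (h0 : r0 ≤ t)
    (hr0 : agr p r0 c i) (h : ∀ r, r0 ≤ r → r ≤ t → agr p r c i → (p (r, i) ↔ b = true)) :
    vOf s p t (s.pr i c) = bv M b := by
  have hv : FP s (fun r : M => agr p r c i) :=
    FP.agr hp FR.id (FR.const (β := M) c) (FR.const (β := M) i)
  obtain ⟨r, hr, hvr, hmax⟩ := dec_greatest hv t ⟨r0, h0, hr0⟩
  have hrr : r0 ≤ r := by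
    by_contra hcon
    exact hmax r0 (not_le.1 hcon) h0 hr0
  have hpr := h r hrr hr hvr
  unfold vOf
  cases b with
  | true =>
    rw [if_pos]
    · rfl
    · refine ⟨r, hr, vis_pr.2 hvr, ?_, fun r' h1 h2 h3 => hmax r' h1 h2 (vis_pr.1 h3)⟩
      rw [s.lf_pr]; exact hpr.2 rfl
  | false =>
    rw [if_neg, if_pos ⟨r, hr, vis_pr.2 hvr⟩]
    · rfl
    · rintro ⟨r1, hr1, hv1, hp1, hm1⟩
      rw [s.lf_pr] at hp1
      rcases lt_trichotomy r r1 with h1 | h1 | h1
      · exact hmax r1 h1 hr1 (vis_pr.1 hv1)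
      · subst h1
        have := hpr.1 hp1
        exact absurd this (by simp)
      · exact hm1 r h1 hr (vis_pr.2 hvr)

/-- letter `n` has the constant value `w` on the interval `[a, B a]` -/
def qv (v : M → M → M) (B : M → M) (a n w : M) : Prop := ∀ t, a ≤ t → t ≤ B a → v t n = w

/-- predicted direction of letter `n` at time `x`: the largest `a ≤ x` such that `n` has a constant value
in `{1,2}` on `[a, B a]` exists and this value is `2` -/
def cdir (v : M → M → M) (B : M → M) (x n : M) : Prop :=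
  ∃ a, a ≤ x ∧ qv v B a n 2 ∧ ∀ a', a < a' → a' ≤ x → ¬ qv v B a' n 1 ∧ ¬ qv v B a' n 2

theorem FP.qv {α : Type*} [Cd s α] {v : M → M → M} (hv : FR s (fun x : M × M => v x.1 x.2)) {B : M → M} (hB : FR s B)
    {f g h : α → M} (hf : FR s f) (hg : FR s g) (hh : FR s h) :
    FP s (fun a => qv v B (f a) (g a) (h a)) := by
  have h1 : FP s (fun a : α => ∀ t, t ≤ B (f a) → (f a ≤ t → v t (g a) = h a)) := by
    refine FP.ballc_le (b := fun a : α => B (f a)) (p := fun (a : α) (t : M) => (f a ≤ t → v t (g a) = h a))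
      (FR.comp hB hf) ?_
    refine FP.imp (FP.le (FR.comp hf FR.fst) FR.snd) (FP.eqM ?_ (FR.comp hh FR.fst))
    exact FR.comp (g := fun x : M × M => v x.1 x.2) hv (FR.pair FR.snd (FR.comp hg FR.fst))
  exact h1.congr fun a => ⟨fun H t a b => H t b a, fun H t a b => H t b a⟩

theorem FP.cdir {α : Type*} [Cd s α] {v : M → M → M} (hv : FR s (fun x : M × M => v x.1 x.2)) {B : M → M} (hB : FR s B)
    {f g : α → M} (hf : FR s f) (hg : FR s g) : FP s (fun a => cdir v B (f a) (g a)) := by
  have h1 : FP s (fun x : α => ∃ a, a < f x + 1 ∧ (EMC.qv v B a (g x) 2 ∧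
      ∀ a', a' ≤ f x → (a < a' → ¬ EMC.qv v B a' (g x) 1 ∧ ¬ EMC.qv v B a' (g x) 2))) := by
    refine FP.bexc (b := fun x : α => f x + 1) (p := fun (x : α) (a : M) => (EMC.qv v B a (g x) 2 ∧
      ∀ a', a' ≤ f x → (a < a' → ¬ EMC.qv v B a' (g x) 1 ∧ ¬ EMC.qv v B a' (g x) 2)))
      (FR.succ hf) (FP.and ?_ ?_)
    · exact FP.qv hv hB FR.snd (FR.comp hg FR.fst) (FR.const (β := M) 2)
    · refine FP.ballc_le (b := fun x : α × M => f x.1) (p := fun (x : α × M) (a' : M) =>
        (x.2 < a' → ¬ EMC.qv v B a' (g x.1) 1 ∧ ¬ EMC.qv v B a' (g x.1) 2))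
        (FR.comp hf FR.fst) ?_
      refine FP.imp (FP.lt (FR.snd' FR.fst) FR.snd) (FP.and (FP.not ?_) (FP.not ?_))
      · exact FP.qv hv hB FR.snd (FR.comp hg (FR.fst' FR.fst)) (FR.const (β := M) 1)
      · exact FP.qv hv hB FR.snd (FR.comp hg (FR.fst' FR.fst)) (FR.const (β := M) 2)
  refine h1.congr fun x => exists_congr fun a => ?_
  rw [ApiB2_lt_succ]
  exact and_congr_right fun _ => and_congr_right fun _ =>
    ⟨fun H a' b c => H a' c b, fun H a' b c => H a' c b⟩

theorem cdir_congr {p : M × M → Prop} {B : M → M} {i c c' : M} (h : agr p c c' i) (x : M) :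
    cdir (vOf s p) B x (s.pr i c) ↔ cdir (vOf s p) B x (s.pr i c') := by
  unfold cdir qv
  simp only [vOf_congr h]

end EMC
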