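import Pool.Agent.Lib.MP_531058_lc.EMC.CA1
import Pool.Agent.Lib.MP_531058_lc.EMC.ApiC3

/-!
# Claim A, part 2: stable directions
-/

namespace EMC

open Classical
open Pool.Agent.Lib.MP_531058_lc.RCA

variable {M : Type*} [DSR M] {s : Sys M}

/-- letter `n` is stable from time `w` on: the predicted direction is constant and the opposite value is
not constant on any interval `[x, B x]`, `x ≥ w` -/
def stb (v : M → M → M) (B : M → M) (w n : M) : Prop :=
  ∀ x, w ≤ x → (cdir v B x n ↔ cdir v B w n) ∧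
    ¬ qv v B x n (if cdir v B w n then 1 else 2)

theorem stb_mono {v : M → M → M} {B : M → M} {w w' n : M} (h : stb v B w n) (hw : w ≤ w') :
    stb v B w' n := by
  intro x hx
  have h1 := h w' hw
  have h2 := h x (hw.trans hx)
  refine ⟨h2.1.trans h1.1.symm, ?_⟩
  have h3 : (cdir v B w' n) = (cdir v B w n) := propext h1.1
  simp only [h3]
  exact h2.2

/-- an unusable letter is stable from some time on -/
theorem stb_of_unusable {v : M → M → M} (hv : FR s (fun x : M × M => v x.1 x.2)) {B : M → M} (hB : FR s B) {n : M}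
    (h : ∃ b : Bool, ∃ N, ∀ a, N ≤ a → ¬ qv v B a n (bv M b)) : ∃ w, stb v B w n := by
  obtain ⟨b, N, hN⟩ := h
  -- the opposite value
  by_cases ha : ∃ a1, N ≤ a1 ∧ qv v B a1 n (bv M (!b))
  · obtain ⟨a1, ha1, hq1⟩ := ha
    refine ⟨a1, ?_⟩
    have hmain : ∀ x, a1 ≤ x → (cdir v B x n ↔ b = false) := by
      intro x hx
      cases b with
      | false =>
        -- `bv false = 1` does not occur, `bv true = 2` occurs at `a1`
        refine ⟨fun _ => rfl, fun _ => ?_⟩
        have hF : FP s (fun a : M => qv v B a n 2) :=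
          EMC.FP.qv hv hB FR.id (FR.const (β := M) n) (FR.const (β := M) 2)
        have hq1' : qv v B a1 n 2 := hq1
        obtain ⟨a, hax, hqa, hmax⟩ := dec_greatest hF x ⟨a1, hx, hq1'⟩
        have haa1 : a1 ≤ a := by
          by_contra hcon
          exact hmax a1 (not_le.1 hcon) hx hq1'
        refine ⟨a, hax, hqa, fun a' h1 h2 => ⟨?_, hmax a' h1 h2⟩⟩
        exact hN a' (ha1.trans (haa1.trans h1.le))
      | true =>
        refine ⟨?_, fun h => absurd h (by simp)⟩
        rintro ⟨a, hax, hqa, hmax⟩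
        exfalso
        have hq1' : qv v B a1 n 1 := hq1
        rcases lt_or_ge a a1 with h1 | h1
        · exact (hmax a1 h1 hx).1 hq1'
        · exact hN a (ha1.trans h1) hqa
    intro x hx
    refine ⟨(hmain x hx).trans (hmain a1 le_rfl).symm, ?_⟩
    cases b with
    | false =>
      rw [if_pos ((hmain a1 le_rfl).2 rfl)]
      exact hN x (ha1.trans hx)
    | true =>
      rw [if_neg fun h => absurd ((hmain a1 le_rfl).1 h) (by simp)]
      exact hN x (ha1.trans hx)
  · push Not at ha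
    have hno : ∀ a, N ≤ a → ¬ qv v B a n 1 ∧ ¬ qv v B a n 2 := by
      intro a haN
      cases b with
      | false => exact ⟨hN a haN, ha a haN⟩
      | true => exact ⟨ha a haN, hN a haN⟩
    refine ⟨N, fun x hx => ⟨⟨?_, ?_⟩, ?_⟩⟩
    · rintro ⟨a, hax, hqa, hmax⟩
      have haN : a ≤ N := by
        by_contra hcon
        exact (hno a (not_le.1 hcon).le).2 hqa
      exact ⟨a, haN, hqa, fun a' h1 h2 => hmax a' h1 (h2.trans hx)⟩
    · rintro ⟨a, haN, hqa, hmax⟩
      refine ⟨a, haN.trans hx, hqa, fun a' h1 h2 => ?_⟩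
      rcases le_total a' N with h3 | h3
      · exact hmax a' h1 h3
      · exact hno a' h3
    · split_ifs
      · exact (hno x hx).1
      · exact (hno x hx).2

/-- representatives: every row `c ≥ N0` agrees below `k` with a row `c' ∈ [N0, m)` -/
theorem exists_reps {p : M × M → Prop} (hp : FP s p) (N0 k : M) :
    ∃ m, ∀ c, N0 ≤ c → ∃ c', N0 ≤ c' ∧ c' < m ∧ agr p c c' k := by
  obtain ⟨g, P', hg, -, hb, he, -⟩ := exists_code hp
  have hf : FR s (fun a : M => g a k) :=
    FR.comp₂ (g := fun x : M × M => g x.1 x.2) hg FR.id (FR.const k)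
  have hQ : FP s (fun z : M × M => N0 ≤ z.2 ∧ g z.2 k = z.1) :=
    FP.and (FP.le (FR.const (β := M) N0) FR.snd)
      (FP.eqM (f := fun z : M × M => g z.2 k) (g := fun z : M × M => z.1)
        (FR.comp (g := fun a : M => g a k) hf FR.snd) FR.fst)
  obtain ⟨m, hm⟩ := strong_bound hQ (P' k)
  refine ⟨m, fun c hc => ?_⟩
  obtain ⟨c', hc', h1, h2⟩ := hm (g c k) (hb c k) ⟨c, hc, rfl⟩
  exact ⟨c', h1, hc', fun j hj => ((he c' c k).1 h2 j hj).symm⟩

/-- all letters `(i,c)`, `i < k`, `N0 ≤ c`, are stable from time `w` on -/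
def Stab (s : Sys M) (p : M × M → Prop) (B : M → M) (N0 k w : M) : Prop :=
  ∀ i, i < k → ∀ c, N0 ≤ c → stb (vOf s p) B w (s.pr i c)

theorem Stab_mono {p : M × M → Prop} {B : M → M} {N0 k k' w w' : M} (h : Stab s p B N0 k w)
    (hw : w ≤ w') (hk : k' ≤ k) : Stab s p B N0 k' w' :=
  fun i hi c hc => stb_mono (h i (hi.trans_le hk) c hc) hw

theorem CA2_qv_congr {v : M → M → M} {B : M → M} {n n' : M} (h : ∀ t, v t n = v t n') (a w : M) :
    qv v B a n w ↔ qv v B a n' w := by
  unfold qv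
  exact forall_congr' fun t => by rw [h t]

theorem CA2_cdir_congr {v : M → M → M} {B : M → M} {n n' : M} (h : ∀ t, v t n = v t n') (x : M) :
    cdir v B x n ↔ cdir v B x n' := by
  unfold cdir
  exact exists_congr fun a => and_congr_right fun _ => and_congr (CA2_qv_congr h a 2)
    (forall_congr' fun a' => forall_congr' fun _ => forall_congr' fun _ =>
      and_congr (not_congr (CA2_qv_congr h a' 1)) (not_congr (CA2_qv_congr h a' 2)))

theorem CA2_stb_congr {v : M → M → M} {B : M → M} {n n' : M} (h : ∀ t, v t n = v t n') {w : M}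
    (hs : stb v B w n') : stb v B w n := by
  intro x hx
  have h1 := hs x hx
  have e : cdir v B w n = cdir v B w n' := propext (CA2_cdir_congr h w)
  refine ⟨(CA2_cdir_congr h x).trans (h1.1.trans (CA2_cdir_congr h w).symm), ?_⟩
  simp only [e]
  exact fun h2 => h1.2 ((CA2_qv_congr h _ _).1 h2)

theorem CA2_pr {α : Type*} [Cd s α] {f g : α → M} (hf : FR s f) (hg : FR s g) :
    FR s (fun a => s.pr (f a) (g a)) := s.pr_mem _ hf _ hg

/-- a bound for the codes `s.pr i c`, `i < k`, `c < m` -/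
theorem CA2_bound (s : Sys M) (k m : M) : ∃ K, ∀ i, i < k → ∀ c, c < m → s.pr i c < K := by
  have h1 : FP s (fun z : (M × M) × M => s.pr z.1.1 z.2 < z.1.2) :=
    FP.lt (CA2_pr (FR.fst' FR.fst) FR.snd) (FR.snd' FR.fst)
  have h2 : FP s (fun z : M × M => ∀ c < m, s.pr z.1 c < z.2) :=
    FP.ball (b := fun _ : M × M => m) (p := fun z : (M × M) × M => s.pr z.1.1 z.2 < z.1.2)
      (FR.const (β := M) m) h1
  obtain ⟨K, hK⟩ := sig_bound h2 k fun i _ => by
    have h3 : FP s (fun z : M × M => s.pr i z.1 < z.2) :=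
      FP.lt (CA2_pr (FR.const (β := M) i) FR.fst) FR.snd
    obtain ⟨b, hb⟩ := sig_bound h3 m fun c _ => ⟨s.pr i c + 1, lt_add_one _⟩
    exact ⟨b, fun c hc => by
      obtain ⟨y, hy, h4⟩ := hb c hc
      exact h4.trans hy⟩
  refine ⟨K, fun i hi c hc => ?_⟩
  obtain ⟨b, hb, h4⟩ := hK i hi
  exact (h4 c hc).trans hb

/-- uniform stable time (by `BΣ⁰₂` and representatives; note `c ≤ s.pr i c`) -/
theorem exists_Stab (hB2 : BSig2 s) {p : M × M → Prop} (hp : FP s p) {B : M → M} (hB : FR s B)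
    {N0 : M} (h : ∀ n, N0 ≤ n → ∃ w, stb (vOf s p) B w n) (k : M) : ∃ w, Stab s p B N0 k w := by
  obtain ⟨m, hm⟩ := exists_reps hp N0 k
  obtain ⟨K, hK⟩ := CA2_bound s k m
  have hv := EMC.FR.vOf (s := s) hp
  have hn : FR s (fun z : M × M × M => z.1) := FR.fst
  have hw : FR s (fun z : M × M × M => z.2.1) := FR.fst' FR.snd
  have hx : FR s (fun z : M × M × M => z.2.2) := FR.snd' FR.snd
  have hd : FP s (fun z : M × M × M => cdir (vOf s p) B z.2.1 z.1) := EMC.FP.cdir hv hB hw hn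
  have hd' : FP s (fun z : M × M × M => cdir (vOf s p) B z.2.2 z.1) := EMC.FP.cdir hv hB hx hn
  obtain ⟨w, hw'⟩ := hB2 (fun z => N0 ≤ z.1 → (z.2.1 ≤ z.2.2 →
      (cdir (vOf s p) B z.2.2 z.1 ↔ cdir (vOf s p) B z.2.1 z.1) ∧
      ¬ qv (vOf s p) B z.2.2 z.1 (if cdir (vOf s p) B z.2.1 z.1 then 1 else 2)))
    (FP.imp (FP.le (FR.const (β := M) N0) hn) (FP.imp (FP.le hw hx)
      (FP.and (FP.iff hd' hd) (FP.not (EMC.FP.qv hv hB hx hn
        (FR.ite hd (FR.const (β := M) 1) (FR.const (β := M) 2)))))))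
    (fun n w w' hww' h1 x h2 h3 => stb_mono (fun y hy => h1 y h2 hy) hww' x h3) K
    (fun n _ => by
      by_cases hN : N0 ≤ n
      · obtain ⟨w, h1⟩ := h n hN
        exact ⟨w, fun x _ h2 => h1 x h2⟩
      · exact ⟨0, fun x h1 => absurd h1 hN⟩)
  refine ⟨w, fun i hi c hc => ?_⟩
  obtain ⟨c', h1, h2, h3⟩ := hm c hc
  have h4 : stb (vOf s p) B w (s.pr i c') := fun x h5 =>
    hw' (s.pr i c') (hK i hi c' h2) x (h1.trans (s.right_le_pr i c')) h5
  refine CA2_stb_congr (fun t => ?_) h4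
  exact vOf_congr (fun j hj => h3 j (hj.trans hi)) t

end EMC
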