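import Pool.Agent.Lib.MP_531058_lc.EMC.CA2

/-!
# Claim A, part 3: rows which follow the stable directions exist arbitrarily late
-/

namespace EMC

open Classical
open Pool.Agent.Lib.MP_531058_lc.RCA

variable {M : Type*} [DSR M] {s : Sys M}

/-- row `c` follows the directions of time `w` below `k` -/
def Fol (s : Sys M) (p : M × M → Prop) (B : M → M) (w c k : M) : Prop :=
  ∀ i, i < k → (p (c, i) ↔ cdir (vOf s p) B w (s.pr i c))

theorem CA3_pr : FR s (fun q : M × M => s.pr q.1 q.2) := s.pr_mem _ s.lf_mem _ s.rt_mem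

theorem FP.Fol {α : Type*} [Cd s α] {p : M × M → Prop} (hp : FP s p) {B : M → M} (hB : FR s B)
    {f g h : α → M} (hf : FR s f) (hg : FR s g) (hh : FR s h) :
    FP s (fun a => Fol s p B (f a) (g a) (h a)) := by
  have h1 : FP s (fun x : α × M =>
      (p (g x.1, x.2) ↔ EMC.cdir (vOf s p) B (f x.1) (s.pr x.2 (g x.1)))) := by
    refine FP.iff (FP.comp hp (FR.pair (FR.comp hg FR.fst) FR.snd)) ?_
    exact FP.cdir (FR.vOf hp) hB (FR.comp hf FR.fst)
      (FR.comp₂ CA3_pr FR.snd (FR.comp hg FR.fst))
  exact FP.ballc (b := h)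
    (p := fun a i => (p (g a, i) ↔ EMC.cdir (vOf s p) B (f a) (s.pr i (g a)))) hh h1

theorem CA3_agr_mono {p : M × M → Prop} {c c' i j : M} (h : agr p c c' i) (hj : j ≤ i) :
    agr p c c' j := fun l hl => h l (hl.trans_le hj)

theorem CA3_agr_refl {p : M × M → Prop} (c i : M) : agr p c c i := fun _ _ => Iff.rfl

/-- Proof: otherwise, by `sig_induction` for `m ↦ ∃ c ≥ N', Fol w c m` (`N' = max N (max w N0)`), there is
`m < k` and `c ≥ N'` with `Fol w c m` such that no `c' ≥ N'` satisfies `Fol w c' (m+1)`. Every row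
`r ≥ N'` with `agr p r c m` satisfies `Fol w r m` (`cdir_congr`), hence `p (r, m) ↔ ¬ cdir w (m, c)`.
By `vOf_eq` the letter `s.pr m c` has the constant value `if cdir .. then 1 else 2` on `[c, B c]`:
contradiction to `stb`. -/
theorem exists_Fol {p : M × M → Prop} (hp : FP s p) {B : M → M} (hB : FR s B) {N0 k w : M}
    (h : Stab s p B N0 k w) (N : M) : ∃ c, N ≤ c ∧ Fol s p B w c k := by
  set N' : M := N + w + N0 with hN'
  have hN : N ≤ N' := le_add_right le_self_add
  have hw : w ≤ N' := le_add_right le_add_self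
  have hN0 : N0 ≤ N' := le_add_self
  have hS : Sig s (fun m : M => ∃ c, (N' ≤ c ∧ (k < m ∨ Fol s p B w c m))) := by
    refine ⟨fun x : M × M => N' ≤ x.2 ∧ (k < x.1 ∨ Fol s p B w x.2 x.1), ?_, fun m => Iff.rfl⟩
    exact FP.and (FP.le (FR.const N') FR.snd) (FP.or (FP.lt (FR.const k) FR.fst)
      (FP.Fol hp hB (FR.const w) FR.snd FR.fst))
  have key := sig_induction hS ⟨N', le_rfl, Or.inr fun i hi => absurd hi (not_lt.2 zero_le)⟩ ?_ k
  · obtain ⟨c, hc, hc'⟩ := key
    rcases hc' with hc' | hc'
    · exact absurd hc' (lt_irrefl _)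
    · exact ⟨c, hN.trans hc, hc'⟩
  · rintro m ⟨c, hc, hcm⟩
    by_cases hmk : m < k
    · rcases hcm with hcm | hcm
      · exact absurd (hcm.trans hmk) (lt_irrefl _)
      · by_contra hcon
        push Not at hcon
        -- every late row of the node deviates at `m`
        have hdev : ∀ r, N' ≤ r → agr p r c m →
            (p (r, m) ↔ ¬ cdir (vOf s p) B w (s.pr m c)) := by
          intro r hr hagr
          have h1 : ¬ Fol s p B w r (m + 1) := (hcon r hr).2
          have h2 : ∀ i, i < m → (p (r, i) ↔ cdir (vOf s p) B w (s.pr i r)) := by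
            intro i hi
            rw [hagr i hi, hcm i hi]
            exact cdir_congr (fun j hj => (hagr j (hj.trans hi)).symm) w
          have h3 : ¬ (p (r, m) ↔ cdir (vOf s p) B w (s.pr m r)) := by
            intro h3
            apply h1
            intro i hi
            rcases lt_or_eq_of_le (DSR.lt_succ_iff.1 hi) with h4 | h4
            · exact h2 i h4
            · rw [h4]; exact h3
          rw [cdir_congr hagr w] at h3
          tauto
        have hval : ∀ t, c ≤ t →
            vOf s p t (s.pr m c) = bv M (decide (¬ cdir (vOf s p) B w (s.pr m c))) := by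
          intro t ht
          refine vOf_eq hp ht (CA3_agr_refl c m) fun r hr _ hagr => ?_
          rw [hdev r (hc.trans hr) hagr, decide_eq_true_iff]
        have hstb := (h m hmk c (hN0.trans hc) c (hw.trans hc)).2
        apply hstb
        intro t ht _
        rw [hval t ht]
        unfold bv
        by_cases hd : cdir (vOf s p) B w (s.pr m c)
        · simp [hd]
        · simp [hd]
    · exact ⟨c, hc, Or.inl (lt_of_le_of_lt (not_lt.1 hmk) (lt_add_one m))⟩

/-- two rows which follow the same directions agree -/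
theorem Fol_agr {p : M × M → Prop} (hp : FP s p) {B : M → M} {w c c' k : M}
    (h : Fol s p B w c k) (h' : Fol s p B w c' k) : agr p c c' k := by
  have h1 : FP s (fun i : M => i ≤ k → agr p c c' i) :=
    FP.imp (FP.le FR.id (FR.const k)) (FP.agr hp (FR.const c) (FR.const c') FR.id)
  refine FP.ind h1 (fun _ i hi => absurd hi (not_lt.2 zero_le)) (fun n ih hn i hi => ?_) k le_rfl
  have hnk : n < k := lt_of_lt_of_le (lt_add_one n) hn
  have ihn := ih hnk.le
  rcases lt_or_eq_of_le (DSR.lt_succ_iff.1 hi) with h4 | h4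
  · exact ihn i h4
  · rw [h4, h n hnk, h' n hnk]
    exact cdir_congr ihn w

end EMC
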