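import Pool.Agent.Lib.MP_531058_lc.EMC.CA3

/-!
# Claim A: usable letters
-/

namespace EMC

open Classical
open Pool.Agent.Lib.MP_531058_lc.RCA

variable {M : Type*} [DSR M] {s : Sys M}

theorem CA4_Fol_mono {p : M × M → Prop} {B : M → M} {w c k k' : M} (h : Fol s p B w c k)
    (hk : k' ≤ k) : Fol s p B w c k' := fun i hi => h i (hi.trans_le hk)

/-- Construction of the cohesive set: `D k N` := a pair `(c, x)`, `c, x > N`, with `Fol x c k` (`FR.mu`);
`c_0 = N0`, `c_(k+1) = D k c_k` (`FR.prec`); `C = {c_k}`, decidable because `c_k` is strictly increasing. -/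
theorem cohesive_of_Stab {p : M × M → Prop} (hp : FP s p) {B : M → M} (hB : FR s B) {N0 : M}
    (h : ∀ k, ∃ w, Stab s p B N0 k w) :
    ∃ C : Set M, FP s (fun x => x ∈ C) ∧ Unb C ∧ Cohesive p C := by
  have hlf : FR s (fun z : M => s.lf z) := s.lf_mem
  have hrt : FR s (fun z : M => s.rt z) := s.rt_mem
  -- the search
  have hex : ∀ a : M × M, ∃ z : M, a.2 < s.lf z ∧ a.2 < s.rt z ∧
      Fol s p B (s.rt z) (s.lf z) a.1 := by
    rintro ⟨k, N⟩
    obtain ⟨w, hw⟩ := h k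
    have hw' : Stab s p B N0 k (w + (N + 1)) := Stab_mono hw le_self_add le_rfl
    obtain ⟨c, hc, hc'⟩ := exists_Fol hp hB hw' (N + 1)
    refine ⟨s.pr c (w + (N + 1)), ?_, ?_, ?_⟩
    · rw [s.lf_pr]
      exact lt_of_lt_of_le (lt_add_one N) hc
    · rw [s.rt_pr]
      exact lt_of_lt_of_le (lt_add_one N) le_add_self
    · rw [s.lf_pr, s.rt_pr]
      exact hc'
  have hdec : FP s (fun x : (M × M) × M => x.1.2 < s.lf x.2 ∧ x.1.2 < s.rt x.2 ∧
      Fol s p B (s.rt x.2) (s.lf x.2) x.1.1) := by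
    refine FP.and (FP.lt (FR.snd' FR.fst) (FR.comp hlf FR.snd)) (FP.and
      (FP.lt (FR.snd' FR.fst) (FR.comp hrt FR.snd)) ?_)
    exact FP.Fol hp hB (FR.comp hrt FR.snd) (FR.comp hlf FR.snd) (FR.fst' FR.fst)
  obtain ⟨D, hD, hD1, -⟩ := FR.mu (s := s) (α := M × M)
    (p := fun a z => a.2 < s.lf z ∧ a.2 < s.rt z ∧ Fol s p B (s.rt z) (s.lf z) a.1) hdec hex
  -- the iteration
  obtain ⟨g, hg, hg0, hgs⟩ := FR.prec (s := s) (α := M) (β := M) (f := fun _ => (0 : M))
    (g := fun x : M × M × M => s.lf (D (x.2.1, x.2.2))) (FR.const (β := M) 0)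
    (FR.comp hlf (FR.comp hD (FR.pair (FR.fst' FR.snd) (FR.snd' FR.snd))))
  set cc : M → M := fun n => g 0 n with hcc
  have hccR : FR s cc := FR.comp (g := fun x : M × M => g x.1 x.2)
    (f := fun n : M => ((0 : M), n)) hg (FR.pair (FR.const (β := M) 0) FR.id)
  have hcs : ∀ n, cc (n + 1) = s.lf (D (n, cc n)) := fun n => hgs 0 n
  have hstep : ∀ n, cc n < cc (n + 1) ∧ ∃ x, cc n < x ∧ Fol s p B x (cc (n + 1)) n := by
    intro n
    obtain ⟨h1, h2, h3⟩ := hD1 (n, cc n)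
    rw [hcs]
    exact ⟨h1, _, h2, h3⟩
  have hmono : ∀ m n, m < n → cc m < cc n := by
    intro m
    refine FP.ind (FP.imp (FP.lt (FR.const m) FR.id) (FP.lt (FR.const (cc m)) hccR)) ?_ ?_
    · exact fun h1 => absurd h1 (not_lt.2 zero_le)
    · intro n ih hmn
      rcases lt_or_eq_of_le (DSR.lt_succ_iff.1 hmn) with h4 | h4
      · exact (ih h4).trans (hstep n).1
      · rw [h4]
        exact (hstep n).1
  have hge : ∀ n, n ≤ cc n := by
    refine FP.ind (FP.le FR.id hccR) zero_le ?_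
    intro n ih
    exact DSR.succ_le_of_lt _ _ (lt_of_le_of_lt ih (hstep n).1)
  refine ⟨{x | ∃ m, m ≤ x ∧ cc m = x}, ?_, ?_, ?_⟩
  · exact FP.bexc_le (s := s) (b := fun x : M => x) (p := fun x m => cc m = x) FR.id
      (FP.eqM (FR.comp hccR FR.snd) FR.fst)
  · intro N
    exact ⟨cc N, ⟨N, hge N, rfl⟩, hge N⟩
  · intro i
    obtain ⟨w, hw⟩ := h (i + 1)
    set K : M := (i + 1) + w + N0 with hK
    have hKi : i + 1 ≤ K := le_add_right le_self_add
    have hKw : w ≤ K := le_add_right le_add_self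
    have hKN : N0 ≤ K := le_add_self
    -- late elements follow the directions of time `w`
    have hlate : ∀ c, (∃ m, m ≤ c ∧ cc m = c) → cc (K + 1) ≤ c → Fol s p B w c (i + 1) := by
      rintro c ⟨m, -, rfl⟩ hc
      have hm : K + 1 ≤ m := by
        by_contra hcon
        exact absurd (hmono _ _ (not_le.1 hcon)) (not_lt.2 hc)
      rcases eq_zero_or_succ m with h0 | ⟨n, rfl⟩
      · rw [h0] at hm
        exact absurd hm (not_le.2 (lt_of_le_of_lt zero_le (lt_add_one K)))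
      · have hn : K ≤ n := le_of_add_le_add_right hm
        obtain ⟨h1, x, hx, hF⟩ := hstep n
        have hxw : w ≤ x := (hKw.trans (hn.trans (hge n))).trans hx.le
        have hF' := CA4_Fol_mono hF (hKi.trans hn)
        intro j hj
        rw [hF' j hj]
        exact (hw j hj _ (hKN.trans ((hn.trans (hge n)).trans h1.le)) x hxw).1
    have hc1 := hlate (cc (K + 1)) ⟨K + 1, hge _, rfl⟩ le_rfl
    by_cases hpi : p (cc (K + 1), i)
    · left
      refine ⟨cc (K + 1), fun c hc hcK => ?_⟩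
      exact (Fol_agr hp hc1 (hlate c hc hcK) i (lt_add_one i)).1 hpi
    · right
      refine ⟨cc (K + 1), fun c hc hcK => ?_⟩
      exact fun h1 => hpi ((Fol_agr hp hc1 (hlate c hc hcK) i (lt_add_one i)).2 h1)

/-- CLAIM A -/
theorem usable (hB2 : BSig2 s) {p : M × M → Prop} (hp : FP s p)
    (hno : ¬ ∃ C : Set M, FP s (fun x => x ∈ C) ∧ Unb C ∧ Cohesive p C)
    {B : M → M} (hB : FR s B) (N0 : M) :
    ∃ n, N0 ≤ n ∧ ∀ b : Bool, ∀ N, ∃ a, N ≤ a ∧ ∀ t, a ≤ t → t ≤ B a → vOf s p t n = bv M b := by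
  by_contra hcon
  apply hno
  refine cohesive_of_Stab hp hB (N0 := N0) fun k => exists_Stab hB2 hp hB (fun n hn => ?_) k
  apply stb_of_unusable (FR.vOf hp) hB
  by_contra h1
  apply hcon
  refine ⟨n, hn, fun b N => ?_⟩
  by_contra h2
  apply h1
  refine ⟨b, N, fun a ha h3 => ?_⟩
  exact h2 ⟨a, ha, h3⟩

end EMC
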