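import Pool.Agent.Lib.MP_531058_lc.EMC.Base

/-!
# The pigeonhole principle, and Ramsey's theorem for singletons from the Erdős-Moser principle

`php`: no injection of the class from `{0, .., b}` to `{0, .., b - 1}` (counting by recursion).
`rt1_of_ems`: colour `f : M → b`; let `x → y` iff `f x = f y` (`x < y`). In a transitive set there is no
pattern `f x = f z ≠ f y`, `x < y < z`. If all colours were bounded, the successive elements of the transitive set
at which the colour changes would have pairwise different colours.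
-/

namespace EMC

open Pool.Agent.Lib.MP_531058_lc.RCA

universe u

variable {M : Type u} [DSR M] {s : Sys M}

private theorem dsr_not_lt_zero (x : M) : ¬ x < 0 := not_lt.2 zero_le

/-- pigeonhole principle: a function of the class maps `{0, .., b}` not injectively into
`{0, .., b - 1}` -/
theorem php (u : M → M) (hu : FR s u) (b : M) (hlt : ∀ i ≤ b, u i < b) :
    ∃ i j, i < j ∧ j ≤ b ∧ u i = u j := by
  by_contra hcon
  push Not at hcon
  obtain ⟨cnt, hcnt, h0, hs⟩ := FR.prec (s := s) (α := M) (β := M) (f := fun _ => (0 : M))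
    (g := fun z : M × M × M => z.2.2 + sel (u z.2.1 < z.1) 1 0)
    (FR.const (0 : M))
    (FR.add (FR.snd' FR.snd)
      (FR.sel (FP.lt (FR.comp hu (FR.fst' FR.snd)) FR.fst) (FR.const (1 : M)) (FR.const (0 : M))))
  have hcn : ∀ c : M, FR s (fun n : M => cnt c n) := fun c =>
    FR.comp (g := fun x : M × M => cnt x.1 x.2) (f := fun n : M => (c, n)) hcnt
      (FR.pair (FR.const c) FR.id)
  have hcc : ∀ n : M, FR s (fun c : M => cnt c n) := fun n =>
    FR.comp (g := fun x : M × M => cnt x.1 x.2) (f := fun c : M => (c, n)) hcnt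
      (FR.pair FR.id (FR.const n))
  have hs1 : ∀ c n, u n < c → cnt c (n + 1) = cnt c n + 1 := by
    intro c n h
    rw [hs c n]
    simp only
    rw [sel_pos h]
  have hs2 : ∀ c n, ¬ u n < c → cnt c (n + 1) = cnt c n := by
    intro c n h
    rw [hs c n]
    simp only
    rw [sel_neg h, add_zero]
  -- all values are `< b`
  have hb : ∀ n, n ≤ b + 1 → cnt b n = n := by
    refine FP.ind (p := fun n => n ≤ b + 1 → cnt b n = n)
      (FP.imp (FP.le FR.id (FR.const (b + 1))) (FP.eqM (hcn b) FR.id)) (fun _ => h0 b) ?_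
    intro n ih hn
    have hn' : n ≤ b := le_of_add_le_add_right hn
    rw [hs1 b n (hlt n hn'), ih (le_trans hn' (le_of_lt (lt_add_one b)))]
  -- nothing is `< 0`
  have hz : ∀ n, cnt 0 n = 0 := by
    refine FP.ind (p := fun n => cnt 0 n = 0) (FP.eqM (hcn 0) (FR.const 0)) (h0 0) ?_
    intro n ih
    rw [hs2 0 n (dsr_not_lt_zero _), ih]
  -- comparison of `c` and `c + 1`
  have hc : ∀ c : M, ∀ n, n ≤ b + 1 → (cnt (c + 1) n = cnt c n ∧ ∀ i < n, u i ≠ c) ∨
      (cnt (c + 1) n = cnt c n + 1 ∧ ∃ i < n, u i = c) := by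
    intro c
    have hui : FP s (fun x : M × M => u x.2 = c) :=
      FP.eqM (FR.comp hu FR.snd) (FR.const c)
    refine FP.ind (s := s) (p := fun n => n ≤ b + 1 →
      (cnt (c + 1) n = cnt c n ∧ ∀ i < n, u i ≠ c) ∨
      (cnt (c + 1) n = cnt c n + 1 ∧ ∃ i < n, u i = c)) ?_ ?_ ?_
    · exact FP.imp (FP.le FR.id (FR.const (b + 1)))
        (FP.or (FP.and (FP.eqM (hcn (c + 1)) (hcn c)) (FP.ballc FR.id (FP.not hui)))
          (FP.and (FP.eqM (hcn (c + 1)) (FR.add (hcn c) (FR.const 1))) (FP.bexc FR.id hui)))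
    · intro _
      left
      refine ⟨by rw [h0, h0], fun i hi => absurd hi (dsr_not_lt_zero i)⟩
    · intro n ih hn
      have hn' : n ≤ b := le_of_add_le_add_right hn
      have hn'' : n ≤ b + 1 := le_trans hn' (le_of_lt (lt_add_one b))
      have ih' := ih hn''
      rcases lt_trichotomy (u n) c with h | h | h
      · have h1 := hs1 c n h
        have h2 := hs1 (c + 1) n (lt_trans h (lt_add_one c))
        rcases ih' with ⟨h3, h4⟩ | ⟨h3, i, hi, h4⟩
        · left
          refine ⟨by rw [h1, h2, h3], fun i hi => ?_⟩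
          rcases lt_or_eq_of_le (DSR.lt_succ_iff.1 hi) with h5 | h5
          · exact h4 i h5
          · rw [h5]; exact ne_of_lt h
        · right
          exact ⟨by rw [h1, h2, h3], i, lt_trans hi (lt_add_one n), h4⟩
      · have h1 := hs2 c n (by rw [h]; exact lt_irrefl c)
        have h2 := hs1 (c + 1) n (by rw [h]; exact lt_add_one c)
        rcases ih' with ⟨h3, h4⟩ | ⟨h3, i, hi, h4⟩
        · right
          exact ⟨by rw [h1, h2, h3], n, lt_add_one n, h⟩
        · exact absurd (h4.trans h.symm) (hcon i n hi hn')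
      · have h1 := hs2 c n (not_lt.2 h.le)
        have h2 := hs2 (c + 1) n (not_lt.2 (DSR.succ_le_of_lt _ _ h))
        rcases ih' with ⟨h3, h4⟩ | ⟨h3, i, hi, h4⟩
        · left
          refine ⟨by rw [h1, h2, h3], fun i hi => ?_⟩
          rcases lt_or_eq_of_le (DSR.lt_succ_iff.1 hi) with h5 | h5
          · exact h4 i h5
          · rw [h5]; exact ne_of_gt h
        · right
          exact ⟨by rw [h1, h2, h3], i, lt_trans hi (lt_add_one n), h4⟩
  have hle : ∀ c : M, cnt c (b + 1) ≤ c := by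
    refine FP.ind (p := fun c => cnt c (b + 1) ≤ c) (FP.le (hcc (b + 1)) FR.id) (by rw [hz]) ?_
    intro c ih
    rcases hc c (b + 1) le_rfl with ⟨h1, _⟩ | ⟨h1, _⟩
    · rw [h1]; exact le_trans ih (le_of_lt (lt_add_one c))
    · rw [h1]; exact add_le_add_left ih 1
  have h1 := hle b
  rw [hb (b + 1) le_rfl] at h1
  exact absurd h1 (not_le.2 (lt_add_one b))

/-- Ramsey's theorem for singletons from the Erdős-Moser principle -/
theorem rt1_of_ems (h : EMS s) : s.RT1 := by
  intro f hf b hb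
  by_contra hcon
  push Not at hcon
  have hff : FR s f := hf
  obtain ⟨H, hH, hU, hT⟩ := h (fun x => f x.1 = f x.2) (FP.eqM (FR.comp hff FR.fst) (FR.comp hff FR.snd))
  have hnext : ∀ x, ∃ y, x < y ∧ y ∈ H ∧ f y ≠ f x := by
    intro x
    obtain ⟨N, hN⟩ := hcon (f x) (hb x)
    obtain ⟨y, hy, hy2⟩ := hU (max N (x + 1))
    exact ⟨y, lt_of_lt_of_le (lt_add_one x) (le_trans (le_max_right _ _) hy2), hy,
      hN y (le_trans (le_max_left _ _) hy2)⟩
  obtain ⟨nx, hnx, h1, _⟩ := FR.mu (s := s) (α := M) (p := fun x y => x < y ∧ y ∈ H ∧ f y ≠ f x)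
    (FP.and (FP.lt FR.fst FR.snd) (FP.and (FP.comp (p := fun x : M => x ∈ H) hH FR.snd)
      (FP.not (FP.eqM (FR.comp hff FR.snd) (FR.comp hff FR.fst))))) hnext
  obtain ⟨x0, hx0, _⟩ := hU 0
  obtain ⟨g, hg, hg0, hgs⟩ := FR.prec (s := s) (α := M) (β := M) (f := fun _ => x0)
    (g := fun z : M × M × M => nx z.2.2) (FR.const x0) (FR.comp hnx (FR.snd' FR.snd))
  have hgn : FR s (fun n : M => g 0 n) :=
    FR.comp (g := fun x : M × M => g x.1 x.2) (f := fun n : M => ((0 : M), n)) hg
      (FR.pair (FR.const 0) FR.id)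
  have hgs' : ∀ n, g 0 (n + 1) = nx (g 0 n) := fun n => hgs 0 n
  have hin : ∀ n, g 0 n ∈ H := by
    refine FP.ind (p := fun n => g 0 n ∈ H) (FP.comp (p := fun x : M => x ∈ H) hH hgn)
      (by rw [hg0]; exact hx0) ?_
    intro n _
    rw [hgs']
    exact (h1 _).2.1
  have hmono : ∀ j, ∀ i < j, g 0 i < g 0 j := by
    refine FP.ind (s := s) (p := fun j => ∀ i < j, g 0 i < g 0 j)
      (FP.ballc FR.id (FP.lt (FR.comp hgn FR.snd) (FR.comp hgn FR.fst)))
      (fun i hi => absurd hi (dsr_not_lt_zero i)) ?_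
    intro n ih i hi
    have h2 : g 0 n < g 0 (n + 1) := by rw [hgs']; exact (h1 _).1
    rcases lt_or_eq_of_le (DSR.lt_succ_iff.1 hi) with h5 | h5
    · exact lt_trans (ih i h5) h2
    · rw [h5]; exact h2
  have hch : ∀ n, f (g 0 (n + 1)) ≠ f (g 0 n) := by
    intro n
    rw [hgs']
    exact (h1 _).2.2
  obtain ⟨i, j, hij, _, he⟩ := php (s := s) (fun n => f (g 0 n)) (FR.comp hff hgn) b
    (fun i _ => hb _)
  rcases lt_or_eq_of_le (DSR.succ_le_of_lt i j hij) with h2 | h2
  · refine (hT _ (hin i) _ (hin (i + 1)) _ (hin j) (hmono _ _ (lt_add_one i))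
      (hmono _ _ h2)).2 ⟨fun h3 => hch i ?_, fun h3 => hch i ?_, he⟩
    · exact h3.symm
    · exact h3.trans he.symm
  · refine hch i ?_
    rw [h2]
    exact he.symm

end EMC
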