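import Pool.Agent.Lib.MP_531058_lc.EMC.Base

/-!
# `BΣ⁰₂` from Ramsey's theorem for singletons
-/

namespace EMC

open Pool.Agent.Lib.MP_531058_lc.RCA

universe u

variable {M : Type u} [DSR M] {s : Sys M}

/-- `BΣ⁰₂` from Ramsey's theorem for singletons -/
theorem bsig2_of_rt1 (h : s.RT1) : BSig2 s := by
  intro Q hQ hmono K hK
  by_contra hcon
  push Not at hcon
  have hlf : FR s s.lf := s.lf_mem
  have hrt : FR s s.rt := s.rt_mem
  obtain ⟨g, hg, h1, _⟩ := FR.mu (s := s) (α := M)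
    (p := fun w i => s.lf i < K ∧ ¬ Q (s.lf i, w, s.rt i))
    (FP.and (FP.lt (FR.comp hlf FR.snd) (FR.const K))
      (FP.not (FP.comp hQ (FR.pair (FR.comp hlf FR.snd) (FR.pair FR.fst (FR.comp hrt FR.snd))))))
    (fun w => by
      obtain ⟨n, hn, x, hx⟩ := hcon w
      exact ⟨s.pr n x, by rw [s.lf_pr, s.rt_pr]; exact ⟨hn, hx⟩⟩)
  obtain ⟨c, hc, h2⟩ := h (fun w => s.lf (g w)) (s.comp_mem _ s.lf_mem _ hg) K (fun w => (h1 w).1)
  obtain ⟨w, hw⟩ := hK c hc
  obtain ⟨w', hw', he⟩ := h2 w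
  have he' : s.lf (g w') = c := he
  have h3 := (h1 w').2
  rw [he'] at h3
  exact h3 (hmono c w w' hw' hw _)

/-- uniform bounding: if for every `t < K` the relation `R (t, x)` holds for all large `x`, then
the bound can be chosen independent of `t` -/
theorem bounding_of_rt1 (h : s.RT1) (R : M × M → Prop) (hR : FP s R) (K : M)
    (hK : ∀ t < K, ∃ N, ∀ x, N ≤ x → R (t, x)) : ∃ N, ∀ t < K, ∀ x, N ≤ x → R (t, x) := by
  obtain ⟨w, hw⟩ := bsig2_of_rt1 h (fun z => z.2.1 ≤ z.2.2 → R (z.1, z.2.2))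
    (FP.imp (FP.le (FR.fst' FR.snd) (FR.snd' FR.snd)) (FP.comp hR (FR.pair FR.fst (FR.snd' FR.snd))))
    (fun n w w' hw hx x hx' => hx x (le_trans hw hx')) K (fun n hn => hK n hn)
  exact ⟨w, fun t ht x hx => hw t ht x hx⟩

end EMC
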