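import Pool.Agent.Lib.MP_531058_lc.EMC.ApiC2

/-!
# Consequences of `BΣ⁰₂`: unbounded colours, homogenisation
-/

namespace EMC

open Classical
open Pool.Agent.Lib.MP_531058_lc.RCA

variable {M : Type*} [DSR M] {s : Sys M}

theorem unb_color (hB2 : BSig2 s) {f : M → M} (hf : FR s f) {K : M} (hK : ∀ n, f n < K) :
    ∃ c, c < K ∧ ∀ N, ∃ n, N ≤ n ∧ f n = c := by
  by_contra hcon
  push Not at hcon
  obtain ⟨w, hw⟩ := hB2 (fun z => z.2.1 ≤ z.2.2 → f z.2.2 ≠ z.1)
    (FP.imp (FP.le (FR.fst' FR.snd) (FR.snd' FR.snd))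
      (FP.not (FP.eqM (FR.comp hf (FR.snd' FR.snd)) FR.fst)))
    (fun n w w' hw hx x hx' => hx x (le_trans hw hx')) K (fun n hn => hcon n hn)
  exact hw (f w) (hK w) w le_rfl rfl

/-- homogenisation of `K` predicates along a computable reindexing -/
theorem homog (hB2 : BSig2 s) {P : M × M → Prop} (hP : FP s P) (K : M) :
    ∃ ν : M → M, FR s ν ∧ (∀ N, N ≤ ν N) ∧
      ∀ N N' x, x < K → (P (ν N, x) ↔ P (ν N', x)) := by
  obtain ⟨g, P', hg, -, hb, he, -⟩ := exists_code hP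
  have hf : FR s (fun a : M => g a K) :=
    FR.comp₂ (g := fun x : M × M => g x.1 x.2) hg FR.id (FR.const K)
  obtain ⟨c, -, hc⟩ := unb_color hB2 hf (K := P' K) (fun n => hb n K)
  obtain ⟨ν, hν, h1, -⟩ := FR.mu (s := s) (α := M) (p := fun N n => N ≤ n ∧ g n K = c)
    (FP.and (FP.le FR.fst FR.snd) (FP.eqM (f := fun x : M × M => g x.2 K) (g := fun _ => c)
      (FR.comp (g := fun a : M => g a K) hf FR.snd) (FR.const (β := M) c))) hc
  refine ⟨ν, hν, fun N => (h1 N).1, fun N N' x hx => ?_⟩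
  exact (he (ν N) (ν N') K).1 ((h1 N).2.trans (h1 N').2.symm) x hx

/-- the same for a finite family -/
theorem homog_fin (hB2 : BSig2 s) {ι : Type*} [Finite ι] {P : ι → M × M → Prop}
    (hP : ∀ i, FP s (P i)) (K : M) :
    ∃ ν : M → M, FR s ν ∧ (∀ N, N ≤ ν N) ∧
      ∀ i N N' x, x < K → (P i (ν N, x) ↔ P i (ν N', x)) := by
  have : Fintype ι := Fintype.ofFinite ι
  have key : ∀ A : Finset ι, ∃ ν : M → M, FR s ν ∧ (∀ N, N ≤ ν N) ∧
      ∀ i ∈ A, ∀ N N' x, x < K → (P i (ν N, x) ↔ P i (ν N', x)) := by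
    intro A
    induction A using Finset.induction_on with
    | empty => exact ⟨fun N => N, FR.id, fun N => le_rfl, fun i hi => absurd hi (Finset.notMem_empty i)⟩
    | insert i A _ ih =>
      obtain ⟨ν, hν, h1, h2⟩ := ih
      obtain ⟨ν', hν', h1', h2'⟩ := homog hB2 (P := fun z : M × M => P i (ν z.1, z.2))
        (FP.comp₂ (hP i) (FR.comp hν FR.fst) FR.snd) K
      refine ⟨fun N => ν (ν' N), FR.comp hν hν', fun N => (h1' N).trans (h1 _),
        fun j hj N N' x hx => ?_⟩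
      rcases Finset.mem_insert.1 hj with h | h
      · rw [h]
        exact h2' N N' x hx
      · exact h2 j h _ _ x hx
  obtain ⟨ν, hν, h1, h2⟩ := key Finset.univ
  exact ⟨ν, hν, h1, fun i => h2 i (Finset.mem_univ i)⟩

end EMC
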