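import Pool.Agent.Lib.MP_531058_lc.FL.Core
import Pool.Agent.Lib.MP_531058_lc.EMC.Word

/-!
# EMC.FinC: the finite core, in terms of `W` (complete)

`stpW Z Z0 σ τ n` processes the levels `< n` of a pair of states `σ, τ` (functions of the level):
`none` if `σ` and `τ` agree on the levels `< n`, otherwise `some (i, d, p)` with the last level
`i < n` where they differ, `d = σ i`, and `p` the product of all words below level `i`:
the word below the first level `j₀` of difference is `Z0 j₀ (σ j₀)`, the word between consecutive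
levels `i < j` of difference is `Z i j (σ i) (σ j)` (it stands to the left, it is newer).
`wordW Z Z0 σ τ q` is the word below level `q`, for a level `q` of difference.

`finite_coreW` is the finite lemma with the Ramsey argument included. `Q` is a standard number.
-/

namespace EMC

open Pool.Agent.Lib.MP_531058_lc.FL

def stpW (Z : ℕ → ℕ → Bool → Bool → W) (Z0 : ℕ → Bool → W) (σ τ : ℕ → Bool) :
    ℕ → Option (ℕ × Bool × W)
  | 0 => none
  | n + 1 =>
    if σ n = τ n then stpW Z Z0 σ τ n
    else match stpW Z Z0 σ τ n with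
      | none => some (n, σ n, Z0 n (σ n))
      | some (i, d, p) => some (n, σ n, mulW (Z i n d (σ n)) p)

def wordW (Z : ℕ → ℕ → Bool → Bool → W) (Z0 : ℕ → Bool → W) (σ τ : ℕ → Bool) (q : ℕ) : W :=
  match stpW Z Z0 σ τ (q + 1) with
  | none => none
  | some (_, _, p) => p

/-- translation of classes -/
def toW : S1 → W
  | S1.one => none
  | S1.cl f k1 k0 => some (f, xor f k0,
      match k1, k0 with
      | false, false => 0
      | false, true => 1
      | true, false => 2
      | true, true => 3)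

/-- translation of classes -/
def ofW : W → S1
  | none => S1.one
  | some (f, _, k) => S1.cl f (decide (2 ≤ k.val)) (decide (k.val % 2 = 1))

lemma toW_ofW {a : W} (ha : okW a) : toW (ofW a) = a := by
  rcases a with _ | ⟨f, l, k⟩
  · rfl
  · revert ha
    unfold okW
    revert f l k
    decide

lemma ofW_toW (a : S1) : ofW (toW a) = a := by
  rcases a with _ | ⟨f, k1, k0⟩
  · rfl
  · cases f <;> cases k1 <;> cases k0 <;> rfl

lemma toW_mul (a b : S1) : toW (a * b) = mulW (toW a) (toW b) := by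
  rcases a with _ | ⟨f, k1, k0⟩
  · rcases b with _ | ⟨f', k1', k0'⟩ <;> rfl
  rcases b with _ | ⟨f', k1', k0'⟩
  · rfl
  · cases f <;> cases k1 <;> cases k0 <;> cases f' <;> cases k1' <;> cases k0' <;> rfl

lemma toW_bar (a : S1) : toW (S1.bar a) = barW (toW a) := by
  rcases a with _ | ⟨f, k1, k0⟩
  · rfl
  · cases f <;> cases k1 <;> cases k0 <;> rfl

lemma theta_toW (a : S1) : theta (toW a) = S1.th a := by
  rcases a with _ | ⟨f, k1, k0⟩
  · rfl
  · cases f <;> cases k1 <;> cases k0 <;> rfl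

lemma toW_inj {a b : S1} (h : toW a = toW b) : a = b := by
  rw [← ofW_toW a, h, ofW_toW]

lemma okW_toW (a : S1) : okW (toW a) := by
  rcases a with _ | ⟨f, k1, k0⟩
  · trivial
  · cases f <;> cases k1 <;> cases k0 <;> decide

lemma okW_mulW {a b : W} (ha : okW a) (hb : okW b) : okW (mulW a b) := by
  rw [← toW_ofW ha, ← toW_ofW hb, ← toW_mul]
  exact okW_toW _

lemma okW_barW {a : W} (ha : okW a) : okW (barW a) := by
  rw [← toW_ofW ha, ← toW_bar]
  exact okW_toW _

lemma okW_oneW (b : Bool) : okW (oneW b) := by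
  cases b <;> decide

lemma mulW_assoc (a b c : W) : mulW (mulW a b) c = mulW a (mulW b c) := by
  rcases a with _ | ⟨f, l, k⟩
  · rcases b with _ | ⟨f', l', k'⟩ <;> rcases c with _ | ⟨f'', l'', k''⟩ <;> rfl
  rcases b with _ | ⟨f', l', k'⟩
  · rcases c with _ | ⟨f'', l'', k''⟩ <;> rfl
  rcases c with _ | ⟨f'', l'', k''⟩
  · rfl
  · simp only [mulW, Option.some.injEq, Prod.mk.injEq, true_and]
    abel

lemma mulW_none (a : W) : mulW a none = a := by
  rcases a with _ | ⟨f, l, k⟩ <;> rfl

lemma none_mulW (a : W) : mulW none a = a := by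
  rcases a with _ | ⟨f, l, k⟩ <;> rfl

lemma barW_mulW (a b : W) : barW (mulW a b) = mulW (barW a) (barW b) := by
  rcases a with _ | ⟨f, l, k⟩
  · rcases b with _ | ⟨f', l', k'⟩ <;> rfl
  rcases b with _ | ⟨f', l', k'⟩
  · rfl
  · cases l <;> cases f' <;> rfl

lemma barW_oneW (b : Bool) : barW (oneW b) = oneW (!b) := rfl

lemma barW_barW (a : W) : barW (barW a) = a := by
  rcases a with _ | ⟨f, l, k⟩
  · rfl
  · simp [barW]

lemma theta_barW {a : W} (ha : a ≠ none) : theta (barW a) = !theta a := by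
  rcases a with _ | ⟨f, l, k⟩
  · exact absurd rfl ha
  · cases f <;> simp [theta, barW]

lemma mulW_ne_none_left {a b : W} (ha : a ≠ none) : mulW a b ≠ none := by
  rcases a with _ | ⟨f, l, k⟩
  · exact absurd rfl ha
  rcases b with _ | ⟨f', l', k'⟩ <;> simp [mulW]

lemma mulW_ne_none_right {a b : W} (hb : b ≠ none) : mulW a b ≠ none := by
  rcases b with _ | ⟨f', l', k'⟩
  · exact absurd rfl hb
  rcases a with _ | ⟨f, l, k⟩ <;> simp [mulW]

/-- the state of `stpW` is the translation of the state of `stp` -/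
def toSt : Option (ℕ × Bool × S1) → Option (ℕ × Bool × W)
  | none => none
  | some (i, d, p) => some (i, d, toW p)

lemma stpW_eq {Q : ℕ} {Z : ℕ → ℕ → Bool → Bool → W} {Z0 : ℕ → Bool → W}
    (hZ : ∀ i j d d', i < j → j < Q → okW (Z i j d d')) (hZ0 : ∀ i d, i < Q → okW (Z0 i d))
    (σ τ : ℕ → Bool) : ∀ n ≤ Q,
      stpW Z Z0 σ τ n =
        toSt (stp (fun i j d d' => ofW (Z i j d d')) (fun i d => ofW (Z0 i d)) σ τ n) ∧
      ∀ i d p, stp (fun i j d d' => ofW (Z i j d d')) (fun i d => ofW (Z0 i d)) σ τ n =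
        some (i, d, p) → i < n := by
  intro n
  induction n with
  | zero => intro _; exact ⟨rfl, by intro i d p h; simp [stp] at h⟩
  | succ n ih =>
    intro hn
    obtain ⟨ih1, ih2⟩ := ih (by omega)
    constructor
    · rw [stpW, stp]
      split_ifs with h
      · exact ih1
      · rw [ih1]
        cases hs : stp (fun i j d d' => ofW (Z i j d d')) (fun i d => ofW (Z0 i d)) σ τ n with
        | none => simp only [toSt]; rw [toW_ofW (hZ0 n _ (by omega))]
        | some s =>
          obtain ⟨i, d, p⟩ := s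
          have hi := ih2 i d p hs
          simp only [toSt]
          rw [toW_mul, toW_ofW (hZ i n d _ hi (by omega))]
    · intro i d p h
      rw [stp] at h
      split_ifs at h with h1
      · exact Nat.lt_succ_of_lt (ih2 i d p h)
      · split at h
        · simp only [Option.some.injEq, Prod.mk.injEq] at h; omega
        · simp only [Option.some.injEq, Prod.mk.injEq] at h; omega

lemma wordW_eq {Q : ℕ} {Z : ℕ → ℕ → Bool → Bool → W} {Z0 : ℕ → Bool → W}
    (hZ : ∀ i j d d', i < j → j < Q → okW (Z i j d d')) (hZ0 : ∀ i d, i < Q → okW (Z0 i d))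
    (σ τ : ℕ → Bool) {q : ℕ} (hq : q < Q) :
      wordW Z Z0 σ τ q =
        toW (word (fun i j d d' => ofW (Z i j d d')) (fun i d => ofW (Z0 i d)) σ τ q) := by
  have h := (stpW_eq hZ hZ0 σ τ (q + 1) (by omega)).1
  unfold wordW word
  rw [h]
  cases stp (fun i j d d' => ofW (Z i j d d')) (fun i d => ofW (Z0 i d)) σ τ (q + 1) with
  | none => rfl
  | some s => rfl

/-- **The finite core.** There is a standard number `Q` such that for all families of admissible
nonempty words `Z i j d d'` (`i < j < Q`) and admissible words `Z0 i d`, both symmetric under the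
exchange of `<` and `>`, there is a top level `q < Q` such that for all nonempty admissible classes
`U, V` there are states `σ, ρ` (with bit `0` at `q`) and `τ, τ'` (with bit `1` at `q`) such that
below `q` the supports of `σ, ρ` are disjoint from the supports of `τ, τ'`, and
`θ(U w(σ,τ)) = θ(V w(τ,ρ)) = 1`, `θ(U w(σ,τ')) = θ(V w(τ',ρ)) = 0`. -/
theorem finite_coreW : ∃ Q : ℕ, ∀ (Z : ℕ → ℕ → Bool → Bool → W) (Z0 : ℕ → Bool → W),
    (∀ i j d d', i < j → j < Q → okW (Z i j d d') ∧ Z i j d d' ≠ none) →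
    (∀ i d, i < Q → okW (Z0 i d)) →
    (∀ i j d d', i < j → j < Q → Z i j (!d) (!d') = barW (Z i j d d')) →
    (∀ i d, i < Q → Z0 i (!d) = barW (Z0 i d)) →
    ∃ q < Q, ∀ U V : W, okW U → okW V → U ≠ none → V ≠ none → ∃ σ ρ τ τ' : ℕ → Bool,
      (σ q = false ∧ ρ q = false ∧ τ q = true ∧ τ' q = true) ∧
      (∀ j < q, ¬ (σ j = true ∧ τ j = true) ∧ ¬ (σ j = true ∧ τ' j = true) ∧
        ¬ (ρ j = true ∧ τ j = true) ∧ ¬ (ρ j = true ∧ τ' j = true)) ∧
      theta (mulW U (wordW Z Z0 σ τ q)) = true ∧ theta (mulW V (wordW Z Z0 τ ρ q)) = true ∧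
      theta (mulW U (wordW Z Z0 σ τ' q)) = false ∧ theta (mulW V (wordW Z Z0 τ' ρ q)) = false := by
  obtain ⟨Q, hQ⟩ := finite_core
  refine ⟨Q, fun Z Z0 h1 h2 h3 h4 => ?_⟩
  have hok : ∀ i j d d', i < j → j < Q → okW (Z i j d d') := fun i j d d' a b => (h1 i j d d' a b).1
  obtain ⟨q, hq, hq2⟩ := hQ (fun i j d d' => ofW (Z i j d d')) (fun i d => ofW (Z0 i d))
    (fun i j d d' a b h => (h1 i j d d' a b).2 (by
      have : toW (ofW (Z i j d d')) = toW S1.one := congrArg toW h
      rw [toW_ofW (hok i j d d' a b)] at this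
      exact this))
    (fun i j d d' a b => toW_inj (by
      rw [toW_bar, toW_ofW (hok i j _ _ a b), toW_ofW (hok i j _ _ a b)]
      exact h3 i j d d' a b))
    (fun i d a => toW_inj (by
      rw [toW_bar, toW_ofW (h2 i _ a), toW_ofW (h2 i _ a)]
      exact h4 i d a))
  refine ⟨q, hq, fun U V hU hV hU1 hV1 => ?_⟩
  have hU2 : ofW U ≠ 1 := fun h => hU1 (by
    have : toW (ofW U) = toW S1.one := congrArg toW h
    rwa [toW_ofW hU] at this)
  have hV2 : ofW V ≠ 1 := fun h => hV1 (by
    have : toW (ofW V) = toW S1.one := congrArg toW h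
    rwa [toW_ofW hV] at this)
  obtain ⟨σ, ρ, τ, τ', ht, hdis, g1, g2, g3, g4⟩ := hq2 (ofW U) (ofW V) hU2 hV2
  have tr : ∀ (A : W) (hA : okW A) (s t : ℕ → Bool),
      theta (mulW A (wordW Z Z0 s t q)) =
        S1.th (ofW A * word (fun i j d d' => ofW (Z i j d d')) (fun i d => ofW (Z0 i d)) s t q) := by
    intro A hA s t
    rw [wordW_eq hok h2 s t hq, ← theta_toW, toW_mul, toW_ofW hA]
  refine ⟨σ, ρ, τ, τ', ht, hdis, ?_, ?_, ?_, ?_⟩
  · rw [tr U hU]; exact g1
  · rw [tr V hV]; exact g2
  · rw [tr U hU]; exact g3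
  · rw [tr V hV]; exact g4

end EMC
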