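import Pool.Agent.Lib.MP_531058_lc.EMC.TC

/-!
# Existence of the tournament
-/

namespace EMC

open Classical
open Pool.Agent.Lib.MP_531058_lc.RCA

variable {M : Type*} [DSR M] {s : Sys M} {α β γ : Type*} [Cd s α] [Cd s β] [Cd s γ]

/-- visits are decidable -/
theorem FP.vis {p : M × M → Prop} (hp : FP s p) {f g : α → M} (hf : FR s f) (hg : FR s g) :
    FP s (fun a => vis s p (f a) (g a)) := by
  have h1 : FP s (fun x : M × M => EMC.vis s p x.1 x.2) := by
    unfold EMC.vis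
    refine FP.ballc (b := fun x : M × M => s.lf x.2)
      (p := fun (x : M × M) (j : M) => p (x.1, j) ↔ p (s.rt x.2, j)) ?_ ?_
    · exact FR.comp (FR.of_mem s.lf_mem) FR.snd
    · refine FP.iff ?_ ?_
      · exact FP.comp hp (FR.pair (FR.fst' FR.fst) FR.snd)
      · exact FP.comp hp (FR.pair (FR.comp (FR.of_mem s.rt_mem) (FR.snd' FR.fst)) FR.snd)
  exact FP.comp (p := fun x : M × M => EMC.vis s p x.1 x.2) (f := fun a => (f a, g a)) h1
    (FR.pair hf hg)

/-- the values of the letters are computable -/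
theorem FR.vOf {p : M × M → Prop} (hp : FP s p) : FR s (fun x : M × M => vOf s p x.1 x.2) := by
  unfold EMC.vOf
  refine FR.ite ?_ (FR.const (β := M) 2) (FR.ite ?_ (FR.const (β := M) 1) (FR.const (β := M) 0))
  · refine (FP.bexc_le (b := fun x : M × M => x.1) (p := fun (x : M × M) (r : M) =>
      EMC.vis s p r x.2 ∧ p (r, s.lf x.2) ∧ ∀ r' ≤ x.1, r < r' → ¬ EMC.vis s p r' x.2)
      FR.fst ?_).congr fun x => ?_
    · refine FP.and (FP.vis hp FR.snd (FR.snd' FR.fst)) (FP.and ?_ ?_)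
      · exact FP.comp hp (FR.pair FR.snd (FR.comp (FR.of_mem s.lf_mem) (FR.snd' FR.fst)))
      · refine FP.ballc_le (b := fun x : (M × M) × M => x.1.1) (p := fun (x : (M × M) × M) (r' : M) =>
          x.2 < r' → ¬ EMC.vis s p r' x.1.2) (FR.fst' FR.fst) ?_
        refine FP.imp (FP.lt (FR.snd' FR.fst) FR.snd) (FP.not (FP.vis hp FR.snd ?_))
        exact FR.snd' (FR.fst' FR.fst)
    · constructor
      · rintro ⟨r, h1, h2, h3, h4⟩
        exact ⟨r, h1, h2, h3, fun r' h5 h6 => h4 r' h6 h5⟩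
      · rintro ⟨r, h1, h2, h3, h4⟩
        exact ⟨r, h1, h2, h3, fun r' h5 h6 => h4 r' h6 h5⟩
  · exact FP.bexc_le (b := fun x : M × M => x.1) (p := fun (x : M × M) (r : M) =>
      EMC.vis s p r x.2) FR.fst (FP.vis hp FR.snd (FR.snd' FR.fst))

theorem vOf_cases (s : Sys M) (p : M × M → Prop) (t n : M) :
    vOf s p t n = 0 ∨ vOf s p t n = 1 ∨ vOf s p t n = 2 := by
  unfold vOf
  split_ifs
  · exact Or.inr (Or.inr rfl)
  · exact Or.inr (Or.inl rfl)
  · exact Or.inl rfl

/-- the run exists -/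
theorem exists_run {v : M → M → M} (hv : FR s (fun x : M × M => v x.1 x.2)) :
    ∃ R : M → M → M → W, FR s (fun x : M × M × M => R x.1 x.2.1 x.2.2) ∧ IsRun v R := by
  obtain ⟨h, h1, h2, h3⟩ := FR.prec (s := s) (α := M × M) (β := W) (f := fun _ => (none : W))
    (g := fun z : (M × M) × M × W => mulW (sy (dl v z.1.1 z.1.2 z.2.1)) z.2.2)
    (FR.const (β := W) none) (by
      have h1 : FR s (fun x : (M × M) × M × W => x.1.1) := FR.fst' FR.fst
      have h2 : FR s (fun x : (M × M) × M × W => x.1.2) := FR.snd' FR.fst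
      have h3 : FR s (fun x : (M × M) × M × W => x.2.1) := FR.fst' FR.snd
      have h4 : FR s (fun x : (M × M) × M × W => x.2.2) := FR.snd' FR.snd
      exact FR.comp (g := fun p : W × W => mulW p.1 p.2)
        (f := fun z : (M × M) × M × W => (EMC.sy (EMC.dl v z.1.1 z.1.2 z.2.1), z.2.2))
        (FR.of_finite₂ mulW) (FR.pair (FR.sy (FR.dl hv h1 h2 h3)) h4))
  refine ⟨fun y u n => h (y, u) n, ?_, fun y u => ⟨h2 _, fun n => h3 _ n⟩⟩
  exact FR.comp (g := fun x : (M × M) × M => h x.1 x.2)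
    (f := fun x : M × M × M => ((x.1, x.2.1), x.2.2)) h1
    (FR.pair (FR.pair FR.fst (FR.fst' FR.snd)) (FR.snd' FR.snd))

/-- the tournament exists -/
theorem exists_tour {v : M → M → M} (hv : FR s (fun x : M × M => v x.1 x.2)) :
    ∃ (R : M → M → M → W) (T : M × M → Prop), FR s (fun x : M × M × M => R x.1 x.2.1 x.2.2) ∧
      FP s T ∧ IsTour v R T := by
  obtain ⟨R, hR, hrun⟩ := exists_run hv
  refine ⟨R, fun x => theta (R x.1 x.2 (Nst v x.1 x.2 + 1)) = true, hR, ?_, hrun,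
    fun y u _ => Iff.rfl⟩
  have h1 : FR s (fun x : M × M => R x.1 x.2 (EMC.Nst v x.1 x.2 + 1)) :=
    FR.comp (g := fun x : M × M × M => R x.1 x.2.1 x.2.2)
      (f := fun x : M × M => (x.1, x.2, EMC.Nst v x.1 x.2 + 1)) hR
      (FR.pair FR.fst (FR.pair FR.snd (FR.succ (FR.Nst hv FR.fst FR.snd))))
  exact FP.comp (p := fun w : W => theta w = true) (FP.of_finite _) h1

end EMC
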