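import Pool.Agent.Lib.MP_531058_lc.EMC.OA
import Pool.Agent.Lib.MP_531058_lc.EMC.TD
import Pool.Agent.Lib.MP_531058_lc.EMC.FinC

/-!
# Words of segments
-/

namespace EMC

open Classical
open Pool.Agent.Lib.MP_531058_lc.RCA

variable {M : Type*} [DSR M] {s : Sys M}

variable {v : M → M → M}

/-- `G y u a k` is the class of the word `dl (a+k-1), ..., dl a` -/
def IsSeg (v : M → M → M) (G : M → M → M → M → W) : Prop :=
  ∀ y u a, G y u a 0 = none ∧ ∀ k, G y u a (k + 1) = mulW (sy (dl v y u (a + k))) (G y u a k)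

theorem exists_seg (hv : FR s (fun x : M × M => v x.1 x.2)) :
    ∃ G : M → M → M → M → W,
      FR s (fun x : M × M × M × M => G x.1 x.2.1 x.2.2.1 x.2.2.2) ∧ IsSeg v G := by
  obtain ⟨h, h1, h2, h3⟩ := FR.prec (s := s) (α := M × M × M) (β := W) (f := fun _ => (none : W))
    (g := fun z : (M × M × M) × M × W =>
      mulW (sy (dl v z.1.1 z.1.2.1 (z.1.2.2 + z.2.1))) z.2.2)
    (FR.const (β := W) none) (by
      have h1 : FR s (fun x : (M × M × M) × M × W => x.1.1) := FR.fst' FR.fst
      have h2 : FR s (fun x : (M × M × M) × M × W => x.1.2.1) := FR.fst' (FR.snd' FR.fst)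
      have h3 : FR s (fun x : (M × M × M) × M × W => x.1.2.2 + x.2.1) :=
        FR.add (FR.snd' (FR.snd' FR.fst)) (FR.fst' FR.snd)
      have h4 : FR s (fun x : (M × M × M) × M × W => x.2.2) := FR.snd' FR.snd
      exact FR.comp (g := fun p : W × W => mulW p.1 p.2)
        (f := fun z : (M × M × M) × M × W =>
          (EMC.sy (EMC.dl v z.1.1 z.1.2.1 (z.1.2.2 + z.2.1)), z.2.2))
        (FR.of_finite₂ mulW) (FR.pair (FR.sy (FR.dl hv h1 h2 h3)) h4))
  refine ⟨fun y u a k => h (y, u, a) k, ?_, fun y u a => ⟨h2 _, fun k => h3 _ k⟩⟩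
  exact FR.comp (g := fun x : (M × M × M) × M => h x.1 x.2)
    (f := fun x : M × M × M × M => ((x.1, x.2.1, x.2.2.1), x.2.2.2)) h1
    (FR.pair (FR.pair FR.fst (FR.pair (FR.fst' FR.snd) (FR.fst' (FR.snd' FR.snd))))
      (FR.snd' (FR.snd' FR.snd)))

variable {G : M → M → M → M → W}

theorem WB_FR (hGc : FR s (fun x : M × M × M × M => G x.1 x.2.1 x.2.2.1 x.2.2.2)) (y u a : M) :
    FR s (fun k : M => G y u a k) :=
  FR.comp (g := fun x : M × M × M × M => G x.1 x.2.1 x.2.2.1 x.2.2.2)
    (f := fun k : M => (y, u, a, k)) hGc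
    (FR.pair (FR.const y) (FR.pair (FR.const u) (FR.pair (FR.const a) FR.id)))

theorem seg_congr (hGc : FR s (fun x : M × M × M × M => G x.1 x.2.1 x.2.2.1 x.2.2.2))
    (hG : IsSeg v G) {y u y' u' a : M} (k : M)
    (h : ∀ n, a ≤ n → n < a + k → dl v y u n = dl v y' u' n) : G y u a k = G y' u' a k := by
  have key : ∀ j : M, j ≤ k → G y u a j = G y' u' a j := by
    refine FP.ind (s := s) (p := fun j : M => j ≤ k → G y u a j = G y' u' a j) ?_ ?_ ?_
    · exact FP.imp (FP.le FR.id (FR.const k)) (FP.eq (WB_FR hGc y u a) (WB_FR hGc y' u' a))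
    · intro _
      rw [(hG y u a).1, (hG y' u' a).1]
    · intro n ih hn
      have hlt : n < k := lt_of_lt_of_le (DSR.lt_succ_iff.2 le_rfl) hn
      rw [(hG y u a).2, (hG y' u' a).2, ih hlt.le, h (a + n) le_self_add
        (add_lt_add_right hlt a)]
  exact key k le_rfl

theorem seg_swap (hv : FR s (fun x : M × M => v x.1 x.2))
    (hGc : FR s (fun x : M × M × M × M => G x.1 x.2.1 x.2.2.1 x.2.2.2))
    (hG : IsSeg v G) (y u a k : M) : G u y a k = barW (G y u a k) := by
  revert k
  refine FP.ind (s := s) (p := fun k : M => G u y a k = barW (G y u a k)) ?_ ?_ ?_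
  · exact FP.eq (WB_FR hGc u y a)
      (FR.comp (g := barW) (FR.of_finite barW) (WB_FR hGc y u a))
  · rw [(hG u y a).1, (hG y u a).1]; rfl
  · intro n ih
    rw [(hG u y a).2, (hG y u a).2, ih, barW_mulW, dl_swap hv y u (a + n),
      sy_swp (dl_cases y u (a + n))]

theorem seg_ok (hGc : FR s (fun x : M × M × M × M => G x.1 x.2.1 x.2.2.1 x.2.2.2))
    (hG : IsSeg v G) (y u a k : M) : okW (G y u a k) := by
  revert k
  refine FP.ind (s := s) (p := fun k : M => okW (G y u a k)) ?_ ?_ ?_
  · exact FP.comp (p := fun w : W => okW w) (FP.of_finite _) (WB_FR hGc y u a)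
  · rw [(hG y u a).1]; trivial
  · intro n ih
    rw [(hG y u a).2]
    refine okW_mulW ?_ ih
    unfold sy
    split_ifs
    · trivial
    · exact okW_oneW false
    · exact okW_oneW true

theorem seg_ne_none (hGc : FR s (fun x : M × M × M × M => G x.1 x.2.1 x.2.2.1 x.2.2.2))
    (hG : IsSeg v G) {y u a k : M} (hk : 0 < k) (h : dl v y u a ≠ 0) : G y u a k ≠ none := by
  have key : ∀ j : M, G y u a (j + 1) ≠ none := by
    refine FP.ind (s := s) (p := fun j : M => G y u a (j + 1) ≠ none) ?_ ?_ ?_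
    · exact FP.not (FP.eq (FR.comp (g := fun k : M => G y u a k) (WB_FR hGc y u a)
        (FR.succ FR.id)) (FR.const none))
    · rw [(hG y u a).2, (hG y u a).1, mulW_none, add_zero]
      unfold sy
      rw [if_neg h]
      split_ifs <;> simp [oneW]
    · intro n ih
      rw [(hG y u a).2]
      exact mulW_ne_none_right ih
  rcases eq_zero_or_succ k with rfl | ⟨j, rfl⟩
  · exact absurd hk (lt_irrefl 0)
  · exact key j

theorem seg_run (hGc : FR s (fun x : M × M × M × M => G x.1 x.2.1 x.2.2.1 x.2.2.2))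
    (hG : IsSeg v G) {R : M → M → M → W} (hRc : FR s (fun x : M × M × M => R x.1 x.2.1 x.2.2))
    (hR : IsRun v R) (y u a k : M) : R y u (a + k) = mulW (G y u a k) (R y u a) := by
  revert k
  refine FP.ind (s := s) (p := fun k : M => R y u (a + k) = mulW (G y u a k) (R y u a)) ?_ ?_ ?_
  · refine FP.eq ?_ ?_
    · exact FR.comp (g := fun x : M × M × M => R x.1 x.2.1 x.2.2)
        (f := fun k : M => (y, u, a + k)) hRc
        (FR.pair (FR.const y) (FR.pair (FR.const u) (FR.add (FR.const a) FR.id)))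
    · exact FR.comp (g := fun p : W × W => mulW p.1 p.2) (f := fun k : M => (G y u a k, R y u a))
        (FR.of_finite₂ mulW) (FR.pair (WB_FR hGc y u a) (FR.const _))
  · rw [add_zero, (hG y u a).1, none_mulW]
  · intro n ih
    rw [← add_assoc, (hR y u).2, (hG y u a).2, ih, mulW_assoc]

/-- the whole run from `0` is a segment -/
theorem seg_zero (hGc : FR s (fun x : M × M × M × M => G x.1 x.2.1 x.2.2.1 x.2.2.2))
    (hG : IsSeg v G) {R : M → M → M → W} (hRc : FR s (fun x : M × M × M => R x.1 x.2.1 x.2.2))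
    (hR : IsRun v R) (y u k : M) : R y u k = G y u 0 k := by
  have h := seg_run hGc hG hRc hR y u 0 k
  rwa [zero_add, (hR y u).1, mulW_none] at h

/-- truncated subtraction -/
noncomputable def dif (a b : M) : M := if h : ∃ k, b = a + k then Classical.choose h else 0

theorem dif_spec {a b : M} (h : a ≤ b) : b = a + dif a b := by
  have hex : ∃ k, b = a + k := exists_add_of_le h
  unfold dif
  rw [dif_pos hex]
  exact Classical.choose_spec hex

theorem dif_pos {a b : M} (h : a < b) : 0 < dif a b := by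
  rcases eq_or_ne (dif a b) 0 with h0 | h0
  · have := dif_spec h.le
    rw [h0, add_zero] at this
    exact absurd h (by rw [this]; exact lt_irrefl a)
  · exact pos_iff_ne_zero.2 h0

end EMC
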