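import Pool.Agent.Lib.MP_531058_lc.EMC.SB
import Pool.Agent.Lib.MP_531058_lc.EMC.WB

/-!
# The word below the top letter
-/

namespace EMC

open Classical
open Pool.Agent.Lib.MP_531058_lc.RCA

variable {M : Type*} [DSR M] {s : Sys M}

/-- state with `d` at level `i`, `d'` at level `j`, `false` elsewhere -/
def two (i j : ℕ) (d d' : Bool) (k : ℕ) : Bool := if k = i then d else if k = j then d' else false

/-- state with `d` at level `i`, `false` elsewhere -/
def one (i : ℕ) (d : Bool) (k : ℕ) : Bool := if k = i then d else false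

namespace Sch

variable {v : M → M → M} {H : Set M} {q : ℕ} {G : M → M → M → M → W}

/-- word between the letters of the levels `i < j` -/
noncomputable def ZW (S : Sch s v H q) (G : M → M → M → M → W) (X0 : M) (i j : ℕ) (d d' : Bool) : W :=
  G (S.Y (two i j d d') X0) (S.Y (two i j (!d) (!d')) X0) (S.t i) (dif (S.t i) (S.t j))

/-- word below the letter of level `i` -/
noncomputable def Z0W (S : Sch s v H q) (G : M → M → M → M → W) (X0 : M) (i : ℕ) (d : Bool) : W :=
  G (S.Y (one i d) X0) (S.Y (one i (!d)) X0) 0 (S.t i)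

theorem ZW_ok (hGc : FR s (fun x : M × M × M × M => G x.1 x.2.1 x.2.2.1 x.2.2.2)) (hG : IsSeg v G)
    (S : Sch s v H q) (X0 : M) (i j : ℕ) (d d' : Bool) (hij : i < j) (hj : j < q) :
    okW (S.ZW G X0 i j d d') ∧ S.ZW G X0 i j d d' ≠ none := by
  refine ⟨seg_ok hGc hG _ _ _ _, ?_⟩
  refine seg_ne_none hGc hG (dif_pos (S.t_mono i j hij hj)) ?_
  refine S.dl_ne (hij.trans hj) _ _ X0 X0 ?_ _ le_rfl
  cases d <;> simp [two]

theorem Z0W_ok (hGc : FR s (fun x : M × M × M × M => G x.1 x.2.1 x.2.2.1 x.2.2.2)) (hG : IsSeg v G)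
    (S : Sch s v H q) (X0 : M) (i : ℕ) (d : Bool) : okW (S.Z0W G X0 i d) :=
  seg_ok hGc hG _ _ _ _

theorem ZW_bar (hv : FR s (fun x : M × M => v x.1 x.2))
    (hGc : FR s (fun x : M × M × M × M => G x.1 x.2.1 x.2.2.1 x.2.2.2)) (hG : IsSeg v G)
    (S : Sch s v H q) (X0 : M) (i j : ℕ) (d d' : Bool) :
    S.ZW G X0 i j (!d) (!d') = barW (S.ZW G X0 i j d d') := by
  unfold ZW
  rw [Bool.not_not, Bool.not_not]
  exact seg_swap hv hGc hG _ _ _ _

theorem Z0W_bar (hv : FR s (fun x : M × M => v x.1 x.2))
    (hGc : FR s (fun x : M × M × M × M => G x.1 x.2.1 x.2.2.1 x.2.2.2)) (hG : IsSeg v G)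
    (S : Sch s v H q) (X0 : M) (i : ℕ) (d : Bool) :
    S.Z0W G X0 i (!d) = barW (S.Z0W G X0 i d) := by
  unfold Z0W
  rw [Bool.not_not]
  exact seg_swap hv hGc hG _ _ _ _

/-- Proof: induction on `n ≤ e + 1` of: if `stpW .. n = none` then `σ k = τ k` for all `k < n`; if
`stpW .. n = some (i, d, p)` then `i < n`, `d = σ i`, `σ i ≠ τ i`, `σ k = τ k` for `i < k < n` and
`p = R (Y σ x) (Y τ y) (t i)`. Equal states below `e` are `false` (disjoint supports); use `dl_type` for the word
below the first level of difference and `dl_loc` for the next ones (`seg_congr`, `seg_run`, `seg_zero`). -/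
theorem run_word (hv : FR s (fun x : M × M => v x.1 x.2))
    (hGc : FR s (fun x : M × M × M × M => G x.1 x.2.1 x.2.2.1 x.2.2.2)) (hG : IsSeg v G)
    {R : M → M → M → W} (hRc : FR s (fun x : M × M × M => R x.1 x.2.1 x.2.2)) (hR : IsRun v R)
    (S : Sch s v H q) {e : ℕ} (he : e < q) {X0 : M} (hX0 : S.t e ≤ X0) (σ τ : ℕ → Bool)
    (hdis : ∀ k, k < e → ¬ (σ k = true ∧ τ k = true)) (hne : σ e ≠ τ e) (x y : M)
    (hx : S.t e ≤ x) (hy : S.t e ≤ y) :
    R (S.Y σ x) (S.Y τ y) (S.t e) = wordW (S.ZW G X0) (S.Z0W G X0) σ τ e := by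
  have hfalse : ∀ k, k < e → σ k = τ k → σ k = false ∧ τ k = false := by
    intro k hk he'
    have h := hdis k hk
    cases hs : σ k with
    | false => rw [hs] at he'; exact ⟨rfl, he'.symm⟩
    | true => rw [hs] at he'; exact absurd ⟨hs, he'.symm⟩ h
  have hnot : ∀ k, σ k ≠ τ k → τ k = !σ k := by
    intro k hk
    cases hs : σ k <;> cases ht : τ k <;> simp_all
  have key : ∀ n, n ≤ e + 1 →
      (stpW (S.ZW G X0) (S.Z0W G X0) σ τ n = none → ∀ k, k < n → σ k = τ k) ∧
      (∀ i d p, stpW (S.ZW G X0) (S.Z0W G X0) σ τ n = some (i, d, p) →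
        i < n ∧ d = σ i ∧ σ i ≠ τ i ∧ (∀ k, i < k → k < n → σ k = τ k) ∧
          p = R (S.Y σ x) (S.Y τ y) (S.t i)) := by
    intro n
    induction n with
    | zero =>
      intro _
      exact ⟨fun _ k hk => absurd hk (Nat.not_lt_zero k), fun i d p h => by simp [stpW] at h⟩
    | succ n ih =>
      intro hn
      have hne' : n ≤ e := by omega
      have hnq : n < q := by omega
      obtain ⟨ih1, ih2⟩ := ih (by omega)
      rw [stpW]
      by_cases hst : σ n = τ n
      · rw [if_pos hst]
        constructor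
        · intro h k hk
          rcases Nat.lt_succ_iff_lt_or_eq.1 hk with h1 | h1
          · exact ih1 h k h1
          · rw [h1]; exact hst
        · intro i d p h
          obtain ⟨a1, a2, a3, a4, a5⟩ := ih2 i d p h
          refine ⟨Nat.lt_succ_of_lt a1, a2, a3, fun k hk1 hk2 => ?_, a5⟩
          rcases Nat.lt_succ_iff_lt_or_eq.1 hk2 with h1 | h1
          · exact a4 k hk1 h1
          · rw [h1]; exact hst
      · rw [if_neg hst]
        have htn : S.t n ≤ X0 := (S.t_le hne' he).trans hX0
        cases hs : stpW (S.ZW G X0) (S.Z0W G X0) σ τ n with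
        | none =>
          have hall := ih1 hs
          refine ⟨fun h => by simp at h, fun i d p h => ?_⟩
          simp only [Option.some.injEq, Prod.mk.injEq] at h
          obtain ⟨rfl, rfl, rfl⟩ := h
          refine ⟨Nat.lt_succ_self _, rfl, hst, fun k h1 h2 => by omega, ?_⟩
          rw [seg_zero hGc hG hRc hR]
          unfold Z0W
          refine seg_congr hGc hG _ fun m _ hm => ?_
          rw [zero_add] at hm
          refine S.dl_type hnq _ _ _ _ _ _ _ _ (fun k hk => ?_) (fun k hk => ?_) m hm.le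
          · unfold one
            split_ifs with h1
            · rw [h1]
            · exact (hfalse k (by omega) (hall k (by omega))).1.symm
          · unfold one
            split_ifs with h1
            · rw [h1]; exact (hnot _ hst).symm
            · exact (hfalse k (by omega) (hall k (by omega))).2.symm
        | some st =>
          obtain ⟨i, d, p⟩ := st
          obtain ⟨a1, a2, a3, a4, a5⟩ := ih2 i d p hs
          refine ⟨fun h => by simp at h, fun i' d' p' h => ?_⟩
          simp only [Option.some.injEq, Prod.mk.injEq] at h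
          obtain ⟨rfl, rfl, rfl⟩ := h
          refine ⟨Nat.lt_succ_self _, rfl, hst, fun k h1 h2 => by omega, ?_⟩
          rw [dif_spec (S.t_mono i n a1 hnq).le, seg_run hGc hG hRc hR, ← a5]
          congr 1
          unfold ZW
          refine seg_congr hGc hG _ fun m hm1 hm2 => ?_
          rw [← dif_spec (S.t_mono i n a1 hnq).le] at hm2
          symm
          refine S.dl_loc hv a1.le hnq _ _ _ _ _ _ _ _ htn htn a3 (fun k hk1 hk2 => ?_)
            (fun k hk1 hk2 => ?_) m hm1 hm2.le
          · unfold two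
            split_ifs with h1 h2
            · rw [h1, a2]
            · rw [h2]
            · exact (hfalse k (by omega) (a4 k (by omega) (by omega))).1
          · unfold two
            split_ifs with h1 h2
            · rw [h1, a2]; exact hnot _ a3
            · rw [h2]; exact hnot _ hst
            · exact (hfalse k (by omega) (a4 k (by omega) (by omega))).2
  obtain ⟨k1, k2⟩ := key (e + 1) le_rfl
  unfold wordW
  cases hs : stpW (S.ZW G X0) (S.Z0W G X0) σ τ (e + 1) with
  | none => exact absurd (k1 hs e (Nat.lt_succ_self e)) hne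
  | some st =>
    obtain ⟨i, d, p⟩ := st
    obtain ⟨a1, a2, a3, a4, a5⟩ := k2 i d p hs
    have hie : i = e := by
      by_contra hcon
      exact hne (a4 e (by omega) (by omega))
    subst hie
    exact a5.symm

end Sch

end EMC
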