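import Pool.Agent.Lib.MP_531058_lc.EMC.FA

/-!
# The tournament between marks of different configurations
-/

namespace EMC

open Classical
open Pool.Agent.Lib.MP_531058_lc.RCA

variable {M : Type*} [DSR M] {s : Sys M}

namespace Sch

variable {v : M → M → M} {H : Set M} {q : ℕ} {G : M → M → M → M → W}

/-- `U` := segment `[t e, N]` for the marks with the states `one e b`, `one e (!b)`, `N = Nst` -/
theorem tour_word (hv : FR s (fun x : M × M => v x.1 x.2))
    (hGc : FR s (fun x : M × M × M × M => G x.1 x.2.1 x.2.2.1 x.2.2.2)) (hG : IsSeg v G)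
    {R : M → M → M → W} (hRc : FR s (fun x : M × M × M => R x.1 x.2.1 x.2.2))
    {T : M × M → Prop} (hT : IsTour v R T)
    (S : Sch s v H q) {e : ℕ} (he : e < q) {s0 X0 : M} (hl : Late v (S.t e) s0)
    (hX0 : S.t e ≤ X0) (b : Bool) (x y : M) (hx : s0 ≤ x) (hxy : S.E x < y) :
    ∃ U : W, okW U ∧ U ≠ none ∧ ∀ σ τ : ℕ → Bool,
      (∀ k, k < e → ¬ (σ k = true ∧ τ k = true)) → σ e = b → τ e = (!b) →
      (∀ k, e < k → σ k = false ∧ τ k = false) →
      (T (S.Y σ x, S.Y τ y) ↔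
        theta (mulW U (wordW (S.ZW G X0) (S.Z0W G X0) σ τ e)) = true) := by
  have hte : S.t e ≤ x := hl.1.trans hx
  have hxE : x ≤ S.E x := ((S.bdY (one e b) x).1).trans (S.bdY (one e b) x).2
  have hty : S.t e ≤ y := hte.trans (hxE.trans hxy.le)
  have hob : one e b e ≠ one e (!b) e := by cases b <;> simp [one]
  obtain ⟨-, hN1, -⟩ := S.Nst_phase hv he hl (one e b) (one e b) (one e (!b)) (one e (!b)) x y hx
    hxy.le hob (fun _ _ _ => rfl) (fun _ _ _ => rfl)
  set N := Nst v (S.Y (one e b) x) (S.Y (one e (!b)) y) with hN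
  have hlt : S.t e < N + 1 := DSR.lt_succ_iff.2 hN1
  refine ⟨G (S.Y (one e b) x) (S.Y (one e (!b)) y) (S.t e) (dif (S.t e) (N + 1)),
    seg_ok hGc hG _ _ _ _,
    seg_ne_none hGc hG (dif_pos hlt) (S.dl_ne he _ _ x y hob _ le_rfl), ?_⟩
  intro σ τ hdis hσ hτ hup
  have hne : σ e ≠ τ e := by rw [hσ, hτ]; cases b <;> simp
  have h1 : ∀ k, e ≤ k → k < q → σ k = one e b k := by
    intro k hk _
    unfold one
    split_ifs with h
    · rw [h, hσ]
    · exact (hup k (by omega)).1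
  have h2 : ∀ k, e ≤ k → k < q → τ k = one e (!b) k := by
    intro k hk _
    unfold one
    split_ifs with h
    · rw [h, hτ]
    · exact (hup k (by omega)).2
  obtain ⟨hNe, hN2, hN3⟩ := S.Nst_phase hv he hl σ (one e b) τ (one e (!b)) x y hx hxy.le hne h1 h2
  rw [← hN] at hNe
  have hlt2 : S.Y σ x < S.Y τ y :=
    lt_of_le_of_lt (S.bdY σ x).2 (lt_of_lt_of_le hxy (S.bdY τ y).1)
  rw [hT.2 _ _ hlt2, hNe, dif_spec hlt.le, seg_run hGc hG hRc hT.1,
    S.run_word hv hGc hG hRc hT.1 he hX0 σ τ hdis hne x y hte hty, ← dif_spec hlt.le]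
  have hseg : G (S.Y σ x) (S.Y τ y) (S.t e) (dif (S.t e) (N + 1)) =
      G (S.Y (one e b) x) (S.Y (one e (!b)) y) (S.t e) (dif (S.t e) (N + 1)) := by
    refine seg_congr hGc hG _ fun m hm1 hm2 => ?_
    rw [← dif_spec hlt.le] at hm2
    refine S.dl_phase hv he _ _ _ _ _ _ hxy.le hne h1 h2 m hm1 ?_
    refine (DSR.lt_succ_iff.1 hm2).trans ?_
    rw [← hNe]
    exact hN3
  rw [hseg]

end Sch

/-- `wordW` depends only on the states of the levels `≤ q` -/
theorem wordW_congr (Z : ℕ → ℕ → Bool → Bool → W) (Z0 : ℕ → Bool → W) {σ τ σ' τ' : ℕ → Bool}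
    {q : ℕ} (h : ∀ k, k ≤ q → σ k = σ' k) (h' : ∀ k, k ≤ q → τ k = τ' k) :
    wordW Z Z0 σ τ q = wordW Z Z0 σ' τ' q := by
  have key : ∀ n, n ≤ q + 1 → stpW Z Z0 σ τ n = stpW Z Z0 σ' τ' n := by
    intro n
    induction n with
    | zero => intro _; rfl
    | succ n ih =>
      intro hn
      rw [stpW, stpW, ih (by omega), h n (by omega), h' n (by omega)]
  unfold wordW
  rw [key (q + 1) le_rfl]

end EMC
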