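import Pool.Agent.Lib.MP_531058_lc.EMC.FB

/-!
# The contradiction
-/

namespace EMC

open Classical
open Pool.Agent.Lib.MP_531058_lc.RCA

variable {M : Type*} [DSR M] {s : Sys M}

/-- Proof: `Q` from `finite_coreW`, `S : Sch s v H Q`, `e` from `finite_coreW` for `ZW`, `Z0W`
(`X0 = t e` is allowed to depend on `e` only through `hX0`: take `X0 := t (Q-1) + s0 ...`; it is enough that
`t i ≤ X0` for all `i < Q`), `s0` late for `t e`, `x1 = s0`, `x2 = E x1 + 1`, `x3 = E x2 + 1`; `U` for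
`(x1, x2, false)`, `V` for `(x2, x3, true)`; states `σ, ρ, τ, τ'` cut off above `e` (`wordW_congr`).
`y1 = Y σ x1`, `y2 = Y τ x2`, `y2' = Y τ' x2`, `y3 = Y ρ x3` contradict `TrH`. -/
theorem no_tr {v : M → M → M} (hv : FR s (fun x : M × M => v x.1 x.2)) {H : Set M}
    (hS : ∀ q : ℕ, Nonempty (Sch s v H q))
    {R : M → M → M → W} (hRc : FR s (fun x : M × M × M => R x.1 x.2.1 x.2.2))
    {T : M × M → Prop} (hT : IsTour v R T) (hH : TrH T H) : False := by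
  obtain ⟨Q, hQ⟩ := finite_coreW
  obtain ⟨S⟩ := hS Q
  obtain ⟨G, hGc, hG⟩ := exists_seg hv
  obtain ⟨e, he, hcore⟩ := hQ (S.ZW G (S.t (Q - 1))) (S.Z0W G (S.t (Q - 1)))
    (fun i j d d' hij hj => S.ZW_ok hGc hG _ i j d d' hij hj)
    (fun i d _ => S.Z0W_ok hGc hG _ i d)
    (fun i j d d' _ _ => S.ZW_bar hv hGc hG _ i j d d')
    (fun i d _ => S.Z0W_bar hv hGc hG _ i d)
  have hX0 : S.t e ≤ S.t (Q - 1) := S.t_le (by omega) (by omega)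
  obtain ⟨s0, hl⟩ := exists_late hv (S.t e)
  have hE : ∀ x, x ≤ S.E x := fun x => (S.bdY (fun _ => false) x).1.trans (S.bdY _ x).2
  have h12 : S.E s0 < S.E s0 + 1 := lt_add_one _
  have h23 : S.E (S.E s0 + 1) < S.E (S.E s0 + 1) + 1 := lt_add_one _
  have hs2 : s0 ≤ S.E s0 + 1 := (hE s0).trans h12.le
  obtain ⟨U, hU1, hU2, hU⟩ := S.tour_word hv hGc hG hRc hT he hl hX0 false s0 (S.E s0 + 1)
    (le_refl _) h12
  obtain ⟨V, hV1, hV2, hV⟩ := S.tour_word hv hGc hG hRc hT he hl hX0 true (S.E s0 + 1)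
    (S.E (S.E s0 + 1) + 1) hs2 h23
  obtain ⟨σ, ρ, τ, τ', ⟨b1, b2, b3, b4⟩, hdis, g1, g2, g3, g4⟩ := hcore U V hU1 hV1 hU2 hV2
  let cut : (ℕ → Bool) → ℕ → Bool := fun f k => if k ≤ e then f k else false
  have cut_le : ∀ (f : ℕ → Bool) (k : ℕ), k ≤ e → cut f k = f k := fun f k hk => if_pos hk
  have cut_gt : ∀ (f : ℕ → Bool) (k : ℕ), e < k → cut f k = false := fun f k hk =>
    if_neg (by omega)
  have hw : ∀ f g : ℕ → Bool, wordW (S.ZW G (S.t (Q - 1))) (S.Z0W G (S.t (Q - 1))) (cut f) (cut g) e =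
      wordW (S.ZW G (S.t (Q - 1))) (S.Z0W G (S.t (Q - 1))) f g e := fun f g =>
    wordW_congr _ _ (fun k hk => cut_le f k hk) (fun k hk => cut_le g k hk)
  have t1 : T (S.Y (cut σ) s0, S.Y (cut τ) (S.E s0 + 1)) := by
    refine (hU (cut σ) (cut τ) ?_ ?_ ?_ ?_).2 ?_
    · intro k hk
      rw [cut_le σ k hk.le, cut_le τ k hk.le]
      exact (hdis k hk).1
    · rw [cut_le σ e le_rfl, b1]
    · rw [cut_le τ e le_rfl, b3]; rfl
    · intro k hk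
      exact ⟨cut_gt σ k hk, cut_gt τ k hk⟩
    · rw [hw]; exact g1
  have t2 : ¬ T (S.Y (cut σ) s0, S.Y (cut τ') (S.E s0 + 1)) := by
    rw [hU (cut σ) (cut τ') ?_ ?_ ?_ ?_, hw, g3]
    · simp
    · intro k hk
      rw [cut_le σ k hk.le, cut_le τ' k hk.le]
      exact (hdis k hk).2.1
    · rw [cut_le σ e le_rfl, b1]
    · rw [cut_le τ' e le_rfl, b4]; rfl
    · intro k hk
      exact ⟨cut_gt σ k hk, cut_gt τ' k hk⟩
  have t3 : T (S.Y (cut τ) (S.E s0 + 1), S.Y (cut ρ) (S.E (S.E s0 + 1) + 1)) := by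
    refine (hV (cut τ) (cut ρ) ?_ ?_ ?_ ?_).2 ?_
    · intro k hk
      rw [cut_le ρ k hk.le, cut_le τ k hk.le]
      intro h
      exact (hdis k hk).2.2.1 ⟨h.2, h.1⟩
    · rw [cut_le τ e le_rfl, b3]
    · rw [cut_le ρ e le_rfl, b2]; rfl
    · intro k hk
      exact ⟨cut_gt τ k hk, cut_gt ρ k hk⟩
    · rw [hw]; exact g2
  have t4 : ¬ T (S.Y (cut τ') (S.E s0 + 1), S.Y (cut ρ) (S.E (S.E s0 + 1) + 1)) := by
    rw [hV (cut τ') (cut ρ) ?_ ?_ ?_ ?_, hw, g4]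
    · simp
    · intro k hk
      rw [cut_le ρ k hk.le, cut_le τ' k hk.le]
      intro h
      exact (hdis k hk).2.2.2 ⟨h.2, h.1⟩
    · rw [cut_le τ' e le_rfl, b4]
    · rw [cut_le ρ e le_rfl, b2]; rfl
    · intro k hk
      exact ⟨cut_gt τ' k hk, cut_gt ρ k hk⟩
  have l12 : ∀ f : ℕ → Bool, S.Y (cut σ) s0 < S.Y f (S.E s0 + 1) := fun f =>
    lt_of_lt_of_le (lt_of_le_of_lt (S.bdY _ _).2 h12) (S.bdY _ _).1
  have l23 : ∀ f : ℕ → Bool, S.Y f (S.E s0 + 1) < S.Y (cut ρ) (S.E (S.E s0 + 1) + 1) := fun f =>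
    lt_of_lt_of_le (lt_of_le_of_lt (S.bdY _ _).2 h23) (S.bdY _ _).1
  have c1 := (hH _ (S.mark (cut σ) s0) _ (S.mark (cut τ) (S.E s0 + 1)) _
    (S.mark (cut ρ) (S.E (S.E s0 + 1) + 1)) (l12 _) (l23 _)).1
  have c2 := (hH _ (S.mark (cut σ) s0) _ (S.mark (cut τ') (S.E s0 + 1)) _
    (S.mark (cut ρ) (S.E (S.E s0 + 1) + 1)) (l12 _) (l23 _)).2
  by_cases h13 : T (S.Y (cut σ) s0, S.Y (cut ρ) (S.E (S.E s0 + 1) + 1))
  · exact c2 ⟨t2, t4, h13⟩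
  · exact c1 ⟨t1, t3, h13⟩

end EMC
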