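import Pool.Agent.Lib.MP_531058_lc.EMC.SE
import Pool.Agent.Lib.MP_531058_lc.EMC.EM3

/-!
# Types by homogenisation; existence of schemes
-/

namespace EMC

open Classical
open Pool.Agent.Lib.MP_531058_lc.RCA

variable {M : Type*} [DSR M] {s : Sys M}

variable {v : M → M → M} {H : Set M} {q : ℕ}

theorem SF_pr {α : Type*} [Cd s α] {f g : α → M} (hf : FR s f) (hg : FR s g) :
    FR s (fun a => s.pr (f a) (g a)) := s.pr_mem _ hf _ hg

theorem exists_pr_bound (s : Sys M) (T : M) : ∃ K, ∀ n n', n ≤ T → n' ≤ T → s.pr n n' < K := by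
  have h1 : FP s (fun z : (M × M) × M => s.pr z.1.1 z.2 < z.1.2) :=
    FP.lt (SF_pr (FR.fst' FR.fst) FR.snd) (FR.snd' FR.fst)
  have h2 : FP s (fun z : M × M => ∀ c < T + 1, s.pr z.1 c < z.2) :=
    FP.ball (b := fun _ : M × M => T + 1) (p := fun z : (M × M) × M => s.pr z.1.1 z.2 < z.1.2)
      (FR.const (β := M) (T + 1)) h1
  obtain ⟨K, hK⟩ := sig_bound h2 (T + 1) fun i _ => by
    have h3 : FP s (fun z : M × M => s.pr i z.1 < z.2) :=
      FP.lt (SF_pr (FR.const (β := M) i) FR.fst) FR.snd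
    obtain ⟨b, hb⟩ := sig_bound h3 (T + 1) fun c _ => ⟨s.pr i c + 1, lt_add_one _⟩
    exact ⟨b, fun c hc => by
      obtain ⟨y, hy, h4⟩ := hb c hc
      exact h4.trans hy⟩
  refine ⟨K, fun i c hi hc => ?_⟩
  obtain ⟨b, hb, h4⟩ := hK i (DSR.lt_succ_iff.2 hi)
  exact (h4 c (DSR.lt_succ_iff.2 hc)).trans hb

/-- extension of a finite state by `false` -/
def SF_ext (m : ℕ) (σ : Fin m → Bool) (k : ℕ) : Bool := if h : k < m then σ ⟨k, h⟩ else false

theorem SF_ext_res (m : ℕ) (σ : ℕ → Bool) {k : ℕ} (hk : k < m) :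
    SF_ext m (fun i => σ i) k = σ k := by
  unfold SF_ext
  rw [dif_pos hk]

/-- the predicates which are made constant -/
def SF_P (S : PSch s v H (q + 1) q) :
    (Fin (q + 1) → Bool) × (Fin 3 ⊕ Fin (q + 1)) → M × M → Prop
  | (σ, Sum.inl 0), z => v (S.Y (SF_ext (q + 1) σ) z.1) (s.lf z.2) = 1
  | (σ, Sum.inl 1), z => v (S.Y (SF_ext (q + 1) σ) z.1) (s.lf z.2) = 2
  | (σ, Sum.inl 2), z => lam v (S.Y (SF_ext (q + 1) σ) z.1) (s.lf z.2) <
      lam v (S.Y (SF_ext (q + 1) σ) z.1) (s.rt z.2)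
  | (σ, Sum.inr j), z => lam v (S.Y (SF_ext (q + 1) σ) z.1) (s.lf z.2) ≤
      S.A j (SF_ext (q + 1) σ) z.1

theorem SF_P_mem (hv : FR s (fun x : M × M => v x.1 x.2)) (S : PSch s v H (q + 1) q)
    (i : (Fin (q + 1) → Bool) × (Fin 3 ⊕ Fin (q + 1))) : FP s (SF_P S i) := by
  have hY : ∀ σ, FR s (fun z : M × M => S.Y σ z.1) := fun σ => FR.comp (S.cmpY σ) FR.fst
  have hl : FR s (fun z : M × M => s.lf z.2) := FR.comp (FR.of_mem s.lf_mem) FR.snd
  have hr : FR s (fun z : M × M => s.rt z.2) := FR.comp (FR.of_mem s.rt_mem) FR.snd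
  have hV : ∀ σ, FR s (fun z : M × M => v (S.Y σ z.1) (s.lf z.2)) := fun σ =>
    FR.comp₂ (g := fun x : M × M => v x.1 x.2) hv (hY σ) hl
  obtain ⟨σ, k | j⟩ := i
  · fin_cases k
    · exact FP.eqM (hV (SF_ext (q + 1) σ)) (FR.const (β := M) 1)
    · exact FP.eqM (hV (SF_ext (q + 1) σ)) (FR.const (β := M) 2)
    · exact FP.lt (EMC.FR.lam hv (hY (SF_ext (q + 1) σ)) hl)
        (EMC.FR.lam hv (hY (SF_ext (q + 1) σ)) hr)
  · exact FP.le (EMC.FR.lam hv (hY (SF_ext (q + 1) σ)) hl)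
      (FR.comp (S.cmpA j (SF_ext (q + 1) σ)) FR.fst)

/-- `homog_fin` for the finite family of all states `σ : Fin (q+1) → Bool` (extended by `false`, `extY`,
`extA`) and the predicates (in `(N, z)`, `z < K`, `K` from `exists_pr_bound` for `T = t q`):
`v (Y σ N) (lf z) = 1`, `v (Y σ N) (lf z) = 2`, `lam (Y σ N) (lf z) < lam (Y σ N) (rt z)`,
`lam (Y σ N) (lf z) ≤ A j σ N` (`j ≤ q`); then `PSch.reindex` and `PSch.addType`. -/
theorem psch_type (hB2 : BSig2 s) (hv : FR s (fun x : M × M => v x.1 x.2))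
    (hv3 : ∀ t n, v t n = 0 ∨ v t n = 1 ∨ v t n = 2) (S : PSch s v H (q + 1) q) :
    Nonempty (PSch s v H (q + 1) (q + 1)) := by
  obtain ⟨K, hK⟩ := exists_pr_bound s (S.t q)
  obtain ⟨ν, hν, hν1, hν2⟩ := homog_fin hB2 (fun i => SF_P_mem hv S i) K
  obtain ⟨S', ht, hY, hA⟩ := S.reindex hν hν1
  -- the finite part of a state
  have hYe : ∀ σ x, S.Y σ x = S.Y (SF_ext (q + 1) (fun i => σ i)) x := fun σ x =>
    S.extY _ _ _ fun k hk => (SF_ext_res (q + 1) σ hk).symm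
  have hAe : ∀ j σ x, S.A j σ x = S.A j (SF_ext (q + 1) (fun i => σ i)) x := fun j σ x =>
    S.extA _ _ _ _ fun k _ hk => (SF_ext_res (q + 1) σ hk).symm
  have hres : ∀ σ σ' : ℕ → Bool, (∀ k, k ≤ q → σ k = σ' k) →
      (fun i : Fin (q + 1) => σ i) = fun i : Fin (q + 1) => σ' i := fun σ σ' h =>
    funext fun i => h i (Nat.lt_succ_iff.1 i.2)
  refine S'.addType ?_ ?_ ?_
  · intro σ σ' x x' h n hn
    rw [ht] at hn
    rw [hY, hY, hYe σ, hYe σ', ← hres σ σ' h]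
    have h1 := hν2 (fun i : Fin (q + 1) => σ i, Sum.inl 0) x x' (s.pr n n) (hK n n hn hn)
    have h2 := hν2 (fun i : Fin (q + 1) => σ i, Sum.inl 1) x x' (s.pr n n) (hK n n hn hn)
    simp only [SF_P, s.lf_pr] at h1 h2
    rcases hv3 (S.Y (SF_ext (q + 1) (fun i => σ i)) (ν x')) n with h3 | h3 | h3
    · rcases hv3 (S.Y (SF_ext (q + 1) (fun i => σ i)) (ν x)) n with h4 | h4 | h4
      · rw [h3, h4]
      · rw [h1.1 h4, h4]
      · rw [h2.1 h4, h4]
    · rw [h3, h1.2 h3]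
    · rw [h3, h2.2 h3]
  · intro σ σ' x x' h n n' hn hn'
    rw [ht] at hn hn'
    rw [hY, hY, hYe σ, hYe σ', ← hres σ σ' h]
    have h1 := hν2 (fun i : Fin (q + 1) => σ i, Sum.inl 2) x x' (s.pr n n') (hK n n' hn hn')
    simp only [SF_P, s.lf_pr, s.rt_pr] at h1
    exact h1
  · intro j hj σ σ' x x' h n hn
    rw [ht] at hn
    rw [hY, hY, hYe σ, hYe σ', hA, hA, hAe j σ, hAe j σ', ← hres σ σ' h]
    have h1 := hν2 (fun i : Fin (q + 1) => σ i, Sum.inr ⟨j, Nat.lt_succ_iff.2 hj⟩) x x'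
      (s.pr n n) (hK n n hn hn)
    simp only [SF_P, s.lf_pr] at h1
    exact h1

theorem exists_sch (hB2 : BSig2 s) (hv : FR s (fun x : M × M => v x.1 x.2))
    (hv3 : ∀ t n, v t n = 0 ∨ v t n = 1 ∨ v t n = 2)
    (hH : FP s (fun x => x ∈ H)) (hHu : Unb H)
    (hU : ∀ B : M → M, FR s B → ∀ N0, ∃ n, N0 ≤ n ∧ ∀ b : Bool, ∀ N, ∃ a, N ≤ a ∧
      ∀ t, a ≤ t → t ≤ B a → v t n = bv M b) (q : ℕ) : Nonempty (Sch s v H q) := by
  have key : ∀ q : ℕ, Nonempty (PSch s v H q q) := by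
    intro q
    induction q with
    | zero => exact psch_zero hH hHu
    | succ q ih =>
      obtain ⟨S⟩ := ih
      obtain ⟨B, ξ, hB, hξ, h1, h2⟩ := clean_pos hv S.cmpE
        (fun x => (S.bdY (fun _ => false) x).1.trans (S.bdY (fun _ => false) x).2)
      obtain ⟨T, hT, hT2⟩ := hU B hB ((∑ j ∈ Finset.range q, S.t j) + 1)
      obtain ⟨S'⟩ := psch_step hv S hB hξ h1 h2 (T := T) (fun j hj => by
        refine lt_of_lt_of_le ?_ hT
        refine DSR.lt_succ_iff.2 ?_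
        exact Finset.single_le_sum_of_canonicallyOrdered (f := S.t) (Finset.mem_range.2 hj)) hT2
      exact psch_type hB2 hv hv3 S'
  obtain ⟨S⟩ := key q
  exact S.toSch

end EMC
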