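import Pool.Agent.Lib.MP_531058_lc.EMC.FC
import Pool.Agent.Lib.MP_531058_lc.EMC.SF
import Pool.Agent.Lib.MP_531058_lc.EMC.CA4
import Pool.Agent.Lib.MP_531058_lc.EMC.EM1
import Pool.Agent.Lib.MP_531058_lc.EMC.EM2

/-!
# Main theorems of the core
-/

namespace EMC

open Classical
open Pool.Agent.Lib.MP_531058_lc.RCA

variable {M : Type*} [DSR M] {s : Sys M}

/-- extraction of a cohesive set from a transitive set -/
theorem extract (hB2 : BSig2 s) {p : M × M → Prop} (hp : FP s p)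
    {R : M → M → M → W} (hRc : FR s (fun x : M × M × M => R x.1 x.2.1 x.2.2))
    {T : M × M → Prop} (hT : IsTour (vOf s p) R T)
    {H : Set M} (hH : FP s (fun x => x ∈ H)) (hHu : Unb H) (hHt : TrH T H) :
    ∃ C : Set M, FP s (fun x => x ∈ C) ∧ Unb C ∧ Cohesive p C := by
  by_contra hno
  have hv := FR.vOf hp
  have hU : ∀ B : M → M, FR s B → ∀ N0, ∃ n, N0 ≤ n ∧ ∀ b : Bool, ∀ N, ∃ a, N ≤ a ∧
      ∀ t, a ≤ t → t ≤ B a → vOf s p t n = bv M b := fun B hB N0 => usable hB2 hp hno hB N0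
  exact no_tr hv (fun q => exists_sch hB2 hv (vOf_cases s p) hH hHu hU q) hRc hT hHt

/-- EM implies COH -/
theorem core (s : Sys M) (h : EMS s) : COHS s := by
  intro p hp
  obtain ⟨R, T, hRc, hTc, hT⟩ := exists_tour (FR.vOf hp)
  obtain ⟨H, hH, hHu, hHt⟩ := h T hTc
  exact extract (bsig2_of_rt1 (rt1_of_ems h)) hp hRc hT hH hHu hHt

end EMC
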