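import Pool.Agent.Lib.MP_531058_lc.EMC.TC

/-!
# Facts about the comparison `dl`
-/

namespace EMC

open Classical
open Pool.Agent.Lib.MP_531058_lc.RCA

variable {M : Type*} [DSR M] {s : Sys M}

variable {v : M → M → M}

private theorem OA_two_ne_zero : (2 : M) ≠ 0 := two_ne_zero

private theorem OA_two_ne_one : (2 : M) ≠ 1 := by
  intro h
  have h1 : (1 : M) + 1 = 1 + 0 := by rw [one_add_one_eq_two, add_zero]; exact h
  exact one_ne_zero (add_left_cancel h1)

theorem dl_cases (y u n : M) : dl v y u n = 0 ∨ dl v y u n = 1 ∨ dl v y u n = 2 := by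
  unfold dl
  split_ifs
  · exact Or.inl rfl
  · exact Or.inr (Or.inl rfl)
  · exact Or.inr (Or.inr rfl)

theorem dl_eq_zero {y u n : M} : dl v y u n = 0 ↔ ∀ m, m ≤ n → good v y u n m := by
  unfold dl
  constructor
  · intro h
    by_contra hcon
    rw [if_neg hcon] at h
    split_ifs at h
    · exact one_ne_zero h
    · exact OA_two_ne_zero h
  · intro h
    rw [if_pos h]

private theorem OA_exists_bad {y u n : M} (h : dl v y u n ≠ 0) : ∃ m, m ≤ n ∧ ¬ good v y u n m := by
  by_contra hcon
  push Not at hcon
  exact h (dl_eq_zero.2 hcon)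

/-- if both first bad letters are the same letter then its values are different
(otherwise it has different predecessors `l`; `l` is good on the side where it is a predecessor: then
the letter is not a predecessor of `l` on the other side, so `l` is a predecessor there, too) -/
theorem fb_val_ne (hv : FR s (fun x : M × M => v x.1 x.2)) {y u n : M} (h : dl v y u n ≠ 0)
    (h' : fb v y u n = fb v u y n) : v y (fb v y u n) ≠ v u (fb v y u n) := by
  have hb := OA_exists_bad h
  have hb' : ∃ m, m ≤ n ∧ ¬ good v u y n m := by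
    obtain ⟨m, hm, hg⟩ := hb
    exact ⟨m, hm, fun hc => hg (good_comm.1 hc)⟩
  obtain ⟨h1, h2, h3⟩ := fb_spec hv hb
  obtain ⟨h4, h5, h6⟩ := fb_spec hv hb'
  rw [← h'] at h4 h5 h6
  intro hval
  apply h2
  refine ⟨hval, fun l hl => ?_⟩
  constructor
  · intro hp
    by_contra hnp
    have hgl : good v y u n l := by
      by_contra hc
      exact h3 l hl hc hp
    have h7 : ¬ pre v u (fb v y u n) l := fun hc => pre_asymm hp ((hgl.2 _ h1).2 hc)
    by_cases he : l = fb v y u n
    · rw [he] at hp
      exact pre_irrefl _ _ hp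
    · rcases pre_total (v := v) (t := u) he with h8 | h8
      · exact hnp h8
      · exact h7 h8
  · intro hp
    by_contra hnp
    have hgl : good v y u n l := by
      by_contra hc
      exact h6 l hl (fun hc' => hc (good_comm.1 hc')) hp
    have h7 : ¬ pre v y (fb v y u n) l := fun hc => pre_asymm hp ((hgl.2 _ h1).1 hc)
    by_cases he : l = fb v y u n
    · rw [he] at hp
      exact pre_irrefl _ _ hp
    · rcases pre_total (v := v) (t := y) he with h8 | h8
      · exact hnp h8
      · exact h7 h8

/-- the exchange of `1` and `2` -/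
noncomputable def swp (d : M) : M := if d = 1 then 2 else if d = 2 then 1 else d

private theorem OA_swp0 : swp (0 : M) = 0 := by
  unfold swp
  rw [if_neg zero_ne_one, if_neg (Ne.symm OA_two_ne_zero)]

private theorem OA_swp1 : swp (1 : M) = 2 := by
  unfold swp
  rw [if_pos rfl]

private theorem OA_swp2 : swp (2 : M) = 1 := by
  unfold swp
  rw [if_neg OA_two_ne_one, if_pos rfl]

theorem dl_swap (hv : FR s (fun x : M × M => v x.1 x.2)) (y u n : M) :
    dl v u y n = swp (dl v y u n) := by
  by_cases h0 : dl v y u n = 0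
  · rw [h0, OA_swp0, dl_eq_zero]
    rw [dl_eq_zero] at h0
    exact fun m hm => good_comm.1 (h0 m hm)
  · have h1 : ¬ ∀ m, m ≤ n → good v y u n m := fun h => h0 (dl_eq_zero.2 h)
    have h1' : ¬ ∀ m, m ≤ n → good v u y n m := fun h => h1 fun m hm => good_comm.1 (h m hm)
    have hne := fb_val_ne hv h0
    unfold dl
    rw [if_neg h1, if_neg h1']
    rcases lt_trichotomy (fb v y u n) (fb v u y n) with h | h | h
    · rw [if_pos (Or.inl h), if_neg, OA_swp1]
      rintro (h2 | ⟨h2, -⟩)
      · exact lt_asymm h h2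
      · exact h.ne' h2
    · have hne' := hne h
      rw [← h]
      rcases lt_or_gt_of_ne hne' with h3 | h3
      · have a1 : ¬ (fb v y u n < fb v y u n ∨ (fb v y u n = fb v y u n ∧
            v u (fb v y u n) < v y (fb v y u n))) := by
          rintro (h2 | ⟨-, h2⟩)
          · exact lt_irrefl _ h2
          · exact lt_asymm h3 h2
        have a2 : fb v y u n < fb v y u n ∨ (fb v y u n = fb v y u n ∧
            v y (fb v y u n) < v u (fb v y u n)) := Or.inr ⟨rfl, h3⟩
        rw [if_neg a1, if_pos a2, OA_swp1]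
      · have a1 : ¬ (fb v y u n < fb v y u n ∨ (fb v y u n = fb v y u n ∧
            v y (fb v y u n) < v u (fb v y u n))) := by
          rintro (h2 | ⟨-, h2⟩)
          · exact lt_irrefl _ h2
          · exact lt_asymm h3 h2
        have a2 : fb v y u n < fb v y u n ∨ (fb v y u n = fb v y u n ∧
            v u (fb v y u n) < v y (fb v y u n)) := Or.inr ⟨rfl, h3⟩
        rw [if_pos a2, if_neg a1, OA_swp2]
    · rw [if_pos (Or.inl h), if_neg, OA_swp2]
      rintro (h2 | ⟨h2, -⟩)
      · exact lt_asymm h h2
      · exact h.ne' h2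

theorem sy_swp {d : M} (h : d = 0 ∨ d = 1 ∨ d = 2) : sy (swp d) = barW (sy d) := by
  have s0 : sy (0 : M) = none := by unfold sy; rw [if_pos rfl]
  have s1 : sy (1 : M) = oneW false := by unfold sy; rw [if_neg one_ne_zero, if_pos rfl]
  have s2 : sy (2 : M) = oneW true := by
    unfold sy; rw [if_neg OA_two_ne_zero, if_neg OA_two_ne_one]
  rcases h with h | h | h
  · rw [h, OA_swp0, s0]; rfl
  · rw [h, OA_swp1, s1, s2]; rfl
  · rw [h, OA_swp2, s1, s2]; rfl

/-- full equality of the stacks of `y` and `y'` restricted to the letters `≤ n` -/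
def FullEq (v : M → M → M) (n y y' : M) : Prop :=
  (∀ l, l ≤ n → v y l = v y' l) ∧ ∀ l l', l ≤ n → l' ≤ n → (pre v y l l' ↔ pre v y' l l')

private theorem OA_fb_le (y u n : M) : fb v y u n ≤ n := by
  unfold fb least
  split_ifs with h
  · exact (Classical.choose_spec h).1.1
  · exact zero_le

private theorem OA_good_full {n y y' u u' : M} (h1 : FullEq v n y y') (h2 : FullEq v n u u') {m : M}
    (hm : m ≤ n) : good v y u n m ↔ good v y' u' n m := by
  unfold good
  rw [h1.1 m hm, h2.1 m hm]
  refine and_congr_right fun _ => forall_congr' fun l => forall_congr' fun hl => ?_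
  rw [h1.2 l m hl hm, h2.2 l m hl hm]

private theorem OA_fb_full {n y y' u u' : M} (h1 : FullEq v n y y') (h2 : FullEq v n u u') :
    fb v y u n = fb v y' u' n := by
  unfold fb
  congr 1
  funext m
  refine propext (and_congr_right fun hm => ?_)
  rw [OA_good_full h1 h2 hm]
  refine and_congr_right fun _ => forall_congr' fun l => forall_congr' fun hl => ?_
  rw [OA_good_full h1 h2 hl, h1.2 l m hl hm]

theorem dl_full {n y y' u u' : M} (h1 : FullEq v n y y') (h2 : FullEq v n u u') :
    dl v y u n = dl v y' u' n := by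
  have e1 := OA_fb_full h1 h2
  have e2 := OA_fb_full h2 h1
  have e3 : (∀ m, m ≤ n → good v y u n m) ↔ ∀ m, m ≤ n → good v y' u' n m :=
    forall_congr' fun m => forall_congr' fun hm => OA_good_full h1 h2 hm
  unfold dl
  rw [e1, e2, h1.1 _ (OA_fb_le y' u' n), h2.1 _ (OA_fb_le u' y' n)]
  by_cases h : ∀ m, m ≤ n → good v y u n m
  · rw [if_pos h, if_pos (e3.1 h)]
  · rw [if_neg h, if_neg (fun h' => h (e3.2 h'))]

theorem dl_full_zero {n y u : M} (h : FullEq v n y u) : dl v y u n = 0 := by
  rw [dl_eq_zero]
  exact fun m hm => ⟨h.1 m hm, fun l hl => h.2 l m hl hm⟩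

/-- a letter with different values is bad -/
theorem dl_ne_zero_of_val {y u n t0 : M} (h0 : t0 ≤ n) (h : v y t0 ≠ v u t0) : dl v y u n ≠ 0 := by
  intro hd
  rw [dl_eq_zero] at hd
  exact h (hd t0 h0).1

end EMC
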