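import Pool.Agent.Lib.MP_531058_lc.EMC.OA

/-!
# Equality of the bottom parts of the stacks and the comparison
-/

namespace EMC

open Classical
open Pool.Agent.Lib.MP_531058_lc.RCA

variable {M : Type*} [DSR M] {s : Sys M}

variable {v : M → M → M}

/-- the bottom parts (letters `≤ n` with `lam v y · ≤ a`, resp. `lam v y' · ≤ a'`) are equal -/
def BotEq (v : M → M → M) (n y a y' a' : M) : Prop :=
  (∀ l, l ≤ n → (lam v y l ≤ a ↔ lam v y' l ≤ a')) ∧
  (∀ l, l ≤ n → lam v y l ≤ a → v y l = v y' l) ∧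
  (∀ l l', l ≤ n → l' ≤ n → lam v y l ≤ a → lam v y l' ≤ a → (pre v y l l' ↔ pre v y' l l'))

theorem BotEq.symm {n y a y' a' : M} (h : BotEq v n y a y' a') : BotEq v n y' a' y a := by
  obtain ⟨h1, h2, h3⟩ := h
  exact ⟨fun l hl => (h1 l hl).symm, fun l hl h => (h2 l hl ((h1 l hl).2 h)).symm,
    fun l l' hl hl' h h' => (h3 l l' hl hl' ((h1 l hl).2 h) ((h1 l' hl').2 h')).symm⟩

theorem BotEq.trans {n y a y' a' y'' a'' : M} (h : BotEq v n y a y' a')
    (h' : BotEq v n y' a' y'' a'') : BotEq v n y a y'' a'' := by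
  obtain ⟨h1, h2, h3⟩ := h
  obtain ⟨k1, k2, k3⟩ := h'
  exact ⟨fun l hl => (h1 l hl).trans (k1 l hl),
    fun l hl h => (h2 l hl h).trans (k2 l hl ((h1 l hl).1 h)),
    fun l l' hl hl' h h' => (h3 l l' hl hl' h h').trans
      (k3 l l' hl hl' ((h1 l hl).1 h) ((h1 l' hl').1 h'))⟩

/-- the first bad letter is in the bottom part if some letter of the bottom part is bad -/
theorem lam_fb_le (hv : FR s (fun x : M × M => v x.1 x.2)) {y u n t0 a : M} (h0 : t0 ≤ n)
    (hb : ¬ good v y u n t0) (ha : lam v y t0 ≤ a) : lam v y (fb v y u n) ≤ a := by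
  obtain ⟨-, -, h3⟩ := fb_spec hv ⟨t0, h0, hb⟩
  exact (lam_le_of_not_pre (h3 t0 h0 hb)).trans ha

private theorem OB_lam_le_of_pre {t a b : M} (h : pre v t a b) : lam v t a ≤ lam v t b :=
  lam_le_of_not_pre (pre_asymm h)

private theorem OB_preBot {n y a y' a' l k : M} (h : BotEq v n y a y' a') (hl : l ≤ n)
    (hla : lam v y l ≤ a) (hk : k ≤ n) : pre v y k l ↔ pre v y' k l := by
  obtain ⟨h1, h2, h3⟩ := h
  constructor
  · intro hp
    exact (h3 k l hk hl ((OB_lam_le_of_pre hp).trans hla) hla).1 hp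
  · intro hp
    have h4 := (h1 l hl).1 hla
    have h5 := (h1 k hk).2 ((OB_lam_le_of_pre hp).trans h4)
    exact (h3 k l hk hl h5 hla).2 hp

private theorem OB_goodBot {n y a y' a' u b u' b' l : M} (h1 : BotEq v n y a y' a')
    (h2 : BotEq v n u b u' b') (hl : l ≤ n) (hla : lam v y l ≤ a) (hlb : lam v u l ≤ b) :
    good v y u n l ↔ good v y' u' n l := by
  unfold good
  rw [h1.2.1 l hl hla, h2.2.1 l hl hlb]
  refine and_congr_right fun _ => forall_congr' fun k => forall_congr' fun hk => ?_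
  rw [OB_preBot h1 hl hla hk, OB_preBot h2 hl hlb hk]

/-- letters at or before `t0` -/
private theorem OB_key {n y a y' a' u b u' b' t0 l : M}
    (h1 : BotEq v n y a y' a') (h2 : BotEq v n u b u' b') (h0 : t0 ≤ n) (hy : lam v y t0 ≤ a)
    (hu : lam v u t0 ≤ b) (hl : l ≤ n) (hlt : ¬ pre v y t0 l) :
    good v y u n l ↔ good v y' u' n l := by
  have hla : lam v y l ≤ a := (lam_le_of_not_pre hlt).trans hy
  by_cases hlb : lam v u l ≤ b
  · exact OB_goodBot h1 h2 hl hla hlb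
  · have h3 : ¬ good v y u n l := by
      rintro ⟨-, hg⟩
      exact hlt ((hg t0 h0).2 (Or.inl (lt_of_le_of_lt hu (not_le.1 hlb))))
    have hlb' : ¬ lam v u' l ≤ b' := fun h => hlb ((h2.1 l hl).2 h)
    have hu' : lam v u' t0 ≤ b' := (h2.1 t0 h0).1 hu
    have h4 : ¬ good v y' u' n l := by
      rintro ⟨-, hg⟩
      have h5 := (hg t0 h0).2 (Or.inl (lt_of_le_of_lt hu' (not_le.1 hlb')))
      exact hlt ((OB_preBot h1 hl hla h0).2 h5)
    exact ⟨fun h => absurd h h3, fun h => absurd h h4⟩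

/-- Proof: the letters which are at or before `t0` in the order of `y` are in the bottom part of `y`;
if such a letter `l` is not in the bottom part of `u` then `t0` is a predecessor of `l` at `u` but not
at `y`, so `l` is bad, for `(y,u)` and for `(y',u')`; if it is in both bottom parts then its predecessors
are the same at `y, y'` and at `u, u'`. So `good v y u n l ↔ good v y' u' n l` for these letters. -/
theorem fb_congr (hv : FR s (fun x : M × M => v x.1 x.2)) {n y a y' a' u b u' b' t0 : M}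
    (h1 : BotEq v n y a y' a') (h2 : BotEq v n u b u' b') (h0 : t0 ≤ n) (hy : lam v y t0 ≤ a)
    (hu : lam v u t0 ≤ b) (hne : v y t0 ≠ v u t0) : fb v y u n = fb v y' u' n := by
  have hbad : ¬ good v y u n t0 := fun h => hne h.1
  obtain ⟨h3, h4, h5⟩ := fb_spec hv ⟨t0, h0, hbad⟩
  have hm := h5 t0 h0 hbad
  have hma : lam v y (fb v y u n) ≤ a := lam_fb_le hv h0 hbad hy
  symm
  refine fb_eq h3 (fun h => h4 ((OB_key h1 h2 h0 hy hu h3 hm).2 h)) fun l hl hbl hp => ?_
  have hp' : pre v y l (fb v y u n) := (OB_preBot h1 h3 hma hl).2 hp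
  have hlt : ¬ pre v y t0 l := fun h => hm (pre_trans h hp')
  exact h5 l hl (fun h => hbl ((OB_key h1 h2 h0 hy hu hl hlt).1 h)) hp'

theorem dl_congr (hv : FR s (fun x : M × M => v x.1 x.2)) {n y a y' a' u b u' b' t0 : M}
    (h1 : BotEq v n y a y' a') (h2 : BotEq v n u b u' b') (h0 : t0 ≤ n) (hy : lam v y t0 ≤ a)
    (hu : lam v u t0 ≤ b) (hne : v y t0 ≠ v u t0) : dl v y u n = dl v y' u' n := by
  have hne' : v y' t0 ≠ v u' t0 := by
    rw [← h1.2.1 t0 h0 hy, ← h2.2.1 t0 h0 hu]; exact hne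
  have hbad : ¬ good v y u n t0 := fun h => hne h.1
  have hbad' : ¬ good v u y n t0 := fun h => hne h.1.symm
  have e1 := fb_congr hv h1 h2 h0 hy hu hne
  have e2 := fb_congr hv h2 h1 h0 hu hy (Ne.symm hne)
  have a1 : lam v y (fb v y u n) ≤ a := lam_fb_le hv h0 hbad hy
  have a2 : lam v u (fb v u y n) ≤ b := lam_fb_le hv h0 hbad' hu
  have b1 : fb v y u n ≤ n := (fb_spec hv ⟨t0, h0, hbad⟩).1
  have b2 : fb v u y n ≤ n := (fb_spec hv ⟨t0, h0, hbad'⟩).1
  have c1 : ¬ ∀ m, m ≤ n → good v y u n m := fun h => hbad (h t0 h0)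
  have c2 : ¬ ∀ m, m ≤ n → good v y' u' n m := fun h => hne' (h t0 h0).1
  unfold dl
  rw [if_neg c1, if_neg c2, ← e1, ← e2, ← h1.2.1 _ b1 a1, ← h2.2.1 _ b2 a2]

end EMC
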