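import Pool.Agent.Lib.MP_531058_lc.EMC.OB
import Pool.Agent.Lib.MP_531058_lc.EMC.ApiC3

/-!
# Late times; bounds for `Nst`
-/

namespace EMC

open Classical
open Pool.Agent.Lib.MP_531058_lc.RCA

variable {M : Type*} [DSR M] {s : Sys M}

variable {v : M → M → M}

/-- `s0` is late for the letters `≤ T`: a letter `≤ T` which does not flip in `(T, y]` for some `y ≥ s0` never
flips after `T` -/
def Late (v : M → M → M) (T s0 : M) : Prop :=
  T ≤ s0 ∧ ∀ n, n ≤ T → ∀ y, s0 ≤ y → quiet v n T y → ∀ u, quiet v n T u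

theorem exists_late (hv : FR s (fun x : M × M => v x.1 x.2)) (T : M) : ∃ s0, Late v T s0 := by
  have hQ : FP s (fun x : M × M => ¬ quiet v x.1 T x.2) :=
    FP.not (FP.quiet hv FR.fst (FR.const (β := M) T) FR.snd)
  obtain ⟨B, hB⟩ := strong_bound hQ (T + 1)
  refine ⟨T + B, le_self_add, fun n hn y hy hq u => ?_⟩
  by_contra hcon
  obtain ⟨m, hm, hm'⟩ := hB n (DSR.lt_succ_iff.2 hn) ⟨u, hcon⟩
  apply hm'
  intro t h1 h2
  have h3 : B ≤ y := le_trans le_add_self hy
  exact hq t h1 (h2.trans (hm.le.trans h3))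

theorem Late_mono {T s0 s1 : M} (h : Late v T s0) (h1 : s0 ≤ s1) : Late v T s1 :=
  ⟨h.1.trans h1, fun n hn y hy hq u => h.2 n hn y (h1.trans hy) hq u⟩

/-- Proof: let `n < T` with `dl v y u n ≠ 0` and `lam v y m ≤ n`, `m = fb v y u n`. By lateness `m` is quiet
on `[T, u]`: same value and same `lam` at `y` and `u`. Predecessors `l` of `m` (at `y` or at `u`) have
`lam ≤ T` there, so they are quiet on `[T, u]` and have the same `lam` at `y` and `u`: `m` is good. -/
theorem Nst_ge (hv : FR s (fun x : M × M => v x.1 x.2)) {T s0 y u : M} (hl : Late v T s0)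
    (hy : s0 ≤ y) (hu : s0 ≤ u) : T ≤ Nst v y u := by
  by_contra hcon
  have hlt : Nst v y u < T := not_le.1 hcon
  have hTy : T ≤ y := hl.1.trans hy
  have hTu : T ≤ u := hl.1.trans hu
  rcases (Nst_spec hv y u).1 with h | ⟨h1, h2⟩
  · rw [h] at hlt
    exact absurd hlt (not_lt.2 hTy)
  · have hbad : ∃ m, m ≤ Nst v y u ∧ ¬ good v y u (Nst v y u) m := by
      by_contra hc
      push Not at hc
      exact h1 (dl_eq_zero.2 hc)
    obtain ⟨h3, h4, -⟩ := fb_spec hv hbad
    generalize hm : fb v y u (Nst v y u) = m at h2 h3 h4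
    generalize hn : Nst v y u = n at h2 h3 h4 hlt
    -- letters which are quiet from `T` on
    have key : ∀ l, l ≤ n → lam v y l ≤ T → lam v u l = lam v y l ∧ v u l = v y l := by
      intro l hln hlam
      have hlT : l ≤ T := hln.trans hlt.le
      have hq := hl.2 l hlT y hy ((lam_le_iff hv hTy).1 hlam)
      refine ⟨?_, ?_⟩
      · rw [lam_of_quiet hv (hq u) hTu le_rfl, lam_of_quiet hv (hq y) hTy le_rfl]
      · rw [hq u u hTu le_rfl, hq y y hTy le_rfl]
    have key' : ∀ l, l ≤ n → lam v u l ≤ T → lam v u l = lam v y l := by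
      intro l hln hlam
      have hlT : l ≤ T := hln.trans hlt.le
      have hq := hl.2 l hlT u hu ((lam_le_iff hv hTu).1 hlam)
      rw [lam_of_quiet hv (hq u) hTu le_rfl, lam_of_quiet hv (hq y) hTy le_rfl]
    have hmT : lam v y m ≤ T := h2.trans hlt.le
    obtain ⟨hm1, hm2⟩ := key m h3 hmT
    apply h4
    refine ⟨hm2.symm, fun l hln => ?_⟩
    constructor
    · intro hp
      have h5 : lam v y l ≤ T := by
        rcases hp with hp | hp
        · exact hp.le.trans hmT
        · exact hp.1.le.trans hmT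
      have h6 := (key l hln h5).1
      unfold pre at hp ⊢
      rw [h6, hm1]
      exact hp
    · intro hp
      have h5 : lam v u l ≤ T := by
        rcases hp with hp | hp
        · exact hp.le.trans (hm1.le.trans hmT)
        · exact hp.1.le.trans (hm1.le.trans hmT)
      have h6 := key' l hln h5
      unfold pre at hp ⊢
      rw [← h6, ← hm1]
      exact hp

theorem Nst_le (hv : FR s (fun x : M × M => v x.1 x.2)) {y u a t0 : M} (h0 : t0 ≤ a)
    (ha : lam v y t0 ≤ a) (hne : v y t0 ≠ v u t0) : Nst v y u ≤ a := by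
  by_contra hcon
  exact (Nst_spec hv y u).2 a (not_le.1 hcon)
    (Or.inr ⟨dl_ne_zero_of_val h0 hne, lam_fb_le hv h0 (fun h => hne h.1) ha⟩)

/-- `Nst` depends only on the bottom parts. `y, y'` have the same bottom part with threshold `a` (same
letters, same `lam`, same values), `u, u'` have the same bottom part; `t0 ≤ T ≤ a`, and no `n < T`
stops. -/
theorem Nst_congr (hv : FR s (fun x : M × M => v x.1 x.2)) {T a b y y' u u' t0 : M}
    (h0 : t0 ≤ T) (hTa : T ≤ a) (hay : a ≤ y) (hay' : a ≤ y')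
    (h1 : ∀ n, n ≤ a → BotEq v n y a y' a) (hlam : ∀ l, l ≤ a → lam v y l ≤ a → lam v y' l = lam v y l)
    (h2 : ∀ n, n ≤ a → BotEq v n u b u' b)
    (hy : lam v y t0 ≤ a) (hu : lam v u t0 ≤ b) (hne : v y t0 ≠ v u t0)
    (hN : T ≤ Nst v y u) (hN' : T ≤ Nst v y' u') : Nst v y u = Nst v y' u' := by
  have h0a : t0 ≤ a := h0.trans hTa
  have hy' : lam v y' t0 ≤ a := by rw [hlam t0 h0a hy]; exact hy
  have hne' : v y' t0 ≠ v u' t0 := by
    rw [← (h1 a le_rfl).2.1 t0 h0a hy, ← (h2 a le_rfl).2.1 t0 h0a hu]; exact hne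
  have hNa := Nst_le hv h0a hy hne
  have hNa' := Nst_le hv h0a hy' hne'
  have hkey : ∀ n, T ≤ n → n ≤ a → (lam v y (fb v y u n) ≤ n ↔ lam v y' (fb v y' u' n) ≤ n) := by
    intro n hTn hna
    have h0n : t0 ≤ n := h0.trans hTn
    have hbad : ¬ good v y u n t0 := fun h => hne h.1
    have e1 := fb_congr hv (h1 n hna) (h2 n hna) h0n hy hu hne
    have e2 : lam v y (fb v y u n) ≤ a := lam_fb_le hv h0n hbad hy
    have e3 : fb v y u n ≤ n := (fb_spec hv ⟨t0, h0n, hbad⟩).1
    rw [← e1, hlam _ (e3.trans hna) e2]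
  have hP : ∀ n, T ≤ n → n ≤ a → (n = y ∨ (dl v y u n ≠ 0 ∧ lam v y (fb v y u n) ≤ n)) →
      (n = y' ∨ (dl v y' u' n ≠ 0 ∧ lam v y' (fb v y' u' n) ≤ n)) := by
    intro n hTn hna h
    have h0n : t0 ≤ n := h0.trans hTn
    refine Or.inr ⟨dl_ne_zero_of_val h0n hne', ?_⟩
    rcases h with h | ⟨-, h⟩
    · have e : n = a := le_antisymm hna (h ▸ hay)
      rw [e]
      exact lam_fb_le hv h0a (fun h => hne' h.1) hy'
    · exact (hkey n hTn hna).1 h
  have hP' : ∀ n, T ≤ n → n ≤ a → (n = y' ∨ (dl v y' u' n ≠ 0 ∧ lam v y' (fb v y' u' n) ≤ n)) →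
      (n = y ∨ (dl v y u n ≠ 0 ∧ lam v y (fb v y u n) ≤ n)) := by
    intro n hTn hna h
    have h0n : t0 ≤ n := h0.trans hTn
    refine Or.inr ⟨dl_ne_zero_of_val h0n hne, ?_⟩
    rcases h with h | ⟨-, h⟩
    · have e : n = a := le_antisymm hna (h ▸ hay')
      rw [e]
      exact lam_fb_le hv h0a (fun h => hne h.1) hy
    · exact (hkey n hTn hna).2 h
  obtain ⟨s1, s2⟩ := Nst_spec hv y u
  obtain ⟨s1', s2'⟩ := Nst_spec hv y' u'
  rcases lt_trichotomy (Nst v y u) (Nst v y' u') with h | h | h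
  · exact absurd (hP _ hN hNa s1) (s2' _ h)
  · exact h
  · exact absurd (hP' _ hN' hNa' s1') (s2 _ h)

end EMC
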