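import Pool.Agent.Lib.MP_531058_lc.EMC.OC

/-!
# Schemes of configurations

`Sch s v H q`: levels `0, ..., q-1`. `t j` = the letter of level `j`. For every `x : M` there is a
configuration (number `x`) inside `[x, E x]`: marks `Y σ x ∈ H` (`σ` = state, only `σ 0, ..., σ (q-1)` matter),
`A j σ x` = start of the phase of level `j` which contains `Y σ x` (depends only on `σ j, ..., σ (q-1)`).
-/

namespace EMC

open Classical
open Pool.Agent.Lib.MP_531058_lc.RCA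

variable {M : Type*} [DSR M] {s : Sys M}

structure Sch (s : Sys M) (v : M → M → M) (H : Set M) (q : ℕ) where
  t : ℕ → M
  Y : (ℕ → Bool) → M → M
  A : ℕ → (ℕ → Bool) → M → M
  E : M → M
  cmpY : ∀ σ, FR s (Y σ)
  cmpA : ∀ j σ, FR s (A j σ)
  cmpE : FR s E
  extY : ∀ σ σ' x, (∀ k, k < q → σ k = σ' k) → Y σ x = Y σ' x
  extA : ∀ j σ σ' x, (∀ k, j ≤ k → k < q → σ k = σ' k) → A j σ x = A j σ' x
  t_mono : ∀ i j, i < j → j < q → t i < t j
  mark : ∀ σ x, Y σ x ∈ H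
  bdA : ∀ j σ x, j < q → x ≤ A j σ x ∧ A j σ x ≤ Y σ x
  bdY : ∀ σ x, x ≤ Y σ x ∧ Y σ x ≤ E x
  const : ∀ j σ x, j < q → ∀ r, A j σ x ≤ r → r ≤ Y σ x → v r (t j) = bv M (σ j)
  clean : ∀ j σ σ' x, j < q → (∀ k, j ≤ k → k < q → σ k = σ' k) → ∀ n, n ≤ A j σ x →
    (quiet v n (A j σ x) (Y σ x) ↔ quiet v n (A j σ x) (Y σ' x))
  type_v : ∀ i, i < q → ∀ σ σ' x x', (∀ k, k ≤ i → σ k = σ' k) → ∀ n, n ≤ t i →
    v (Y σ x) n = v (Y σ' x') n
  type_o : ∀ i, i < q → ∀ σ σ' x x', (∀ k, k ≤ i → σ k = σ' k) → ∀ n n', n ≤ t i → n' ≤ t i →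
    (lam v (Y σ x) n < lam v (Y σ x) n' ↔ lam v (Y σ' x') n < lam v (Y σ' x') n')
  type_a : ∀ i j, j ≤ i → i < q → ∀ σ σ' x x', (∀ k, k ≤ i → σ k = σ' k) → ∀ n, n ≤ t i →
    (lam v (Y σ x) n ≤ A j σ x ↔ lam v (Y σ' x') n ≤ A j σ' x')

namespace Sch

variable {v : M → M → M} {H : Set M} {q : ℕ}

/-- equality of `pre` from equality of types -/
theorem type_pre (S : Sch s v H q) (i : ℕ) (hi : i < q) (σ σ' : ℕ → Bool) (x x' : M)
    (h : ∀ k, k ≤ i → σ k = σ' k) (n n' : M) (hn : n ≤ S.t i) (hn' : n' ≤ S.t i) :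
    pre v (S.Y σ x) n n' ↔ pre v (S.Y σ' x') n n' := by
  have h1 := S.type_o i hi σ σ' x x' h n n' hn hn'
  have h2 := S.type_o i hi σ σ' x x' h n' n hn' hn
  have h3 : lam v (S.Y σ x) n = lam v (S.Y σ x) n' ↔
      lam v (S.Y σ' x') n = lam v (S.Y σ' x') n' := by
    constructor
    · intro he
      refine le_antisymm (not_lt.1 fun hlt => ?_) (not_lt.1 fun hlt => ?_)
      · exact absurd (h2.2 hlt) (by rw [he]; exact lt_irrefl _)
      · exact absurd (h1.2 hlt) (by rw [he]; exact lt_irrefl _)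
    · intro he
      refine le_antisymm (not_lt.1 fun hlt => ?_) (not_lt.1 fun hlt => ?_)
      · exact absurd (h2.1 hlt) (by rw [he]; exact lt_irrefl _)
      · exact absurd (h1.1 hlt) (by rw [he]; exact lt_irrefl _)
  unfold pre
  rw [h1, h3]

theorem t_le (S : Sch s v H q) {i j : ℕ} (h : i ≤ j) (hj : j < q) : S.t i ≤ S.t j := by
  rcases Nat.lt_or_ge i j with h1 | h1
  · exact (S.t_mono i j h1 hj).le
  · rw [le_antisymm h h1]

/-- the letter of level `j` is in the bottom part of level `j` -/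
theorem lam_t (hv : FR s (fun x : M × M => v x.1 x.2)) (S : Sch s v H q) {j : ℕ} (hj : j < q)
    (σ : ℕ → Bool) (x : M) : lam v (S.Y σ x) (S.t j) ≤ S.A j σ x := by
  have hb := S.bdA j σ x hj
  rw [lam_le_iff hv hb.2]
  intro r h1 h2
  rw [S.const j σ x hj r h1 h2, S.const j σ x hj _ le_rfl hb.2]

theorem v_t (S : Sch s v H q) {j : ℕ} (hj : j < q) (σ : ℕ → Bool) (x : M) :
    v (S.Y σ x) (S.t j) = bv M (σ j) :=
  S.const j σ x hj _ (S.bdA j σ x hj).2 le_rfl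

/-- (P3') -/
theorem botEq_clean (hv : FR s (fun x : M × M => v x.1 x.2)) (S : Sch s v H q) {j : ℕ} (hj : j < q)
    (σ σ' : ℕ → Bool) (x : M) (h : ∀ k, j ≤ k → k < q → σ k = σ' k) (n : M)
    (hn : n ≤ S.A j σ x) :
    BotEq v n (S.Y σ x) (S.A j σ x) (S.Y σ' x) (S.A j σ' x) := by
  have hA : S.A j σ' x = S.A j σ x := (S.extA j σ σ' x h).symm
  have hb := (S.bdA j σ x hj).2
  have hb' : S.A j σ x ≤ S.Y σ' x := hA ▸ (S.bdA j σ' x hj).2
  rw [hA]
  have hq : ∀ l, l ≤ n → (lam v (S.Y σ x) l ≤ S.A j σ x ↔ lam v (S.Y σ' x) l ≤ S.A j σ x) := by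
    intro l hl
    rw [lam_le_iff hv hb, lam_le_iff hv hb']
    exact S.clean j σ σ' x hj h l (hl.trans hn)
  have hl1 : ∀ l, l ≤ n → lam v (S.Y σ x) l ≤ S.A j σ x →
      lam v (S.Y σ x) l = lam v (S.A j σ x) l ∧ v (S.Y σ x) l = v (S.A j σ x) l := by
    intro l _ h1
    have h2 := (lam_le_iff hv hb).1 h1
    exact ⟨lam_of_quiet hv h2 hb le_rfl, h2 _ hb le_rfl⟩
  have hl2 : ∀ l, l ≤ n → lam v (S.Y σ x) l ≤ S.A j σ x →
      lam v (S.Y σ' x) l = lam v (S.A j σ x) l ∧ v (S.Y σ' x) l = v (S.A j σ x) l := by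
    intro l hl h1
    have h2 := (lam_le_iff hv hb').1 ((hq l hl).1 h1)
    exact ⟨lam_of_quiet hv h2 hb' le_rfl, h2 _ hb' le_rfl⟩
  refine ⟨hq, fun l hl h1 => ?_, fun l l' hl hl' h1 h1' => ?_⟩
  · rw [(hl1 l hl h1).2, (hl2 l hl h1).2]
  · unfold pre
    rw [(hl1 l hl h1).1, (hl2 l hl h1).1, (hl1 l' hl' h1').1, (hl2 l' hl' h1').1]

/-- the `lam` of bottom letters is the same for all marks of the phase -/
theorem lam_clean (hv : FR s (fun x : M × M => v x.1 x.2)) (S : Sch s v H q) {j : ℕ} (hj : j < q)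
    (σ σ' : ℕ → Bool) (x : M) (h : ∀ k, j ≤ k → k < q → σ k = σ' k) (l : M)
    (hl : l ≤ S.A j σ x) (hl' : lam v (S.Y σ x) l ≤ S.A j σ x) :
    lam v (S.Y σ' x) l = lam v (S.Y σ x) l := by
  have hA : S.A j σ' x = S.A j σ x := (S.extA j σ σ' x h).symm
  have hb := (S.bdA j σ x hj).2
  have hb' : S.A j σ x ≤ S.Y σ' x := hA ▸ (S.bdA j σ' x hj).2
  have h2 := (lam_le_iff hv hb).1 hl'
  have h2' := (S.clean j σ σ' x hj h l hl).1 h2
  rw [lam_of_quiet hv h2 hb le_rfl, lam_of_quiet hv h2' hb' le_rfl]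

/-- (P4) -/
theorem botEq_type (S : Sch s v H q) {i j : ℕ} (hji : j ≤ i) (hi : i < q)
    (σ σ' : ℕ → Bool) (x x' : M) (h : ∀ k, k ≤ i → σ k = σ' k) (n : M) (hn : n ≤ S.t i) :
    BotEq v n (S.Y σ x) (S.A j σ x) (S.Y σ' x') (S.A j σ' x') :=
  ⟨fun l hl => S.type_a i j hji hi σ σ' x x' h l (hl.trans hn),
    fun l hl _ => S.type_v i hi σ σ' x x' h l (hl.trans hn),
    fun l l' hl hl' _ _ => S.type_pre i hi σ σ' x x' h l l' (hl.trans hn) (hl'.trans hn)⟩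

theorem full_type (S : Sch s v H q) {i : ℕ} (hi : i < q)
    (σ σ' : ℕ → Bool) (x x' : M) (h : ∀ k, k ≤ i → σ k = σ' k) (n : M) (hn : n ≤ S.t i) :
    FullEq v n (S.Y σ x) (S.Y σ' x') :=
  ⟨fun l hl => S.type_v i hi σ σ' x x' h l (hl.trans hn),
    fun l l' hl hl' => S.type_pre i hi σ σ' x x' h l l' (hl.trans hn) (hl'.trans hn)⟩

/-- (LOC): compare `σ` with `σ₁ := σ` on `≤ i`, `σ'` above `i` (`botEq_type`), then `σ₁` with `σ'`
(`botEq_clean`, `n ≤ t i ≤ x' ≤ A j σ₁ x'`) -/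
theorem botEq_loc (hv : FR s (fun x : M × M => v x.1 x.2)) (S : Sch s v H q) {i j : ℕ}
    (hji : j ≤ i) (hi : i < q) (σ σ' : ℕ → Bool) (x x' : M) (hx' : S.t i ≤ x')
    (h : ∀ k, j ≤ k → k ≤ i → σ k = σ' k) (n : M) (hn : n ≤ S.t i) :
    BotEq v n (S.Y σ x) (S.A j σ x) (S.Y σ' x') (S.A j σ' x') := by
  have h1 := S.botEq_type hji hi σ (fun k => if k ≤ i then σ k else σ' k) x x'
    (fun k hk => by simp [hk]) n hn
  have h2 := S.botEq_clean hv (lt_of_le_of_lt hji hi) (fun k => if k ≤ i then σ k else σ' k) σ' x'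
    (fun k hk _ => by
      by_cases hki : k ≤ i
      · simp only [hki, if_true]; exact h k hk hki
      · simp only [hki, if_false]) n
    ((hn.trans hx').trans (S.bdA j _ x' (lt_of_le_of_lt hji hi)).1)
  exact h1.trans h2

end Sch

theorem bv_ne {b c : Bool} (h : b ≠ c) : bv M b ≠ bv M c := by
  have h12 : (1 : M) < 2 := one_lt_two
  cases b <;> cases c
  · exact absurd rfl h
  · exact h12.ne
  · exact h12.ne'
  · exact absurd rfl h

end EMC
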