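import Pool.Agent.Lib.MP_531058_lc.EMC.SA

/-!
# Locality of the comparison for marks of a scheme
-/

namespace EMC

open Classical
open Pool.Agent.Lib.MP_531058_lc.RCA

variable {M : Type*} [DSR M] {s : Sys M}

namespace Sch

variable {v : M → M → M} {H : Set M} {q : ℕ}

/-- for letters `≤ t i` the comparison depends only on the states of the levels `≤ i` -/
theorem dl_type (S : Sch s v H q) {i : ℕ} (hi : i < q) (σ σ' τ τ' : ℕ → Bool) (x x' y y' : M)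
    (h : ∀ k, k ≤ i → σ k = σ' k) (h' : ∀ k, k ≤ i → τ k = τ' k) (n : M) (hn : n ≤ S.t i) :
    dl v (S.Y σ x) (S.Y τ y) n = dl v (S.Y σ' x') (S.Y τ' y') n :=
  dl_full (S.full_type hi σ σ' x x' h n hn) (S.full_type hi τ τ' y y' h' n hn)

/-- if `j` is a level of difference and `t j ≤ n ≤ t i`, only the levels in `[j, i]` matter -/
theorem dl_loc (hv : FR s (fun x : M × M => v x.1 x.2)) (S : Sch s v H q) {i j : ℕ}
    (hji : j ≤ i) (hi : i < q) (σ σ' τ τ' : ℕ → Bool) (x x' y y' : M) (hx' : S.t i ≤ x')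
    (hy' : S.t i ≤ y') (hne : σ j ≠ τ j) (h : ∀ k, j ≤ k → k ≤ i → σ k = σ' k)
    (h' : ∀ k, j ≤ k → k ≤ i → τ k = τ' k) (n : M) (hn0 : S.t j ≤ n) (hn : n ≤ S.t i) :
    dl v (S.Y σ x) (S.Y τ y) n = dl v (S.Y σ' x') (S.Y τ' y') n := by
  have hj : j < q := lt_of_le_of_lt hji hi
  refine dl_congr hv (S.botEq_loc hv hji hi σ σ' x x' hx' h n hn)
    (S.botEq_loc hv hji hi τ τ' y y' hy' h' n hn) hn0 (S.lam_t hv hj σ x) (S.lam_t hv hj τ y) ?_
  rw [S.v_t hj, S.v_t hj]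
  exact bv_ne hne

/-- the comparison is not `0` from the first letter of difference on -/
theorem dl_ne (S : Sch s v H q) {j : ℕ} (hj : j < q) (σ τ : ℕ → Bool) (x y : M)
    (hne : σ j ≠ τ j) (n : M) (hn : S.t j ≤ n) : dl v (S.Y σ x) (S.Y τ y) n ≠ 0 := by
  refine dl_ne_zero_of_val hn ?_
  rw [S.v_t hj, S.v_t hj]
  exact bv_ne hne

/-- the top part: `e` = highest level of difference; for `n` up to the start of the phase of `σ` the
comparison depends only on the phases of level `e` -/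
theorem dl_phase (hv : FR s (fun x : M × M => v x.1 x.2)) (S : Sch s v H q) {e : ℕ} (he : e < q)
    (σ σ' τ τ' : ℕ → Bool) (x y : M) (hxy : S.E x ≤ y) (hne : σ e ≠ τ e)
    (h : ∀ k, e ≤ k → k < q → σ k = σ' k) (h' : ∀ k, e ≤ k → k < q → τ k = τ' k)
    (n : M) (hn0 : S.t e ≤ n) (hn : n ≤ S.A e σ x) :
    dl v (S.Y σ x) (S.Y τ y) n = dl v (S.Y σ' x) (S.Y τ' y) n := by
  have hb : n ≤ S.A e τ y :=
    (((hn.trans (S.bdA e σ x he).2).trans (S.bdY σ x).2).trans hxy).trans (S.bdA e τ y he).1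
  refine dl_congr hv (S.botEq_clean hv he σ σ' x h n hn) (S.botEq_clean hv he τ τ' y h' n hb)
    hn0 (S.lam_t hv he σ x) (S.lam_t hv he τ y) ?_
  rw [S.v_t he, S.v_t he]
  exact bv_ne hne

/-- `Nst` depends only on the phases of level `e` and lies between `t e` and the start of the phase -/
theorem Nst_phase (hv : FR s (fun x : M × M => v x.1 x.2)) (S : Sch s v H q) {e : ℕ} (he : e < q)
    {s0 : M} (hl : Late v (S.t e) s0)
    (σ σ' τ τ' : ℕ → Bool) (x y : M) (hx : s0 ≤ x) (hxy : S.E x ≤ y) (hne : σ e ≠ τ e)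
    (h : ∀ k, e ≤ k → k < q → σ k = σ' k) (h' : ∀ k, e ≤ k → k < q → τ k = τ' k) :
    Nst v (S.Y σ x) (S.Y τ y) = Nst v (S.Y σ' x) (S.Y τ' y) ∧
      S.t e ≤ Nst v (S.Y σ x) (S.Y τ y) ∧ Nst v (S.Y σ x) (S.Y τ y) ≤ S.A e σ x := by
  have hA : S.A e σ' x = S.A e σ x := (S.extA e σ σ' x h).symm
  have hA' : S.A e τ' y = S.A e τ y := (S.extA e τ τ' y h').symm
  have hTa : S.t e ≤ S.A e σ x := (hl.1.trans hx).trans (S.bdA e σ x he).1
  have hab : S.A e σ x ≤ S.A e τ y :=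
    (((S.bdA e σ x he).2.trans (S.bdY σ x).2).trans hxy).trans (S.bdA e τ y he).1
  have hay : S.A e σ x ≤ S.Y σ x := (S.bdA e σ x he).2
  have hay' : S.A e σ x ≤ S.Y σ' x := hA ▸ (S.bdA e σ' x he).2
  have hsx : ∀ ρ, s0 ≤ S.Y ρ x := fun ρ => hx.trans (S.bdY ρ x).1
  have hsy : ∀ ρ, s0 ≤ S.Y ρ y := fun ρ =>
    ((hx.trans ((S.bdY σ x).1.trans (S.bdY σ x).2)).trans hxy).trans (S.bdY ρ y).1
  have hne' : v (S.Y σ x) (S.t e) ≠ v (S.Y τ y) (S.t e) := by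
    rw [S.v_t he, S.v_t he]; exact bv_ne hne
  have hN : S.t e ≤ Nst v (S.Y σ x) (S.Y τ y) := Nst_ge hv hl (hsx σ) (hsy τ)
  have hN' : S.t e ≤ Nst v (S.Y σ' x) (S.Y τ' y) := Nst_ge hv hl (hsx σ') (hsy τ')
  refine ⟨?_, hN, Nst_le hv hTa (S.lam_t hv he σ x) hne'⟩
  refine Nst_congr hv (T := S.t e) (a := S.A e σ x) (b := S.A e τ y) (t0 := S.t e) le_rfl hTa hay
    hay' ?_ ?_ ?_ (S.lam_t hv he σ x) (S.lam_t hv he τ y) hne' hN hN'
  · intro n hn
    have := S.botEq_clean hv he σ σ' x h n hn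
    rwa [hA] at this
  · intro l hl1 hl2
    exact S.lam_clean hv he σ σ' x h l hl1 hl2
  · intro n hn
    have := S.botEq_clean hv he τ τ' y h' n (hn.trans hab)
    rwa [hA'] at this

end Sch

end EMC
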