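import Pool.Agent.Lib.MP_531058_lc.EMC.SA

/-!
# Pre-schemes: `q` levels, types only for the levels `< r`; the trivial scheme; reindexing
-/

namespace EMC

open Classical
open Pool.Agent.Lib.MP_531058_lc.RCA

variable {M : Type*} [DSR M] {s : Sys M}

structure PSch (s : Sys M) (v : M → M → M) (H : Set M) (q r : ℕ) where
  t : ℕ → M
  Y : (ℕ → Bool) → M → M
  A : ℕ → (ℕ → Bool) → M → M
  E : M → M
  cmpY : ∀ σ, FR s (Y σ)
  cmpA : ∀ j σ, FR s (A j σ)
  cmpE : FR s E
  extY : ∀ σ σ' x, (∀ k, k < q → σ k = σ' k) → Y σ x = Y σ' x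
  extA : ∀ j σ σ' x, (∀ k, j ≤ k → k < q → σ k = σ' k) → A j σ x = A j σ' x
  t_mono : ∀ i j, i < j → j < q → t i < t j
  mark : ∀ σ x, Y σ x ∈ H
  bdA : ∀ j σ x, j < q → x ≤ A j σ x ∧ A j σ x ≤ Y σ x
  bdY : ∀ σ x, x ≤ Y σ x ∧ Y σ x ≤ E x
  const : ∀ j σ x, j < q → ∀ r, A j σ x ≤ r → r ≤ Y σ x → v r (t j) = bv M (σ j)
  clean : ∀ j σ σ' x, j < q → (∀ k, j ≤ k → k < q → σ k = σ' k) → ∀ n, n ≤ A j σ x →
    (quiet v n (A j σ x) (Y σ x) ↔ quiet v n (A j σ x) (Y σ' x))
  type_v : ∀ i, i < r → ∀ σ σ' x x', (∀ k, k ≤ i → σ k = σ' k) → ∀ n, n ≤ t i →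
    v (Y σ x) n = v (Y σ' x') n
  type_o : ∀ i, i < r → ∀ σ σ' x x', (∀ k, k ≤ i → σ k = σ' k) → ∀ n n', n ≤ t i → n' ≤ t i →
    (lam v (Y σ x) n < lam v (Y σ x) n' ↔ lam v (Y σ' x') n < lam v (Y σ' x') n')
  type_a : ∀ i j, j ≤ i → i < r → ∀ σ σ' x x', (∀ k, k ≤ i → σ k = σ' k) → ∀ n, n ≤ t i →
    (lam v (Y σ x) n ≤ A j σ x ↔ lam v (Y σ' x') n ≤ A j σ' x')

variable {v : M → M → M} {H : Set M} {q r : ℕ}

theorem PSch.toSch (S : PSch s v H q q) : Nonempty (Sch s v H q) :=
  ⟨{ t := S.t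
     Y := S.Y
     A := S.A
     E := S.E
     cmpY := S.cmpY
     cmpA := S.cmpA
     cmpE := S.cmpE
     extY := S.extY
     extA := S.extA
     t_mono := S.t_mono
     mark := S.mark
     bdA := S.bdA
     bdY := S.bdY
     const := S.const
     clean := S.clean
     type_v := S.type_v
     type_o := S.type_o
     type_a := S.type_a }⟩

theorem psch_zero (hH : FP s (fun x => x ∈ H)) (hU : Unb H) : Nonempty (PSch s v H 0 0) := by
  obtain ⟨g, hg, hg1, -⟩ := FR.mu (s := s) (p := fun x y : M => x ≤ y ∧ y ∈ H)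
    (FP.and (FP.le FR.fst FR.snd) (FP.comp (p := fun x : M => x ∈ H) hH FR.snd)) (fun x => by
      obtain ⟨y, hy, hxy⟩ := hU x
      exact ⟨y, hxy, hy⟩)
  exact ⟨{ t := fun _ => 0
           Y := fun _ x => g x
           A := fun _ _ x => x
           E := g
           cmpY := fun _ => hg
           cmpA := fun _ _ => FR.id
           cmpE := hg
           extY := fun _ _ _ _ => rfl
           extA := fun _ _ _ _ _ => rfl
           t_mono := fun i j _ hj => absurd hj (Nat.not_lt_zero j)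
           mark := fun _ x => (hg1 x).2
           bdA := fun j _ _ hj => absurd hj (Nat.not_lt_zero j)
           bdY := fun _ x => ⟨(hg1 x).1, le_refl _⟩
           const := fun j _ _ hj => absurd hj (Nat.not_lt_zero j)
           clean := fun j _ _ _ hj => absurd hj (Nat.not_lt_zero j)
           type_v := fun i hi => absurd hi (Nat.not_lt_zero i)
           type_o := fun i hi => absurd hi (Nat.not_lt_zero i)
           type_a := fun i _ _ hi => absurd hi (Nat.not_lt_zero i) }⟩

/-- reindexing along `ν` (`Y' σ x = Y σ (ν x)`, ...) keeps everything -/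
theorem PSch.reindex (S : PSch s v H q r) {ν : M → M} (hν : FR s ν) (h : ∀ x, x ≤ ν x) :
    ∃ S' : PSch s v H q r, S'.t = S.t ∧ (∀ σ x, S'.Y σ x = S.Y σ (ν x)) ∧
      (∀ j σ x, S'.A j σ x = S.A j σ (ν x)) := by
  refine ⟨{ t := S.t
            Y := fun σ x => S.Y σ (ν x)
            A := fun j σ x => S.A j σ (ν x)
            E := fun x => S.E (ν x)
            cmpY := fun σ => FR.comp (S.cmpY σ) hν
            cmpA := fun j σ => FR.comp (S.cmpA j σ) hν
            cmpE := FR.comp S.cmpE hν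
            extY := fun σ σ' x h' => S.extY σ σ' (ν x) h'
            extA := fun j σ σ' x h' => S.extA j σ σ' (ν x) h'
            t_mono := S.t_mono
            mark := fun σ x => S.mark σ (ν x)
            bdA := fun j σ x hj => ⟨(h x).trans (S.bdA j σ (ν x) hj).1, (S.bdA j σ (ν x) hj).2⟩
            bdY := fun σ x => ⟨(h x).trans (S.bdY σ (ν x)).1, (S.bdY σ (ν x)).2⟩
            const := fun j σ x hj => S.const j σ (ν x) hj
            clean := fun j σ σ' x hj h' => S.clean j σ σ' (ν x) hj h'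
            type_v := fun i hi σ σ' x x' h' => S.type_v i hi σ σ' (ν x) (ν x') h'
            type_o := fun i hi σ σ' x x' h' => S.type_o i hi σ σ' (ν x) (ν x') h'
            type_a := fun i j hji hi σ σ' x x' h' => S.type_a i j hji hi σ σ' (ν x) (ν x') h' },
    rfl, fun _ _ => rfl, fun _ _ _ => rfl⟩

/-- one more typed level -/
theorem PSch.addType (S : PSch s v H q r)
    (h1 : ∀ σ σ' x x', (∀ k, k ≤ r → σ k = σ' k) → ∀ n, n ≤ S.t r → v (S.Y σ x) n = v (S.Y σ' x') n)
    (h2 : ∀ σ σ' x x', (∀ k, k ≤ r → σ k = σ' k) → ∀ n n', n ≤ S.t r → n' ≤ S.t r →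
      (lam v (S.Y σ x) n < lam v (S.Y σ x) n' ↔ lam v (S.Y σ' x') n < lam v (S.Y σ' x') n'))
    (h3 : ∀ j, j ≤ r → ∀ σ σ' x x', (∀ k, k ≤ r → σ k = σ' k) → ∀ n, n ≤ S.t r →
      (lam v (S.Y σ x) n ≤ S.A j σ x ↔ lam v (S.Y σ' x') n ≤ S.A j σ' x')) :
    Nonempty (PSch s v H q (r + 1)) := by
  refine ⟨{ t := S.t
            Y := S.Y
            A := S.A
            E := S.E
            cmpY := S.cmpY
            cmpA := S.cmpA
            cmpE := S.cmpE
            extY := S.extY
            extA := S.extA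
            t_mono := S.t_mono
            mark := S.mark
            bdA := S.bdA
            bdY := S.bdY
            const := S.const
            clean := S.clean
            type_v := ?_
            type_o := ?_
            type_a := ?_ }⟩
  · intro i hi
    rcases Nat.lt_succ_iff_lt_or_eq.1 hi with hi | rfl
    · exact S.type_v i hi
    · exact h1
  · intro i hi
    rcases Nat.lt_succ_iff_lt_or_eq.1 hi with hi | rfl
    · exact S.type_o i hi
    · exact h2
  · intro i j hji hi
    rcases Nat.lt_succ_iff_lt_or_eq.1 hi with hi | rfl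
    · exact S.type_a i j hji hi
    · exact h3 j hji

end EMC
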