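import Pool.Agent.Lib.MP_531058_lc.EMC.TB
import Pool.Agent.Lib.MP_531058_lc.EMC.ApiC2

/-!
# Clean positions in chains of disjoint configurations
-/

namespace EMC

open Classical
open Pool.Agent.Lib.MP_531058_lc.RCA

variable {M : Type*} [DSR M] {s : Sys M}

variable {v : M → M → M}

/-- `X a k` = start of the `k`-th interval of a chain of disjoint intervals `[x, E x]` beginning at `a` -/
theorem exists_chain {E : M → M} (hE : FR s E) : ∃ X : M → M → M,
    FR s (fun x : M × M => X x.1 x.2) ∧ (∀ a, X a 0 = a) ∧ ∀ a k, X a (k + 1) = E (X a k) + 1 := by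
  obtain ⟨h, hh, h0, hs⟩ := FR.prec (s := s) (α := M) (β := M) (f := fun a => a)
    (g := fun x : M × M × M => E x.2.2 + 1) FR.id (FR.succ (FR.comp hE (FR.snd' FR.snd)))
  exact ⟨h, hh, h0, fun a k => hs a k⟩

theorem chain_mono {E : M → M} (hEx : ∀ x, x ≤ E x) {X : M → M → M}
    (hX : FR s (fun x : M × M => X x.1 x.2)) (h0 : ∀ a, X a 0 = a)
    (h1 : ∀ a k, X a (k + 1) = E (X a k) + 1) (a : M) {k l : M} (h : k ≤ l) : X a k ≤ X a l := by
  obtain ⟨d, rfl⟩ := exists_add_of_le h
  clear h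
  have hF : FP s (fun d : M => X a k ≤ X a (k + d)) := by
    refine FP.le (FR.const (β := M) (X a k)) ?_
    exact FR.comp (g := fun x : M × M => X x.1 x.2) (f := fun d : M => (a, k + d)) hX
      (FR.pair (FR.const (β := M) a) (FR.add (FR.const (β := M) k) FR.id))
  refine FP.ind hF (by rw [add_zero]) (fun n hn => ?_) d
  rw [← add_assoc, h1]
  exact hn.trans ((hEx _).trans le_self_add)

/-- For every `a` there is a position `ξ a` in a chain beginning at `a`, of computably bounded length, such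
that every letter `n ≤ a` which is quiet on `[a, ξ a]` is quiet on `[a, E (ξ a)]`.
Proof: the code (`exists_code`) of `{n < a+1 : quiet v n a (X a k)}` is nonincreasing in `k` and
`< P (a+1)`; `stable_step` gives `k < P (a+1)` with equal codes at `k` and `k+1`; the least such `k` is
computable in `a`; `ξ a = X a k`, `B a = X a (P (a+1))`. -/
theorem clean_pos (hv : FR s (fun x : M × M => v x.1 x.2)) {E : M → M} (hE : FR s E)
    (hEx : ∀ x, x ≤ E x) : ∃ B ξ : M → M, FR s B ∧ FR s ξ ∧ (∀ a, a ≤ ξ a ∧ E (ξ a) ≤ B a) ∧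
      ∀ a n, n ≤ a → quiet v n a (ξ a) → quiet v n a (E (ξ a)) := by
  obtain ⟨X, hX, hX0, hX1⟩ := exists_chain (s := s) hE
  have hmono : ∀ a k l : M, k ≤ l → X a k ≤ X a l := fun a k l h =>
    chain_mono hEx hX hX0 hX1 a h
  have hQ : FP s (fun z : (M × M) × M => quiet v z.2 z.1.1 (X z.1.1 z.1.2)) :=
    FP.quiet hv FR.snd (FR.fst' FR.fst) (FR.comp hX FR.fst)
  obtain ⟨g, P, hg, hP, hlt, hiff, hle⟩ := exists_code hQ
  have hex : ∀ a : M, ∃ r, r < P (a + 1) ∧ g (a, r + 1) (a + 1) = g (a, r) (a + 1) := by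
    intro a
    refine stable_step (s := s) (f := fun r : M => g (a, r) (a + 1)) ?_ (hlt _ _) ?_
    · exact FR.comp (g := fun x : (M × M) × M => g x.1 x.2) (f := fun r : M => ((a, r), a + 1)) hg
        (FR.pair (FR.pair (FR.const (β := M) a) FR.id) (FR.const (β := M) (a + 1)))
    · intro r
      refine hle _ _ _ fun j _ hq => ?_
      intro t ht ht'
      exact hq t ht (ht'.trans (hmono a r (r + 1) le_self_add))
  have hF : FP s (fun x : M × M => x.2 < P (x.1 + 1) ∧
      g (x.1, x.2 + 1) (x.1 + 1) = g (x.1, x.2) (x.1 + 1)) := by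
    refine FP.and (FP.lt FR.snd (FR.comp hP (FR.succ FR.fst))) (FP.eqM ?_ ?_)
    · exact FR.comp (g := fun x : (M × M) × M => g x.1 x.2)
        (f := fun x : M × M => ((x.1, x.2 + 1), x.1 + 1)) hg
        (FR.pair (FR.pair FR.fst (FR.succ FR.snd)) (FR.succ FR.fst))
    · exact FR.comp (g := fun x : (M × M) × M => g x.1 x.2)
        (f := fun x : M × M => ((x.1, x.2), x.1 + 1)) hg
        (FR.pair (FR.pair FR.fst FR.snd) (FR.succ FR.fst))
  obtain ⟨κ, hκ, hκ1, -⟩ := FR.mu (s := s) (p := fun a r : M => r < P (a + 1) ∧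
    g (a, r + 1) (a + 1) = g (a, r) (a + 1)) hF hex
  refine ⟨fun a => X a (P (a + 1)), fun a => X a (κ a), ?_, ?_, ?_, ?_⟩
  · exact FR.comp (g := fun x : M × M => X x.1 x.2) (f := fun a : M => (a, P (a + 1))) hX
      (FR.pair FR.id (FR.comp hP (FR.succ FR.id)))
  · exact FR.comp (g := fun x : M × M => X x.1 x.2) (f := fun a : M => (a, κ a)) hX
      (FR.pair FR.id hκ)
  · intro a
    refine ⟨?_, ?_⟩
    · have := hmono a 0 (κ a) zero_le
      rwa [hX0] at this
    · have h3 := hmono a (κ a + 1) (P (a + 1)) (DSR.succ_le_of_lt _ _ (hκ1 a).1)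
      rw [hX1] at h3
      exact le_self_add.trans h3
  · intro a n hn hq
    have h3 := ((hiff (a, κ a + 1) (a, κ a) (a + 1)).1 (hκ1 a).2 n (ApiB2_lt_succ.2 hn)).2 hq
    intro t ht ht'
    refine h3 t ht ?_
    show t ≤ X a (κ a + 1)
    rw [hX1]
    exact ht'.trans le_self_add

end EMC
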