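import Pool.Agent.Lib.MP_531058_lc.EMC.SC
import Pool.Agent.Lib.MP_531058_lc.EMC.SD

/-!
# One more level
-/

namespace EMC

open Classical
open Pool.Agent.Lib.MP_531058_lc.RCA

variable {M : Type*} [DSR M] {s : Sys M}

variable {v : M → M → M} {H : Set M} {q : ℕ}

theorem SE_quiet_mono {n a b b' : M} (h : quiet v n a b) (hb : b' ≤ b) : quiet v n a b' :=
  fun t h1 h2 => h t h1 (h2.trans hb)

/-- search for the next interval on which the letter `T` has the value `bv M b` -/
theorem SE_search (hv : FR s (fun x : M × M => v x.1 x.2)) {B : M → M} (hB : FR s B) {T : M}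
    (b : Bool) (hU : ∀ N, ∃ a, N ≤ a ∧ ∀ t, a ≤ t → t ≤ B a → v t T = bv M b) :
    ∃ a : M → M, FR s a ∧ ∀ N, N ≤ a N ∧ ∀ t, a N ≤ t → t ≤ B (a N) → v t T = bv M b := by
  have h1 : FP s (fun x : (M × M) × M => x.1.2 ≤ x.2 → v x.2 T = bv M b) :=
    FP.imp (FP.le (FR.snd' FR.fst) FR.snd)
      (FP.eqM (FR.comp hv (FR.pair FR.snd (FR.const T))) (FR.const (bv M b)))
  have h2 : FP s (fun x : M × M => ∀ t, t ≤ B x.2 → (x.2 ≤ t → v t T = bv M b)) :=
    FP.ballc_le (s := s) (b := fun x : M × M => B x.2)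
      (p := fun x t => (x.2 ≤ t → v t T = bv M b)) (FR.comp hB FR.snd) h1
  have h3 : FP s (fun x : M × M => x.1 ≤ x.2 ∧ ∀ t, t ≤ B x.2 → (x.2 ≤ t → v t T = bv M b)) :=
    FP.and (FP.le FR.fst FR.snd) h2
  obtain ⟨a, ha, ha1, -⟩ := FR.mu (s := s) (α := M)
    (p := fun N a => N ≤ a ∧ ∀ t, t ≤ B a → (a ≤ t → v t T = bv M b)) h3 (fun N => by
      obtain ⟨a, h4, h5⟩ := hU N
      exact ⟨a, h4, fun t h6 h7 => h5 t h7 h6⟩)
  exact ⟨a, ha, fun N => ⟨(ha1 N).1, fun t h4 h5 => (ha1 N).2 t h5 h4⟩⟩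

/-- `B`, `ξ` from `clean_pos` for `S.E`; `T` = the new letter, usable for the intervals `[a, B a]`.
`a_b N` := least `a ≥ N` such that `T` has the value `bv M b` on `[a, B a]` (computable, `FR.mu`);
`Y' σ N := Y σ (ξ a)`, `A' j σ N := A j σ (ξ a)` for `j < q`, `A' q σ N := a`, where `a = a_(σ q) N`;
`E' N := B (a_0 N) + B (a_1 N)`; `t' q := T`, `t' j := t j` for `j < q`.
`clean` for `j = q`: a letter `n ≤ a` quiet on `[a, Y σ (ξ a)]` is quiet on `[a, ξ a]`, hence on
`[a, E (ξ a)]`, hence on `[a, Y σ' (ξ a)]`. -/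
theorem psch_step (hv : FR s (fun x : M × M => v x.1 x.2)) (S : PSch s v H q q)
    {B ξ : M → M} (hB : FR s B) (hξ : FR s ξ) (h1 : ∀ a, a ≤ ξ a ∧ S.E (ξ a) ≤ B a)
    (h2 : ∀ a n, n ≤ a → quiet v n a (ξ a) → quiet v n a (S.E (ξ a)))
    {T : M} (hT : ∀ j, j < q → S.t j < T)
    (hU : ∀ b : Bool, ∀ N, ∃ a, N ≤ a ∧ ∀ t, a ≤ t → t ≤ B a → v t T = bv M b) :
    Nonempty (PSch s v H (q + 1) q) := by
  have hs : ∀ b : Bool, ∃ a : M → M, FR s a ∧ ∀ N, N ≤ a N ∧
      ∀ t, a N ≤ t → t ≤ B (a N) → v t T = bv M b := fun b => SE_search hv hB b (hU b)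
  choose a haR ha using hs
  -- the end of the old configuration
  have hEB : ∀ b N, S.E (ξ (a b N)) ≤ B (a b N) := fun b N => (h1 _).2
  have hxa : ∀ b N, N ≤ ξ (a b N) := fun b N => (ha b N).1.trans (h1 _).1
  refine ⟨{
    t := fun j => if j = q then T else S.t j
    Y := fun σ N => S.Y σ (ξ (a (σ q) N))
    A := fun j σ N => if j = q then a (σ q) N else if j < q then S.A j σ (ξ (a (σ q) N)) else 0
    E := fun N => B (a false N) + B (a true N)
    cmpY := fun σ => FR.comp (S.cmpY σ) (FR.comp hξ (haR (σ q)))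
    cmpA := ?_
    cmpE := FR.add (FR.comp hB (haR false)) (FR.comp hB (haR true))
    extY := ?_
    extA := ?_
    t_mono := ?_
    mark := fun σ x => S.mark σ _
    bdA := ?_
    bdY := ?_
    const := ?_
    clean := ?_
    type_v := ?_
    type_o := ?_
    type_a := ?_ }⟩
  · intro j σ
    by_cases hj : j = q
    · simp only [hj, if_true]
      exact haR (σ q)
    · by_cases hjq : j < q
      · simp only [hj, hjq, if_true, if_false]
        exact FR.comp (S.cmpA j σ) (FR.comp hξ (haR (σ q)))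
      · simp only [hj, hjq, if_false]
        exact FR.const (β := M) 0
  · intro σ σ' x h
    show S.Y σ (ξ (a (σ q) x)) = S.Y σ' (ξ (a (σ' q) x))
    rw [h q (Nat.lt_succ_self q)]
    exact S.extY σ σ' _ fun k hk => h k (Nat.lt_succ_of_lt hk)
  · intro j σ σ' x h
    by_cases hj : j = q
    · simp only [hj, if_true]
      rw [h q (hj ▸ le_rfl) (Nat.lt_succ_self q)]
    · by_cases hjq : j < q
      · simp only [hj, hjq, if_true, if_false]
        rw [h q hjq.le (Nat.lt_succ_self q)]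
        exact S.extA j σ σ' _ fun k hk hk' => h k hk (Nat.lt_succ_of_lt hk')
      · simp only [hj, hjq, if_false]
  · intro i j hij hj
    have hi : i < q := by omega
    have hi' : i ≠ q := by omega
    by_cases hjq : j = q
    · simp only [hjq, if_true, hi', if_false]
      exact hT i hi
    · simp only [hjq, hi', if_false]
      exact S.t_mono i j hij (by omega)
  · intro j σ x hj
    have hb := S.bdY σ (ξ (a (σ q) x))
    by_cases hjq : j = q
    · simp only [hjq, if_true]
      exact ⟨(ha _ x).1, (h1 _).1.trans hb.1⟩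
    · have hjq' : j < q := by omega
      simp only [hjq, hjq', if_true, if_false]
      have hA := S.bdA j σ (ξ (a (σ q) x)) hjq'
      exact ⟨(hxa _ x).trans hA.1, hA.2⟩
  · intro σ x
    have hb := S.bdY σ (ξ (a (σ q) x))
    refine ⟨(hxa _ x).trans hb.1, (hb.2.trans (hEB _ x)).trans ?_⟩
    cases σ q
    · exact le_self_add
    · exact le_add_self
  · intro j σ x hj r hr hr'
    by_cases hjq : j = q
    · simp only [hjq, if_true] at hr hr' ⊢
      exact (ha _ x).2 r hr (hr'.trans ((S.bdY σ _).2.trans (hEB _ x)))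
    · have hjq' : j < q := by omega
      simp only [hjq, hjq', if_true, if_false] at hr hr' ⊢
      exact S.const j σ _ hjq' r hr hr'
  · intro j σ σ' x hj h n hn
    have hq : σ q = σ' q := h q (by omega) (Nat.lt_succ_self q)
    by_cases hjq : j = q
    · simp only [hjq, if_true] at hn ⊢
      rw [← hq]
      have key : ∀ τ τ' : ℕ → Bool, quiet v n (a (σ q) x) (S.Y τ (ξ (a (σ q) x))) →
          quiet v n (a (σ q) x) (S.Y τ' (ξ (a (σ q) x))) := fun τ τ' h3 =>
        SE_quiet_mono (h2 _ n hn (SE_quiet_mono h3 (S.bdY τ _).1)) (S.bdY τ' _).2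
      exact ⟨key σ σ', key σ' σ⟩
    · have hjq' : j < q := by omega
      simp only [hjq, hjq', if_true, if_false] at hn ⊢
      rw [← hq]
      exact S.clean j σ σ' _ hjq' (fun k hk hk' => h k hk (Nat.lt_succ_of_lt hk')) n hn
  · intro i hi σ σ' x x' h n hn
    have hiq : i ≠ q := by omega
    simp only [hiq, if_false] at hn
    exact S.type_v i hi σ σ' _ _ h n hn
  · intro i hi σ σ' x x' h n n' hn hn'
    have hiq : i ≠ q := by omega
    simp only [hiq, if_false] at hn hn'
    exact S.type_o i hi σ σ' _ _ h n n' hn hn'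
  · intro i j hji hi σ σ' x x' h n hn
    have hiq : i ≠ q := by omega
    have hjq : j ≠ q := by omega
    have hjq' : j < q := by omega
    simp only [hiq, if_false] at hn
    simp only [hjq, hjq', if_true, if_false]
    exact S.type_a i j hji hi σ σ' _ _ h n hn

end EMC
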