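import Pool.Agent.Lib.MP_531058_lc.EMC.Tour
import Pool.Agent.Lib.MP_531058_lc.EMC.ApiB2

/-!
# The operator `least`
-/

namespace EMC

open Classical
open Pool.Agent.Lib.MP_531058_lc.RCA

variable {M : Type*} [DSR M] {s : Sys M} {α β γ : Type*} [Cd s α] [Cd s β] [Cd s γ]

theorem least_spec {P : M → Prop} (hP : FP s P) (h : ∃ m, P m) :
    P (least P) ∧ ∀ m, m < least P → ¬ P m := by
  have h' := dec_least hP h
  unfold least
  rw [dif_pos h']
  exact Classical.choose_spec h'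

theorem least_eq {P : M → Prop} {m : M} (h : P m) (h' : ∀ m', m' < m → ¬ P m') : least P = m := by
  have h1 : ∃ m, P m ∧ ∀ m', m' < m → ¬ P m' := ⟨m, h, h'⟩
  unfold least
  rw [dif_pos h1]
  obtain ⟨h2, h3⟩ := Classical.choose_spec h1
  rcases lt_trichotomy (Classical.choose h1) m with h4 | h4 | h4
  · exact absurd h2 (h' _ h4)
  · exact h4
  · exact absurd h (h3 _ h4)

theorem FR.least {Q : α × M → Prop} (hQ : FP s Q) (h : ∀ a, ∃ m, Q (a, m)) :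
    FR s (fun a => least (fun m => Q (a, m))) := by
  obtain ⟨g, hg, hg1, hg2⟩ := FR.mu (s := s) (p := fun a m => Q (a, m)) hQ h
  refine hg.congr fun a => ?_
  exact least_eq (hg1 a) (hg2 a)

theorem FR.least_le {Q : α × M → Prop} {b : α → M} (hQ : FP s Q) (hb : FR s b) :
    FR s (fun a => EMC.least (fun m => m ≤ b a ∧ Q (a, m))) := by
  have hQ1 : FP s (fun x : α × M => x.2 ≤ b x.1 ∧ Q x) :=
    FP.and (FP.le FR.snd (FR.comp hb FR.fst)) hQ
  have hex : FP s (fun a : α => ∃ m, m < b a + 1 ∧ Q (a, m)) :=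
    FP.bex (b := fun a : α => b a + 1) (p := Q) (FR.succ hb) hQ
  have hex' : FP s (fun x : α × M => (∃ m, m < b x.1 + 1 ∧ Q (x.1, m)) → x.2 ≤ b x.1 ∧ Q x) :=
    FP.imp (FP.comp (p := fun a : α => ∃ m, m < b a + 1 ∧ Q (a, m)) (f := fun x : α × M => x.1)
      hex FR.fst) hQ1
  have ht : ∀ a : α, ∃ m, (∃ m, m < b a + 1 ∧ Q (a, m)) → m ≤ b a ∧ Q (a, m) := by
    intro a
    by_cases hc : ∃ m, m < b a + 1 ∧ Q (a, m)
    · obtain ⟨m, hm, hq⟩ := hc
      exact ⟨m, fun _ => ⟨ApiB2_lt_succ.1 hm, hq⟩⟩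
    · exact ⟨0, fun h => absurd h hc⟩
  obtain ⟨g, hg, hg1, hg2⟩ := FR.mu (s := s)
    (p := fun a m => (∃ m, m < b a + 1 ∧ Q (a, m)) → m ≤ b a ∧ Q (a, m)) hex' ht
  refine hg.congr fun a => ?_
  by_cases hc : ∃ m, m < b a + 1 ∧ Q (a, m)
  · exact least_eq (hg1 a hc) fun m' hm' h => hg2 a m' hm' fun _ => h
  · have hno : ¬ ∃ m, (m ≤ b a ∧ Q (a, m)) ∧ ∀ m', m' < m → ¬ (m' ≤ b a ∧ Q (a, m')) := by
      rintro ⟨m, ⟨hm, hq⟩, -⟩
      exact hc ⟨m, ApiB2_lt_succ.2 hm, hq⟩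
    unfold EMC.least
    rw [dif_neg hno]
    symm
    by_contra hne
    have hpos : 0 < g a := pos_iff_ne_zero.2 hne
    exact hg2 a 0 hpos fun h => absurd h hc

end EMC
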