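import Pool.Agent.Lib.MP_531058_lc.EMC.TA

/-!
# The last flip time
-/

namespace EMC

open Classical
open Pool.Agent.Lib.MP_531058_lc.RCA

variable {M : Type*} [DSR M] {s : Sys M} {α β γ : Type*} [Cd s α] [Cd s β] [Cd s γ]

variable {v : M → M → M}

/-- the predicate in the definition of `lam` -/
theorem TB_const_fp (hv : FR s (fun x : M × M => v x.1 x.2)) :
    FP s (fun z : (M × M) × M => ∀ x, z.2 ≤ x → x ≤ z.1.1 → v x z.1.2 = v z.1.1 z.1.2) := by
  have h1 : FP s (fun z : (M × M) × M => ∀ x, x ≤ z.1.1 → (z.2 ≤ x → v x z.1.2 = v z.1.1 z.1.2)) := by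
    refine FP.ballc_le (b := fun z : (M × M) × M => z.1.1)
      (p := fun (z : (M × M) × M) (x : M) => (z.2 ≤ x → v x z.1.2 = v z.1.1 z.1.2))
      (FR.fst' FR.fst) ?_
    refine FP.imp (FP.le (FR.snd' FR.fst) FR.snd) (FP.eqM ?_ ?_)
    · exact FR.comp (g := fun x : M × M => v x.1 x.2) hv
        (FR.pair FR.snd (FR.snd' (FR.fst' FR.fst)))
    · exact FR.comp (g := fun x : M × M => v x.1 x.2) hv
        (FR.pair (FR.fst' (FR.fst' FR.fst)) (FR.snd' (FR.fst' FR.fst)))
  exact h1.congr fun z => ⟨fun h x a b => h x b a, fun h x a b => h x b a⟩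

theorem TB_lam_fp (hv : FR s (fun x : M × M => v x.1 x.2)) :
    FR s (fun z : M × M => lam v z.1 z.2) := by
  have h := FR.least_le (s := s) (α := M × M) (b := fun z : M × M => z.1) (TB_const_fp hv) FR.fst
  exact h

theorem lam_spec (hv : FR s (fun x : M × M => v x.1 x.2)) (t n : M) :
    lam v t n ≤ t ∧ (∀ x, lam v t n ≤ x → x ≤ t → v x n = v t n) ∧
      ∀ r, r ≤ t → (∀ x, r ≤ x → x ≤ t → v x n = v t n) → lam v t n ≤ r := by
  have hP : FP s (fun r : M => r ≤ t ∧ ∀ x, r ≤ x → x ≤ t → v x n = v t n) :=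
    FP.and (FP.le FR.id (FR.const (β := M) t))
      (FP.comp (f := fun r : M => ((t, n), r)) (TB_const_fp hv)
        (FR.pair (FR.const (β := M × M) (t, n)) FR.id))
  obtain ⟨h1, h2⟩ := least_spec hP ⟨t, le_rfl, fun x hx hx' => by rw [le_antisymm hx' hx]⟩
  exact ⟨h1.1, h1.2, fun r hr hr' => not_lt.1 fun hlt => h2 r hlt ⟨hr, hr'⟩⟩

theorem lam_le_iff (hv : FR s (fun x : M × M => v x.1 x.2)) {a t n : M} (hat : a ≤ t) :
    lam v t n ≤ a ↔ quiet v n a t := by
  obtain ⟨_, h2, h3⟩ := lam_spec hv t n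
  constructor
  · intro h x hax hxt
    rw [h2 x (h.trans hax) hxt, h2 a h hat]
  · intro h
    exact h3 a hat fun x hax hxt => by rw [h x hax hxt, h t hat le_rfl]

theorem lam_of_quiet (hv : FR s (fun x : M × M => v x.1 x.2)) {a b t n : M} (h : quiet v n a b)
    (h1 : a ≤ t) (h2 : t ≤ b) : lam v t n = lam v a n := by
  have hq : quiet v n a t := fun x hax hxt => h x hax (hxt.trans h2)
  obtain ⟨ht1, ht2, ht3⟩ := lam_spec hv t n
  obtain ⟨ha1, ha2, ha3⟩ := lam_spec hv a n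
  have hta : v t n = v a n := h t h1 h2
  apply le_antisymm
  · refine ht3 _ (ha1.trans h1) fun x hx hxt => ?_
    rcases le_total x a with h4 | h4
    · rw [ha2 x hx h4, hta]
    · rw [hq x h4 hxt, hta]
  · refine ha3 _ ((lam_le_iff hv h1).2 hq) fun x hx hxa => ?_
    rw [ht2 x hx (hxa.trans h1), hta]

theorem FR.lam (hv : FR s (fun x : M × M => v x.1 x.2)) {f g : α → M} (hf : FR s f) (hg : FR s g) :
    FR s (fun a => lam v (f a) (g a)) :=
  FR.comp (g := fun z : M × M => EMC.lam v z.1 z.2) (TB_lam_fp hv) (FR.pair hf hg)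

theorem FP.quiet (hv : FR s (fun x : M × M => v x.1 x.2)) {f g h : α → M} (hf : FR s f)
    (hg : FR s g) (hh : FR s h) : FP s (fun a => quiet v (f a) (g a) (h a)) := by
  have h1 : FP s (fun a : α => ∀ t, t ≤ h a → (g a ≤ t → v t (f a) = v (g a) (f a))) := by
    refine FP.ballc_le (b := h) (p := fun (a : α) (t : M) => (g a ≤ t → v t (f a) = v (g a) (f a)))
      hh ?_
    refine FP.imp (FP.le (FR.comp hg FR.fst) FR.snd) (FP.eqM ?_ ?_)
    · exact FR.comp (g := fun x : M × M => v x.1 x.2) hv (FR.pair FR.snd (FR.comp hf FR.fst))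
    · exact FR.comp (g := fun x : M × M => v x.1 x.2) hv
        (FR.pair (FR.comp hg FR.fst) (FR.comp hf FR.fst))
  exact h1.congr fun a => ⟨fun H t a b => H t b a, fun H t a b => H t b a⟩

theorem FP.pre (hv : FR s (fun x : M × M => v x.1 x.2)) {f g h : α → M} (hf : FR s f)
    (hg : FR s g) (hh : FR s h) : FP s (fun a => pre v (f a) (g a) (h a)) := by
  unfold EMC.pre
  exact FP.or (FP.lt (FR.lam hv hf hg) (FR.lam hv hf hh))
    (FP.and (FP.eqM (FR.lam hv hf hg) (FR.lam hv hf hh)) (FP.lt hg hh))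

/-! ## `pre` is a strict total order -/

theorem pre_irrefl (t m : M) : ¬ pre v t m m := by
  rintro (h | ⟨_, h⟩)
  · exact lt_irrefl _ h
  · exact lt_irrefl _ h

theorem pre_trans {t a b c : M} (h1 : pre v t a b) (h2 : pre v t b c) : pre v t a c := by
  rcases h1 with h1 | ⟨h1, h1'⟩
  · rcases h2 with h2 | ⟨h2, _⟩
    · exact Or.inl (h1.trans h2)
    · exact Or.inl (by rw [← h2]; exact h1)
  · rcases h2 with h2 | ⟨h2, h2'⟩
    · exact Or.inl (by rw [h1]; exact h2)
    · exact Or.inr ⟨h1.trans h2, h1'.trans h2'⟩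

theorem pre_asymm {t a b : M} (h1 : pre v t a b) : ¬ pre v t b a :=
  fun h2 => pre_irrefl t a (pre_trans h1 h2)

theorem pre_total {t a b : M} (h : a ≠ b) : pre v t a b ∨ pre v t b a := by
  rcases lt_trichotomy (EMC.lam v t a) (EMC.lam v t b) with h1 | h1 | h1
  · exact Or.inl (Or.inl h1)
  · rcases lt_or_gt_of_ne h with h2 | h2
    · exact Or.inl (Or.inr ⟨h1, h2⟩)
    · exact Or.inr (Or.inr ⟨h1.symm, h2⟩)
  · exact Or.inr (Or.inl h1)

theorem lam_le_of_not_pre {t a b : M} (h : ¬ pre v t b a) : lam v t a ≤ lam v t b :=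
  not_lt.1 fun h1 => h (Or.inl h1)

end EMC
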