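import Pool.Agent.Lib.MP_531058_lc.EMC.TB
import Pool.Agent.Lib.MP_531058_lc.EMC.ApiF

/-!
# First bad letters and the comparison `dl`
-/

namespace EMC

open Classical
open Pool.Agent.Lib.MP_531058_lc.RCA

variable {M : Type*} [DSR M] {s : Sys M} {α β γ : Type*} [Cd s α] [Cd s β] [Cd s γ]

variable {v : M → M → M}

private theorem TC_app2 (hv : FR s (fun x : M × M => v x.1 x.2)) {f g : α → M} (hf : FR s f)
    (hg : FR s g) : FR s (fun a => v (f a) (g a)) :=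
  FR.comp (g := fun x : M × M => v x.1 x.2) (f := fun a => (f a, g a)) hv (FR.pair hf hg)

theorem FP.good (hv : FR s (fun x : M × M => v x.1 x.2)) {f g h k : α → M} (hf : FR s f)
    (hg : FR s g) (hh : FR s h) (hk : FR s k) :
    FP s (fun a => good v (f a) (g a) (h a) (k a)) := by
  unfold EMC.good
  refine FP.and (FP.eqM (TC_app2 hv hf hk) (TC_app2 hv hg hk)) ?_
  refine FP.ballc_le (b := h) (p := fun x l => EMC.pre v (f x) l (k x) ↔ EMC.pre v (g x) l (k x))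
    hh ?_
  exact FP.iff (FP.pre hv (FR.comp hf FR.fst) FR.snd (FR.comp hk FR.fst))
    (FP.pre hv (FR.comp hg FR.fst) FR.snd (FR.comp hk FR.fst))

theorem good_comm {y u n m : M} : good v y u n m ↔ good v u y n m := by
  unfold good
  constructor
  · rintro ⟨h1, h2⟩
    exact ⟨h1.symm, fun l hl => (h2 l hl).symm⟩
  · rintro ⟨h1, h2⟩
    exact ⟨h1.symm, fun l hl => (h2 l hl).symm⟩

theorem fb_eq {y u n m : M} (h1 : m ≤ n) (h2 : ¬ good v y u n m)
    (h3 : ∀ l, l ≤ n → ¬ good v y u n l → ¬ pre v y l m) : fb v y u n = m := by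
  have huniq : ∀ m', m' ≤ n ∧ ¬ good v y u n m' ∧ (∀ l, l ≤ n → ¬ good v y u n l →
      ¬ pre v y l m') → m' = m := by
    rintro m' ⟨h4, h5, h6⟩
    by_contra hne
    rcases pre_total (v := v) (t := y) hne with h | h
    · exact h3 m' h4 h5 h
    · exact h6 m h1 h2 h
  unfold fb
  refine least_eq ⟨h1, h2, h3⟩ fun m' hm' h => ?_
  exact absurd (huniq m' h) (ne_of_lt hm')

/-- if there is a bad letter then `fb` is the first bad letter in the order of time `y`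
(take the bad letters with the least `lam`, among them the least letter) -/
theorem fb_spec (hv : FR s (fun x : M × M => v x.1 x.2)) {y u n : M}
    (h : ∃ m, m ≤ n ∧ ¬ good v y u n m) :
    fb v y u n ≤ n ∧ ¬ good v y u n (fb v y u n) ∧
      ∀ l, l ≤ n → ¬ good v y u n l → ¬ pre v y l (fb v y u n) := by
  have hc : ∀ (β' : Type _) [Cd s β'] (c : M), FR s (fun _ : β' => c) := fun β' _ c =>
    FR.const (s := s) (α := β') (β := M) c
  have hgood : FP s (fun m : M => ¬ good v y u n m) :=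
    FP.not (FP.good hv (hc _ y) (hc _ u) (hc _ n) FR.id)
  -- the least last flip time of a bad letter
  have hP1 : FP s (fun r : M => ∃ m, m ≤ n ∧ (¬ good v y u n m ∧ lam v y m = r)) := by
    refine FP.bexc_le (b := fun _ : M => n) (p := fun (r : M) (m : M) =>
      ¬ good v y u n m ∧ lam v y m = r) (hc _ n) ?_
    exact FP.and (FP.comp (p := fun m : M => ¬ good v y u n m) hgood FR.snd) (FP.eqM (FR.lam hv (hc _ y) FR.snd) FR.fst)
  obtain ⟨m0, hm0, hb0⟩ := h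
  obtain ⟨r, ⟨m1, hm1, hb1, hr1⟩, hmin⟩ := dec_least hP1 ⟨_, m0, hm0, hb0, rfl⟩
  -- the least letter among them
  have hP2 : FP s (fun m : M => m ≤ n ∧ (¬ good v y u n m ∧ lam v y m = r)) :=
    FP.and (FP.le FR.id (hc _ n)) (FP.and hgood (FP.eqM (FR.lam hv (hc _ y) FR.id) (hc _ r)))
  obtain ⟨m, ⟨hm, hb, hr⟩, hmin2⟩ := dec_least hP2 ⟨m1, hm1, hb1, hr1⟩
  have h3 : ∀ l, l ≤ n → ¬ good v y u n l → ¬ pre v y l m := by
    intro l hl hbl hpre
    rcases hpre with h4 | ⟨h4, h5⟩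
    · rw [hr] at h4
      exact hmin _ h4 ⟨l, hl, hbl, rfl⟩
    · exact hmin2 l h5 ⟨hl, hbl, h4.trans hr⟩
  rw [fb_eq hm hb h3]
  exact ⟨hm, hb, h3⟩

theorem FR.fb (hv : FR s (fun x : M × M => v x.1 x.2)) {f g h : α → M} (hf : FR s f)
    (hg : FR s g) (hh : FR s h) : FR s (fun a => fb v (f a) (g a) (h a)) := by
  unfold EMC.fb
  refine FR.least_le (Q := fun x : α × M => ¬ EMC.good v (f x.1) (g x.1) (h x.1) x.2 ∧
    ∀ l, l ≤ h x.1 → ¬ EMC.good v (f x.1) (g x.1) (h x.1) l → ¬ EMC.pre v (f x.1) l x.2)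
    (b := h) ?_ hh
  refine FP.and (FP.not (FP.good hv (FR.comp hf FR.fst)
    (FR.comp hg FR.fst) (FR.comp hh FR.fst) FR.snd)) ?_
  refine FP.ballc_le (b := fun x : α × M => h x.1) (p := fun (x : α × M) (l : M) =>
    ¬ EMC.good v (f x.1) (g x.1) (h x.1) l → ¬ EMC.pre v (f x.1) l x.2) (FR.comp hh FR.fst) ?_
  have h1 : FR s (fun x : (α × M) × M => x.1.1) := FR.fst' FR.fst
  have hf' : FR s (fun x : (α × M) × M => f x.1.1) := FR.comp hf h1
  have hg' : FR s (fun x : (α × M) × M => g x.1.1) := FR.comp hg h1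
  have hh' : FR s (fun x : (α × M) × M => h x.1.1) := FR.comp hh h1
  exact FP.imp (FP.not (FP.good hv hf' hg' hh' FR.snd)) (FP.not (FP.pre hv hf' FR.snd
    (FR.snd' FR.fst)))

theorem FR.dl (hv : FR s (fun x : M × M => v x.1 x.2)) {f g h : α → M} (hf : FR s f)
    (hg : FR s g) (hh : FR s h) : FR s (fun a => dl v (f a) (g a) (h a)) := by
  unfold EMC.dl
  refine FR.ite ?_ (FR.const (β := M) 0) (FR.ite ?_ (FR.const (β := M) 1) (FR.const (β := M) 2))
  · refine FP.ballc_le (b := h) (p := fun x m => EMC.good v (f x) (g x) (h x) m) hh ?_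
    exact FP.good hv (FR.comp hf FR.fst) (FR.comp hg FR.fst) (FR.comp hh FR.fst) FR.snd
  · have h1 := FR.fb hv hf hg hh
    have h2 := FR.fb hv hg hf hh
    exact FP.or (FP.lt h1 h2) (FP.and (FP.eqM h1 h2) (FP.lt (TC_app2 hv hf h1)
      (TC_app2 hv hg h2)))

theorem FR.sy {f : α → M} (hf : FR s f) : FR s (fun a => sy (f a)) := by
  unfold EMC.sy
  exact FR.ite (FP.eqM hf (FR.const (β := M) 0)) (FR.const (β := W) none)
    (FR.ite (FP.eqM hf (FR.const (β := M) 1)) (FR.const (β := W) (oneW false))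
      (FR.const (β := W) (oneW true)))

private theorem TC_Nst_dec (hv : FR s (fun x : M × M => v x.1 x.2)) :
    FP s (fun z : (M × M) × M => z.2 = z.1.1 ∨ (EMC.dl v z.1.1 z.1.2 z.2 ≠ 0 ∧
      EMC.lam v z.1.1 (EMC.fb v z.1.1 z.1.2 z.2) ≤ z.2)) := by
  have h1 : FR s (fun x : (M × M) × M => x.1.1) := FR.fst' FR.fst
  have h2 : FR s (fun x : (M × M) × M => x.1.2) := FR.snd' FR.fst
  have h3 : FR s (fun x : (M × M) × M => x.2) := FR.snd
  exact FP.or (FP.eqM h3 h1) (FP.and (FP.not (FP.eqM (FR.dl hv h1 h2 h3) (FR.const (β := M) 0)))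
    (FP.le (FR.lam hv h1 (FR.fb hv h1 h2 h3)) h3))

theorem FR.Nst (hv : FR s (fun x : M × M => v x.1 x.2)) {f g : α → M} (hf : FR s f)
    (hg : FR s g) : FR s (fun a => Nst v (f a) (g a)) := by
  have h1 : FR s (fun x : M × M => EMC.Nst v x.1 x.2) := by
    unfold EMC.Nst
    exact FR.least (Q := fun x : (M × M) × M => x.2 = x.1.1 ∨ (EMC.dl v x.1.1 x.1.2 x.2 ≠ 0 ∧
      EMC.lam v x.1.1 (EMC.fb v x.1.1 x.1.2 x.2) ≤ x.2)) (TC_Nst_dec hv)
      (fun a => ⟨a.1, Or.inl rfl⟩)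
  exact TC_app2 (v := EMC.Nst v) h1 hf hg

theorem Nst_spec (hv : FR s (fun x : M × M => v x.1 x.2)) (y u : M) :
    (Nst v y u = y ∨ (dl v y u (Nst v y u) ≠ 0 ∧ lam v y (fb v y u (Nst v y u)) ≤ Nst v y u)) ∧
      ∀ n, n < Nst v y u → ¬ (n = y ∨ (dl v y u n ≠ 0 ∧ lam v y (fb v y u n) ≤ n)) :=
  least_spec (s := s) (P := fun n => n = y ∨ (EMC.dl v y u n ≠ 0 ∧ EMC.lam v y (EMC.fb v y u n) ≤ n))
    (FP.comp (p := fun z : (M × M) × M => z.2 = z.1.1 ∨ (EMC.dl v z.1.1 z.1.2 z.2 ≠ 0 ∧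
      EMC.lam v z.1.1 (EMC.fb v z.1.1 z.1.2 z.2) ≤ z.2)) (f := fun n : M => ((y, u), n))
      (TC_Nst_dec hv) (FR.pair (FR.const (β := M × M) (y, u)) FR.id)) ⟨y, Or.inl rfl⟩

end EMC
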