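import Pool.Agent.Lib.MP_531058_lc.EMC.Base
import Pool.Agent.Lib.MP_531058_lc.EMC.Word

/-!
# The tournament

`v s n` = value of letter `n` at time `s` (0 = not yet visited, 1, 2).
-/

namespace EMC

open Classical
open Pool.Agent.Lib.MP_531058_lc.RCA

variable {M : Type*} [DSR M]

/-- the least element with a property (`0` if there is none) -/
noncomputable def least (P : M → Prop) : M :=
  if h : ∃ m, P m ∧ ∀ m', m' < m → ¬ P m' then Classical.choose h else 0

/-- row `t` of `p` visits the node with number `n`, i.e. the prefix of length `lf n` of row `rt n` -/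
def vis (s : Sys M) (p : M × M → Prop) (t n : M) : Prop :=
  ∀ j, j < s.lf n → (p (t, j) ↔ p (s.rt n, j))

/-- value of letter `n` at time `t`: the last child of the node visited by the rows `≤ t` -/
noncomputable def vOf (s : Sys M) (p : M × M → Prop) (t n : M) : M :=
  if ∃ r, r ≤ t ∧ vis s p r n ∧ p (r, s.lf n) ∧ ∀ r', r < r' → r' ≤ t → ¬ vis s p r' n then 2
  else if ∃ r, r ≤ t ∧ vis s p r n then 1 else 0

/-- `n` does not change between the times `a` and `b` -/
def quiet (v : M → M → M) (n a b : M) : Prop := ∀ t, a ≤ t → t ≤ b → v t n = v a n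

/-- last flip time: the least `r ≤ t` such that the value is constant on `[r,t]` -/
noncomputable def lam (v : M → M → M) (t n : M) : M :=
  least (fun r => r ≤ t ∧ ∀ x, r ≤ x → x ≤ t → v x n = v t n)

/-- order of the letters in the stack at time `t` -/
def pre (v : M → M → M) (t m m' : M) : Prop :=
  lam v t m < lam v t m' ∨ (lam v t m = lam v t m' ∧ m < m')

/-- letter `m` has the same value and the same predecessors (among the letters `≤ n`) at `y` and `u` -/
def good (v : M → M → M) (y u n m : M) : Prop :=
  v y m = v u m ∧ ∀ l, l ≤ n → (pre v y l m ↔ pre v u l m)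

/-- the first bad letter in the stack at time `y` (compared with time `u`) -/
noncomputable def fb (v : M → M → M) (y u n : M) : M :=
  least (fun m => m ≤ n ∧ ¬ good v y u n m ∧ ∀ l, l ≤ n → ¬ good v y u n l → ¬ pre v y l m)

/-- comparison of the two stacks restricted to the letters `≤ n`: 0 equal, 1 `<`, 2 `>` -/
noncomputable def dl (v : M → M → M) (y u n : M) : M :=
  if ∀ m, m ≤ n → good v y u n m then 0
  else if fb v y u n < fb v u y n ∨ (fb v y u n = fb v u y n ∧ v y (fb v y u n) < v u (fb v u y n))
    then 1 else 2

/-- the symbol of `dl` as a class of words -/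
noncomputable def sy (d : M) : W := if d = 0 then none else if d = 1 then oneW false else oneW true

/-- the last letter which is read -/
noncomputable def Nst (v : M → M → M) (y u : M) : M :=
  least (fun n => n = y ∨ (dl v y u n ≠ 0 ∧ lam v y (fb v y u n) ≤ n))

/-- `R y u n` is the class of the word `dl (n-1), ..., dl 0` -/
def IsRun (v : M → M → M) (R : M → M → M → W) : Prop :=
  ∀ y u, R y u 0 = none ∧ ∀ n, R y u (n + 1) = mulW (sy (dl v y u n)) (R y u n)

/-- `T` is the tournament of `v` computed by the run `R` -/
def IsTour (v : M → M → M) (R : M → M → M → W) (T : M × M → Prop) : Prop :=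
  IsRun v R ∧ ∀ y u, y < u → (T (y, u) ↔ theta (R y u (Nst v y u + 1)) = true)

/-- the value coded by a bit -/
def bv (M : Type*) [DSR M] (b : Bool) : M := if b then 2 else 1

end EMC
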